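import Mathlib

/-!
# Nets in `ℙ²` and in `ℙ³`: definitions

A hyperplane of `ℙ(ℂᵐ)` is given by the coefficient vector of a linear form, and an arrangement
with `k` blocks of `d` hyperplanes by a function `ℓ : Fin k → Fin d → (Fin m → ℂ)`.
-/

open MvPolynomial Matrix

namespace Pool.Agent.H67.NetP3

/-- the linear form with coefficient vector `a` -/
noncomputable def linForm {m : ℕ} (a : Fin m → ℂ) : MvPolynomial (Fin m) ℂ :=
  ∑ i, C (a i) * X i

/-- the product of the `d` linear forms of one block -/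
noncomputable def blockPoly {m d : ℕ} (ℓ : Fin d → (Fin m → ℂ)) : MvPolynomial (Fin m) ℂ :=
  ∏ j, linForm (ℓ j)

/-- the gradient of `F` at the point `y` -/
noncomputable def grad {m : ℕ} (F : MvPolynomial (Fin m) ℂ) (y : Fin m → ℂ) : Fin m → ℂ :=
  fun i => eval y (pderiv i F)

/-- The conditions common to nets in `ℙ²` and `ℙ³`: there are at least three blocks, all the
`k d` hyperplanes are different (so the blocks are disjoint and the products are reduced), the
`k` products of linear forms span a pencil, and this pencil has no fixed component. -/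
structure IsPencilArr {m : ℕ} (k d : ℕ) (ℓ : Fin k → Fin d → (Fin m → ℂ)) : Prop where
  three_le : 3 ≤ k
  distinct : ∀ p q : Fin k × Fin d, p ≠ q → LinearIndependent ℂ ![ℓ p.1 p.2, ℓ q.1 q.2]
  pencil : Module.finrank ℂ (Submodule.span ℂ (Set.range fun i => blockPoly (ℓ i))) = 2
  no_fixed : ∀ G : MvPolynomial (Fin m) ℂ, (∀ i, G ∣ blockPoly (ℓ i)) → IsUnit G

/-- A `(k, d)`-net in the projective plane: in addition, any two of the `k` curves meet
transversally in exactly `d ^ 2` points. -/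
structure IsNetP2 (k d : ℕ) (ℓ : Fin k → Fin d → (Fin 3 → ℂ)) : Prop
    extends IsPencilArr k d ℓ where
  card_base : ∀ i j, i ≠ j → {p : Projectivization ℂ (Fin 3 → ℂ) | eval p.rep (blockPoly (ℓ i)) = 0 ∧
    eval p.rep (blockPoly (ℓ j)) = 0}.ncard = d ^ 2
  transversal : ∀ i j, i ≠ j → ∀ y : Fin 3 → ℂ, y ≠ 0 → eval y (blockPoly (ℓ i)) = 0 →
    eval y (blockPoly (ℓ j)) = 0 →
    LinearIndependent ℂ ![grad (blockPoly (ℓ i)) y, grad (blockPoly (ℓ j)) y]

/-- the coefficient vector of the restriction of the linear form `a` along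
`φ : ℂ³ → ℂ⁴` -/
def pullback (φ : (Fin 3 → ℂ) →ₗ[ℂ] (Fin 4 → ℂ)) (a : Fin 4 → ℂ) : Fin 3 → ℂ :=
  fun i => a ⬝ᵥ φ (Pi.single i 1)

/-- A `(k, d)`-net in `ℙ³`: the intersection with the generic plane `H = {x | h ⬝ᵥ x = 0}`
(i.e. for all `h` outside of the zero set of some nonzero polynomial `G`), in any linear
parametrisation `φ : ℂ³ → H`, is a `(k, d)`-net in `ℙ²`. -/
structure IsNetP3 (k d : ℕ) (ℓ : Fin k → Fin d → (Fin 4 → ℂ)) : Prop
    extends IsPencilArr k d ℓ where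
  generic : ∃ G : MvPolynomial (Fin 4) ℂ, G ≠ 0 ∧ ∀ h : Fin 4 → ℂ, eval h G ≠ 0 →
    ∀ φ : (Fin 3 → ℂ) →ₗ[ℂ] (Fin 4 → ℂ), Function.Injective φ →
      (∀ x, x ∈ LinearMap.range φ ↔ h ⬝ᵥ x = 0) →
      IsNetP2 k d (fun i j => pullback φ (ℓ i j))

/-- all the planes of the arrangement pass through one common point -/
def IsCone {k d : ℕ} (ℓ : Fin k → Fin d → (Fin 4 → ℂ)) : Prop :=
  ∃ x : Fin 4 → ℂ, x ≠ 0 ∧ ∀ i j, ℓ i j ⬝ᵥ x = 0

/-- the three blocks of the defining polynomial of the arrangement `Q_n` -/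
noncomputable def Qblock (n : ℕ) : Fin 3 → MvPolynomial (Fin 4) ℂ :=
  ![(X 0 ^ n - X 1 ^ n) * (X 2 ^ n - X 3 ^ n),
    (X 0 ^ n - X 2 ^ n) * (X 1 ^ n - X 3 ^ n),
    (X 0 ^ n - X 3 ^ n) * (X 1 ^ n - X 2 ^ n)]

/-- The arrangement is projectively equivalent to `Q_n`, by a linear change of coordinates
`A` which maps blocks to blocks. -/
def IsEquivQ {k d : ℕ} (ℓ : Fin k → Fin d → (Fin 4 → ℂ)) (n : ℕ) : Prop :=
  ∃ (e : Fin k ≃ Fin 3) (A : Matrix (Fin 4) (Fin 4) ℂ) (c : Fin k → ℂ), IsUnit A ∧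
    ∀ i, c i ≠ 0 ∧ blockPoly (ℓ i) = C (c i) * bind₁ (fun m => linForm (A m)) (Qblock n (e i))

end Pool.Agent.H67.NetP3
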