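import Mathlib
import Pool.Agent.H67.NetDefs

/-!
# The incidence structure of a net
-/

open MvPolynomial Matrix

namespace Pool.Agent.H67.NetP3

theorem eval_linForm {m : ℕ} (a x : Fin m → ℂ) : eval x (linForm a) = a ⬝ᵥ x := by
  simp [linForm, dotProduct]

theorem eval_blockPoly {m d : ℕ} (ℓ : Fin d → (Fin m → ℂ)) (x : Fin m → ℂ) :
    eval x (blockPoly ℓ) = ∏ j, (ℓ j ⬝ᵥ x) := by
  simp [blockPoly, eval_linForm]

theorem linForm_ne_zero {m : ℕ} {a : Fin m → ℂ} (ha : a ≠ 0) : linForm a ≠ 0 := by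
  intro h
  apply ha
  funext i
  have := eval_linForm a (Pi.single i 1)
  rw [h] at this
  simpa using this.symm

/-- the duality between the span of two forms and their common zeros -/
theorem mem_span_pair_of_dual {m : ℕ} {u v w : Fin m → ℂ}
    (h : ∀ x, u ⬝ᵥ x = 0 → v ⬝ᵥ x = 0 → w ⬝ᵥ x = 0) : w ∈ Submodule.span ℂ {u, v} := by
  by_contra hw
  obtain ⟨f, hf, hle⟩ := Submodule.exists_le_ker_of_notMem hw
  have hrep : ∀ a : Fin m → ℂ, f a = a ⬝ᵥ (fun i => f (Pi.single i 1)) := by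
    intro a
    have : a = ∑ i, a i • (Pi.single i (1:ℂ) : Fin m → ℂ) := by
      funext j
      simp [Finset.sum_apply, Pi.single_apply]
    conv_lhs => rw [this]
    rw [map_sum]
    simp only [map_smul, smul_eq_mul, dotProduct]
  apply hf
  rw [hrep]
  refine h _ ?_ ?_
  · rw [← hrep]
    exact hle (Submodule.subset_span (by simp))
  · rw [← hrep]
    exact hle (Submodule.subset_span (by simp))

/-- the functional `x ↦ a ⬝ᵥ x` -/
noncomputable def dotL {m : ℕ} (a : Fin m → ℂ) : (Fin m → ℂ) →ₗ[ℂ] ℂ where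
  toFun x := a ⬝ᵥ x
  map_add' x y := dotProduct_add _ _ _
  map_smul' c x := by simp [dotProduct_smul]

@[simp] theorem dotL_apply {m : ℕ} (a x : Fin m → ℂ) : dotL a x = a ⬝ᵥ x := rfl

/-- if a product of linear forms vanishes on a subspace then one of them does -/
theorem exists_vanish_of_prod {m d : ℕ} (K : Submodule ℂ (Fin m → ℂ)) (ℓ : Fin d → (Fin m → ℂ))
    (h : ∀ x ∈ K, ∏ j, (ℓ j ⬝ᵥ x) = 0) : ∃ j, ∀ x ∈ K, ℓ j ⬝ᵥ x = 0 := by
  have hc : ⋃ j, (((LinearMap.ker (dotL (ℓ j))).comap K.subtype : Submodule ℂ K) : Set K)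
      = Set.univ := by
    rw [Set.eq_univ_iff_forall]
    intro x
    obtain ⟨j, -, hj⟩ := Finset.prod_eq_zero_iff.mp (h x x.2)
    refine Set.mem_iUnion.mpr ⟨j, ?_⟩
    simpa using hj
  obtain ⟨j, hj⟩ := Subspace.exists_eq_top_of_iUnion_eq_univ hc
  refine ⟨j, fun x hx => ?_⟩
  have : (⟨x, hx⟩ : K) ∈ (LinearMap.ker (dotL (ℓ j))).comap K.subtype := by
    rw [hj]; trivial
  simpa using this

namespace IsPencilArr

variable {m k d : ℕ} {ℓ : Fin k → Fin d → (Fin m → ℂ)}

theorem d_pos (h : IsPencilArr k d ℓ) : 0 < d := by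
  rcases Nat.eq_zero_or_pos d with hd | hd
  · exfalso
    subst hd
    have h1 : (fun i => blockPoly (ℓ i)) = fun _ => (1 : MvPolynomial (Fin m) ℂ) := by
      funext i; simp [blockPoly]
    have h2 := h.pencil
    rw [h1] at h2
    have h3 : Set.range (fun _ : Fin k => (1 : MvPolynomial (Fin m) ℂ)) ⊆ {1} := by
      rintro _ ⟨_, rfl⟩; simp
    have h4 := finrank_span_le_card (R := ℂ)
      ({1} : Set (MvPolynomial (Fin m) ℂ))
    have h5 := Submodule.finrank_mono (R := ℂ) (Submodule.span_mono (R := ℂ) h3)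
    simp at h4
    omega
  · exact hd

theorem ne_zero (h : IsPencilArr k d ℓ) (i : Fin k) (a : Fin d) : ℓ i a ≠ 0 := by
  have hk := h.three_le
  have : Nontrivial (Fin k) := Fin.nontrivial_iff_two_le.mpr (by omega)
  obtain ⟨j, hj⟩ := exists_ne i
  have h1 := h.distinct (i, a) (j, a) (by
    intro h2
    simp only [Prod.mk.injEq, and_true] at h2
    exact hj h2.symm)
  exact h1.ne_zero 0

theorem blockPoly_ne_zero (h : IsPencilArr k d ℓ) (i : Fin k) : blockPoly (ℓ i) ≠ 0 := by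
  unfold blockPoly
  rw [Finset.prod_ne_zero_iff]
  exact fun j _ => linForm_ne_zero (h.ne_zero i j)

/-- two blocks give independent polynomials -/
theorem indep_blocks (h : IsPencilArr k d ℓ) {i j : Fin k} (hij : i ≠ j) :
    LinearIndependent ℂ ![blockPoly (ℓ i), blockPoly (ℓ j)] := by
  rw [LinearIndependent.pair_iff]
  intro s t hst
  have hgen : ∀ i j : Fin k, i ≠ j → ∀ s t : ℂ, s • blockPoly (ℓ i) + t • blockPoly (ℓ j) = 0 →
      t = 0 := by
    intro i j hij s t hst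
    by_contra ht
    have hd := h.d_pos
    -- on the plane of the first form of block `i` the polynomial of block `j` vanishes
    obtain ⟨b, hb⟩ := exists_vanish_of_prod (LinearMap.ker (dotL (ℓ i ⟨0, hd⟩))) (ℓ j) (by
      intro x hx
      have h1 := congrArg (eval x) hst
      rw [eval_add, smul_eval, smul_eval, eval_blockPoly, eval_blockPoly, map_zero] at h1
      have h2 : ∏ a, (ℓ i a ⬝ᵥ x) = 0 :=
        Finset.prod_eq_zero (Finset.mem_univ ⟨0, hd⟩) (by simpa using hx)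
      rw [h2, mul_zero, zero_add] at h1
      exact (mul_eq_zero.mp h1).resolve_left ht)
    have h3 : ℓ j b ∈ Submodule.span ℂ {ℓ i ⟨0, hd⟩, 0} :=
      mem_span_pair_of_dual (fun x hx _ => hb x (by simpa using hx))
    have h4 := h.distinct (i, ⟨0, hd⟩) (j, b) (by
      intro h2
      simp only [Prod.mk.injEq] at h2
      exact hij h2.1)
    rw [Submodule.mem_span_pair] at h3
    obtain ⟨α, β, hαβ⟩ := h3
    rw [smul_zero, add_zero] at hαβ
    rw [LinearIndependent.pair_iff] at h4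
    have h5 := h4 α (-1) (by simp [hαβ])
    simp at h5
  refine ⟨?_, ?_⟩
  · exact hgen j i hij.symm t s (by rw [add_comm]; exact hst)
  · exact hgen i j hij s t hst

/-- the third polynomial is a combination of the two others -/
theorem exists_comb (h : IsPencilArr k d ℓ) {i j : Fin k} (hij : i ≠ j) (l : Fin k) :
    ∃ α β : ℂ, blockPoly (ℓ l) = α • blockPoly (ℓ i) + β • blockPoly (ℓ j) := by
  have h1 := h.indep_blocks hij
  have h2 : Submodule.span ℂ (Set.range ![blockPoly (ℓ i), blockPoly (ℓ j)])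
      = Submodule.span ℂ (Set.range fun i => blockPoly (ℓ i)) := by
    have : FiniteDimensional ℂ (Submodule.span ℂ (Set.range fun i => blockPoly (ℓ i))) :=
      FiniteDimensional.span_of_finite ℂ (Set.finite_range _)
    refine Submodule.eq_of_le_of_finrank_eq ?_ ?_
    · rw [Submodule.span_le]
      rintro _ ⟨x, rfl⟩
      fin_cases x
      · exact Submodule.subset_span ⟨i, rfl⟩
      · exact Submodule.subset_span ⟨j, rfl⟩
    · rw [h.pencil, finrank_span_eq_card h1]
      simp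
  have h3 : blockPoly (ℓ l) ∈ Submodule.span ℂ (Set.range ![blockPoly (ℓ i), blockPoly (ℓ j)]) := by
    rw [h2]
    exact Submodule.subset_span ⟨l, rfl⟩
  rw [Matrix.range_cons, Matrix.range_cons, Matrix.range_empty, Set.union_empty,
    Set.singleton_union, Submodule.mem_span_pair] at h3
  obtain ⟨α, β, hαβ⟩ := h3
  exact ⟨α, β, hαβ.symm⟩

/-- **Existence of the third plane.** -/
theorem exists_third (h : IsPencilArr k d ℓ) {i j : Fin k} (hij : i ≠ j) (l : Fin k)
    (a b : Fin d) : ∃ c, ℓ l c ∈ Submodule.span ℂ {ℓ i a, ℓ j b} := by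
  obtain ⟨α, β, hαβ⟩ := h.exists_comb hij l
  obtain ⟨c, hc⟩ := exists_vanish_of_prod
    (LinearMap.ker (dotL (ℓ i a)) ⊓ LinearMap.ker (dotL (ℓ j b))) (ℓ l) (by
      rintro x ⟨hx1, hx2⟩
      rw [← eval_blockPoly, hαβ, eval_add, smul_eval, smul_eval, eval_blockPoly, eval_blockPoly,
        Finset.prod_eq_zero (Finset.mem_univ a) (by simpa using hx1),
        Finset.prod_eq_zero (Finset.mem_univ b) (by simpa using hx2)]
      simp)
  refine ⟨c, mem_span_pair_of_dual fun x hx1 hx2 => hc x ⟨?_, ?_⟩⟩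
  · simpa using hx1
  · simpa using hx2

end IsPencilArr

/-- the gradient of a product of linear forms vanishes at a zero of two factors -/
theorem grad_eq_zero {m d : ℕ} (ℓ : Fin d → (Fin m → ℂ)) (y : Fin m → ℂ) {c c' : Fin d}
    (hcc : c ≠ c') (hc : ℓ c ⬝ᵥ y = 0) (hc' : ℓ c' ⬝ᵥ y = 0) : grad (blockPoly ℓ) y = 0 := by
  classical
  funext i
  unfold grad blockPoly
  rw [Pi.zero_apply, ← Finset.mul_prod_erase _ _ (Finset.mem_univ c),
    ← Finset.mul_prod_erase _ _ (Finset.mem_erase.mpr ⟨hcc.symm, Finset.mem_univ c'⟩),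
    Derivation.leibniz, Derivation.leibniz]
  simp only [smul_eq_mul, map_add, map_mul, eval_linForm, hc, hc']
  ring

/-- the dot product with a pulled back form -/
theorem pullback_dotProduct (φ : (Fin 3 → ℂ) →ₗ[ℂ] (Fin 4 → ℂ)) (a : Fin 4 → ℂ)
    (y : Fin 3 → ℂ) : pullback φ a ⬝ᵥ y = a ⬝ᵥ φ y := by
  have h1 : y = ∑ i, y i • (Pi.single i (1:ℂ) : Fin 3 → ℂ) := by
    funext j
    simp [Finset.sum_apply, Pi.single_apply]
  conv_rhs => rw [h1, map_sum]
  rw [dotProduct_sum]
  show ∑ i, pullback φ a i * y i = _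
  refine Finset.sum_congr rfl fun i _ => ?_
  rw [map_smul, dotProduct_smul, smul_eq_mul, mul_comm]
  rfl

/-- there is a parametrised plane section which is a net in the plane -/
theorem IsNetP3.exists_section {k d : ℕ} {ℓ : Fin k → Fin d → (Fin 4 → ℂ)}
    (h : IsNetP3 k d ℓ) : ∃ (g : Fin 4 → ℂ) (φ : (Fin 3 → ℂ) →ₗ[ℂ] (Fin 4 → ℂ)), g ≠ 0 ∧
      Function.Injective φ ∧ (∀ x, x ∈ LinearMap.range φ ↔ g ⬝ᵥ x = 0) ∧
      IsNetP2 k d (fun i j => pullback φ (ℓ i j)) := by
  obtain ⟨G, hG0, hG⟩ := h.generic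
  have h1 : G * X 0 ≠ 0 := mul_ne_zero hG0 (X_ne_zero _)
  obtain ⟨g, hg⟩ : ∃ g : Fin 4 → ℂ, eval g (G * X 0) ≠ 0 := by
    by_contra hcon
    push Not at hcon
    apply h1
    exact MvPolynomial.funext (fun x => by rw [hcon x, map_zero])
  rw [map_mul, eval_X] at hg
  have hgG : eval g G ≠ 0 := left_ne_zero_of_mul hg
  have hg0 : g ≠ 0 := by
    intro h0
    apply right_ne_zero_of_mul hg
    rw [h0]; rfl
  -- a parametrisation of the plane
  have hker : Module.finrank ℂ (LinearMap.ker (dotL g)) = 3 := by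
    have h2 := LinearMap.finrank_range_add_finrank_ker (dotL g)
    have h3 : LinearMap.range (dotL g) = ⊤ := by
      rw [LinearMap.range_eq_top]
      apply LinearMap.surjective
      intro h0
      apply hg0
      funext i
      have := congrArg (fun f => f (Pi.single i 1)) h0
      simpa using this
    rw [h3] at h2
    simp at h2
    omega
  have e : (Fin 3 → ℂ) ≃ₗ[ℂ] LinearMap.ker (dotL g) :=
    LinearEquiv.ofFinrankEq _ _ (by rw [hker]; simp)
  let φ : (Fin 3 → ℂ) →ₗ[ℂ] (Fin 4 → ℂ) := (LinearMap.ker (dotL g)).subtype ∘ₗ e.toLinearMap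
  have hφinj : Function.Injective φ := Subtype.val_injective.comp e.injective
  have hφrange : ∀ x, x ∈ LinearMap.range φ ↔ g ⬝ᵥ x = 0 := by
    intro x
    constructor
    · rintro ⟨y, rfl⟩
      exact (e y).2
    · intro hx
      refine ⟨e.symm ⟨x, hx⟩, ?_⟩
      show ((e (e.symm ⟨x, hx⟩) : LinearMap.ker (dotL g)) : Fin 4 → ℂ) = x
      rw [LinearEquiv.apply_symm_apply]
  exact ⟨g, φ, hg0, hφinj, hφrange, hG g hgG φ hφinj hφrange⟩

/-- **Uniqueness of the third plane.** -/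
theorem IsNetP3.third_unique {k d : ℕ} {ℓ : Fin k → Fin d → (Fin 4 → ℂ)}
    (h : IsNetP3 k d ℓ) {i j l : Fin k} (hil : i ≠ l) {a b c c' : Fin d}
    (hc : ℓ l c ∈ Submodule.span ℂ {ℓ i a, ℓ j b})
    (hc' : ℓ l c' ∈ Submodule.span ℂ {ℓ i a, ℓ j b}) : c = c' := by
  by_contra hcc
  obtain ⟨g, φ, hg0, hφinj, hφrange, hnet⟩ := h.exists_section
  -- a common zero on the plane
  obtain ⟨y, hy0, hya, hyb⟩ : ∃ y : Fin 3 → ℂ, y ≠ 0 ∧ ℓ i a ⬝ᵥ φ y = 0 ∧ ℓ j b ⬝ᵥ φ y = 0 := by
    let F : (Fin 3 → ℂ) →ₗ[ℂ] (Fin 2 → ℂ) :=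
      LinearMap.pi ![dotL (ℓ i a) ∘ₗ φ, dotL (ℓ j b) ∘ₗ φ]
    obtain ⟨y, hy, hy0⟩ : ∃ y ∈ LinearMap.ker F, y ≠ 0 := by
      apply Submodule.exists_mem_ne_zero_of_ne_bot
      apply LinearMap.ker_ne_bot_of_finrank_lt
      simp
    refine ⟨y, hy0, ?_, ?_⟩
    · have := congrFun (LinearMap.mem_ker.mp hy) 0
      simpa [F] using this
    · have := congrFun (LinearMap.mem_ker.mp hy) 1
      simpa [F] using this
  have hvan : ∀ v ∈ Submodule.span ℂ {ℓ i a, ℓ j b}, v ⬝ᵥ φ y = 0 := by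
    intro v hv
    rw [Submodule.mem_span_pair] at hv
    obtain ⟨s, t, rfl⟩ := hv
    rw [add_dotProduct, smul_dotProduct, smul_dotProduct, hya, hyb]
    simp
  have h1 : grad (blockPoly (fun c => pullback φ (ℓ l c))) y = 0 := by
    apply grad_eq_zero _ y hcc
    · rw [pullback_dotProduct]; exact hvan _ hc
    · rw [pullback_dotProduct]; exact hvan _ hc'
  have h2 : eval y (blockPoly (fun a => pullback φ (ℓ i a))) = 0 := by
    rw [eval_blockPoly]
    exact Finset.prod_eq_zero (Finset.mem_univ a) (by rw [pullback_dotProduct]; exact hya)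
  have h3 : eval y (blockPoly (fun a => pullback φ (ℓ l a))) = 0 := by
    rw [eval_blockPoly]
    exact Finset.prod_eq_zero (Finset.mem_univ c) (by rw [pullback_dotProduct]; exact hvan _ hc)
  have h4 := hnet.transversal i l hil y hy0 h2 h3
  have h5 := h4.ne_zero 1
  apply h5
  simpa using h1

end Pool.Agent.H67.NetP3
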