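import Mathlib

/-!
# Tight nets in `ℂ⁴`

The data obtained from a `(3, N)`-net in dual projective space after the scaling step and the
equality case of the key inequality.
-/

open scoped ComplexInnerProductSpace

namespace Pool.Agent.H67

/-- the vectors of the three classes of a tight net -/
structure TightNet (N : ℕ) {T : Type} (idx : T → Fin 3 → Fin N)
    (z : Fin 3 → Fin N → EuclideanSpace ℂ (Fin 4)) : Prop where
  /-- two points of different classes lie on exactly one line -/
  bij : ∀ i j, i ≠ j → Function.Bijective (fun t => (idx t i, idx t j))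
  /-- every vector has square norm two -/
  norm_sq : ∀ i a, ‖z i a‖ ^ 2 = 2
  /-- inner products of vectors of different classes are unimodular -/
  cross : ∀ i j a b, i ≠ j → ‖inner ℂ (z i a) (z j b)‖ = 1
  /-- every class is a tight frame -/
  frame : ∀ i x y, ∑ a, inner ℂ x (z i a) * inner ℂ (z i a) y = ((N : ℂ) / 2) * inner ℂ x y
  /-- the three points of a line are linearly dependent -/
  line : ∀ t i j l, i ≠ j → i ≠ l → j ≠ l →
    z l (idx t l) ∈ Submodule.span ℂ {z i (idx t i), z j (idx t j)}
  /-- different points of one class are independent -/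
  indep : ∀ i a a', a ≠ a' → LinearIndependent ℂ ![z i a, z i a']

/-- `v` is a multiple of `p - ζ q` with `ζ` an `n`-th root of unity -/
def OnPencil (n : ℕ) (p q v : EuclideanSpace ℂ (Fin 4)) : Prop :=
  ∃ c ζ : ℂ, c ≠ 0 ∧ ζ ^ n = 1 ∧ v = c • (p - ζ • q)

end Pool.Agent.H67
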