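import Mathlib
import Pool.Agent.H67.NetTight

/-!
# Classification of tight nets, first part
-/

open ComplexConjugate

namespace Pool.Agent.H67

/-- the unitary reflection of a vector of square norm two -/
noncomputable def refl (a v : EuclideanSpace ℂ (Fin 4)) : EuclideanSpace ℂ (Fin 4) :=
  v - inner ℂ a v • a

theorem inner_refl_refl {a : EuclideanSpace ℂ (Fin 4)} (ha : inner ℂ a a = (2:ℂ))
    (v w : EuclideanSpace ℂ (Fin 4)) : inner ℂ (refl a v) (refl a w) = inner ℂ v w := by
  unfold refl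
  rw [inner_sub_left, inner_sub_right, inner_sub_right, inner_smul_left, inner_smul_right,
    inner_smul_left, inner_smul_right, ha, inner_conj_symm]
  ring

/-- **Lemma U.** -/
theorem lemU {p q x : EuclideanSpace ℂ (Fin 4)} (hp : inner ℂ p p = (2:ℂ))
    (hq : inner ℂ q q = (2:ℂ)) (hx : inner ℂ x x = (2:ℂ)) (hpq : ‖inner ℂ p q‖ = 1)
    (hpx : ‖inner ℂ p x‖ = 1) (hqx : ‖inner ℂ q x‖ = 1) (hs : x ∈ Submodule.span ℂ {p, q}) :
    ∃ u : ℂ, ‖u‖ = 1 ∧ x = u • refl p q := by
  rw [Submodule.mem_span_pair] at hs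
  obtain ⟨α, β, rfl⟩ := hs
  set g := inner ℂ p q with hg
  have hqp : inner ℂ q p = conj g := (inner_conj_symm q p).symm
  have e1 : inner ℂ p (α • p + β • q) = 2 * α + β * g := by
    rw [inner_add_right, inner_smul_right, inner_smul_right, hp, ← hg]; ring
  have e2 : inner ℂ q (α • p + β • q) = α * conj g + 2 * β := by
    rw [inner_add_right, inner_smul_right, inner_smul_right, hq, hqp]; ring
  have e3 : inner ℂ (α • p + β • q) (α • p + β • q)
      = conj α * (2 * α + β * g) + conj β * (α * conj g + 2 * β) := by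
    rw [inner_add_left, inner_smul_left, inner_smul_left, e1, e2]
  rw [e1] at hpx
  rw [e2] at hqx
  rw [e3] at hx
  have g1 : g.re ^ 2 + g.im ^ 2 = 1 := by
    have : Complex.normSq g = 1 := by rw [Complex.normSq_eq_norm_sq, hpq]; norm_num
    rw [Complex.normSq_apply] at this; linarith
  have p1 : Complex.normSq (2 * α + β * g) = 1 := by
    rw [Complex.normSq_eq_norm_sq, hpx]; norm_num
  have p2 : Complex.normSq (α * conj g + 2 * β) = 1 := by
    rw [Complex.normSq_eq_norm_sq, hqx]; norm_num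
  set m := conj α * β * g with hm
  have p1' : 4 * Complex.normSq α + 4 * m.re + Complex.normSq β * Complex.normSq g = 1 := by
    rw [← p1, hm]
    simp only [Complex.normSq_apply, Complex.mul_re, Complex.mul_im, Complex.add_re,
      Complex.add_im, Complex.conj_re, Complex.conj_im, Complex.re_ofNat, Complex.im_ofNat]
    ring
  have p2' : Complex.normSq α * Complex.normSq g + 4 * m.re + 4 * Complex.normSq β = 1 := by
    rw [← p2, hm]
    simp only [Complex.normSq_apply, Complex.mul_re, Complex.mul_im, Complex.add_re,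
      Complex.add_im, Complex.conj_re, Complex.conj_im, Complex.re_ofNat, Complex.im_ofNat]
    ring
  have p3' : 2 * Complex.normSq α + 2 * Complex.normSq β + 2 * m.re = 2 := by
    have := congrArg Complex.re hx
    rw [hm]
    simp only [Complex.normSq_apply, Complex.mul_re, Complex.mul_im, Complex.add_re,
      Complex.add_im, Complex.conj_re, Complex.conj_im, Complex.re_ofNat, Complex.im_ofNat] at this ⊢
    linarith
  have hg2 : Complex.normSq g = 1 := by rw [Complex.normSq_apply]; linarith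
  rw [hg2] at p1' p2'
  have hα : Complex.normSq α = 1 := by linarith
  have hβ : Complex.normSq β = 1 := by linarith
  have hmre : m.re = -1 := by linarith
  have hmn : Complex.normSq m = 1 := by
    rw [hm, Complex.normSq_mul, Complex.normSq_mul, Complex.normSq_conj, hα, hβ, hg2]; norm_num
  have hmim : m.im = 0 := by
    rw [Complex.normSq_apply, hmre] at hmn
    nlinarith
  have hm1 : m = -1 := by
    apply Complex.ext
    · rw [hmre]; simp
    · rw [hmim]; simp
  have hαα : α * conj α = 1 := by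
    rw [Complex.mul_conj, hα]; simp
  have hβg : β * g = -α := by
    calc β * g = (α * conj α) * (β * g) := by rw [hαα, one_mul]
      _ = α * m := by rw [hm]; ring
      _ = -α := by rw [hm1]; ring
  refine ⟨β, ?_, ?_⟩
  · have : ‖β‖ ^ 2 = 1 := by rw [← Complex.normSq_eq_norm_sq, hβ]
    have h0 := norm_nonneg β
    nlinarith [sq_nonneg (‖β‖ - 1), sq_nonneg (‖β‖ + 1)]
  · unfold refl
    rw [← hg, smul_sub, smul_smul, hβg]
    module

variable {N : ℕ} {T : Type} {idx : T → Fin 3 → Fin N}
  {z : Fin 3 → Fin N → EuclideanSpace ℂ (Fin 4)}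

theorem TightNet.inner_self (h : TightNet N idx z) (i : Fin 3) (a : Fin N) :
    inner ℂ (z i a) (z i a) = (2:ℂ) := by
  rw [inner_self_eq_norm_sq_to_K]
  have := h.norm_sq i a
  have e : ((‖z i a‖ : ℂ)) ^ 2 = ((‖z i a‖ ^ 2 : ℝ) : ℂ) := by push_cast; rfl
  change ((‖z i a‖ : ℂ)) ^ 2 = 2
  rw [e, this]
  norm_num

theorem TightNet.exists_third (h : TightNet N idx z) {i j l : Fin 3} (hij : i ≠ j) (hil : i ≠ l)
    (hjl : j ≠ l) (a b : Fin N) :
    ∃ t, idx t i = a ∧ idx t j = b ∧ ∃ u : ℂ, ‖u‖ = 1 ∧ z l (idx t l) = u • refl (z i a) (z j b) := by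
  obtain ⟨t, ht⟩ := (h.bij i j hij).2 (a, b)
  simp only [Prod.mk.injEq] at ht
  obtain ⟨rfl, rfl⟩ := ht
  refine ⟨t, rfl, rfl, ?_⟩
  exact lemU (h.inner_self _ _) (h.inner_self _ _) (h.inner_self _ _) (h.cross _ _ _ _ hij)
    (h.cross _ _ _ _ hil) (h.cross _ _ _ _ hjl) (h.line t i j l hij hil hjl)

theorem exists_third_index (i : Fin 3) : ∃ j l : Fin 3, i ≠ j ∧ i ≠ l ∧ j ≠ l := by
  fin_cases i
  · exact ⟨1, 2, by decide, by decide, by decide⟩
  · exact ⟨0, 2, by decide, by decide, by decide⟩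
  · exact ⟨0, 1, by decide, by decide, by decide⟩

theorem conj_mul_of_norm_one {u : ℂ} (hu : ‖u‖ = 1) : conj u * u = 1 := by
  rw [Complex.conj_mul', hu]; norm_num

theorem mul_conj_of_norm_one {u : ℂ} (hu : ‖u‖ = 1) : u * conj u = 1 := by
  rw [Complex.mul_conj', hu]; norm_num

theorem refl_smul_sub (a : EuclideanSpace ℂ (Fin 4)) (u c : ℂ) (v w : EuclideanSpace ℂ (Fin 4)) :
    refl a (u • (v - c • w)) = u • (refl a v - c • refl a w) := by
  unfold refl
  rw [inner_smul_right, inner_sub_right, inner_smul_right]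
  module

/-- **Closure.** Every class is closed under the reflections of its elements. -/
theorem TightNet.closure (h : TightNet N idx z) (i : Fin 3) (a a' : Fin N) :
    ∃ a'' : Fin N, ∃ u : ℂ, ‖u‖ = 1 ∧ z i a'' = u • refl (z i a) (z i a') := by
  obtain ⟨j, l, hij, hil, hjl⟩ := exists_third_index i
  -- the line through `a'` and a point `b`
  obtain ⟨t, ht1, ht2, -⟩ := h.exists_third hij hil hjl a' a
  set b := a with hb
  set c := idx t l with hc
  obtain ⟨t1, -, -, u1, hu1, h1⟩ := h.exists_third hij hil hjl a b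
  obtain ⟨t2, -, -, u2, hu2, h2⟩ := h.exists_third hil hij hjl.symm a c
  obtain ⟨t3, -, -, u3, hu3, h3⟩ := h.exists_third hjl hij.symm hil.symm (idx t2 j) (idx t1 l)
  -- the point `a'` on the line through `b` and `c`
  obtain ⟨u4, hu4, h4⟩ := lemU (h.inner_self j b) (h.inner_self l c) (h.inner_self i a')
    (h.cross _ _ _ _ hjl) (h.cross _ _ _ _ hij.symm) (h.cross _ _ _ _ hil.symm)
    (by
      have := h.line t j l i hjl hij.symm hil.symm
      rw [ht1, ht2] at this
      exact this)
  set B := refl (z i a) (z j b) with hB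
  set C := refl (z i a) (z l c) with hC
  set g := inner ℂ (z j b) (z l c) with hg
  have hgn : ‖g‖ = 1 := h.cross _ _ _ _ hjl
  have hinner : inner ℂ (z j (idx t2 j)) (z l (idx t1 l)) = conj u2 * u1 * conj g := by
    rw [h1, h2, inner_smul_left, inner_smul_right, hB, hC, inner_refl_refl (h.inner_self i a),
      ← inner_conj_symm (z l c) (z j b), ← hg]
    ring
  have e1 : z i (idx t3 i) = (u3 * u1) • (B - conj g • C) := by
    rw [h3]
    unfold refl
    rw [hinner, h1, h2]
    have := conj_mul_of_norm_one hu2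
    have e5 : conj u2 * u1 * conj g * u2 = u1 * conj g := by
      linear_combination u1 * conj g * this
    rw [smul_smul (conj u2 * u1 * conj g) u2 C, e5]
    module
  have e2 : refl (z i a) (z i a') = u4 • (C - g • B) := by
    rw [h4]
    conv_lhs => rw [show refl (z j b) (z l c) = z l c - g • z j b from rfl]
    rw [refl_smul_sub]
  have e3 : refl (z i a) (z i a') = (-(u4 * g)) • (B - conj g • C) := by
    rw [e2, smul_sub, smul_sub, smul_smul, smul_smul]
    have := mul_conj_of_norm_one hgn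
    have e4 : -(u4 * g) * conj g = - u4 := by linear_combination (-u4) * this
    rw [e4]
    module
  have hne : -(u4 * g) ≠ 0 := by
    apply neg_ne_zero.mpr
    apply mul_ne_zero
    · intro h0; rw [h0] at hu4; simp at hu4
    · intro h0; rw [h0] at hgn; simp at hgn
  refine ⟨idx t3 i, u3 * u1 * (-(u4 * g))⁻¹, ?_, ?_⟩
  · rw [norm_mul, norm_mul, norm_inv, norm_neg, norm_mul, hu1, hu3, hu4, hgn]; norm_num
  · rw [e1, e3, smul_smul, mul_assoc, inv_mul_cancel₀ hne, mul_one]

/-- **Lemma 1**, norms. -/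
theorem TightNet.zb_norm (h : TightNet N idx z) {i j : Fin 3} (hij : i ≠ j) (a a' b : Fin N) :
    ‖inner ℂ (z i a) (z j b) * inner ℂ (z j b) (z i a')‖ = 1 ∧
    ‖inner ℂ (z i a) (z i a') - inner ℂ (z i a) (z j b) * inner ℂ (z j b) (z i a')‖ = 1 := by
  constructor
  · rw [norm_mul, h.cross _ _ _ _ hij, h.cross _ _ _ _ hij.symm]; norm_num
  · obtain ⟨l, hil, hjl⟩ : ∃ l : Fin 3, i ≠ l ∧ j ≠ l := by
      revert i j; decide
    obtain ⟨t, -, -, u, hu, h1⟩ := h.exists_third hij hil hjl a b
    have h2 := h.cross l i (idx t l) a' hil.symm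
    rw [h1, inner_smul_left, norm_mul, RCLike.norm_conj, hu, one_mul] at h2
    unfold refl at h2
    rw [inner_sub_left, inner_smul_left] at h2
    have h3 : inner ℂ (z i a) (z i a') - inner ℂ (z i a) (z j b) * inner ℂ (z j b) (z i a')
        = - (inner ℂ (z i a) (z j b)) * (inner ℂ (z j b) (z i a')
          - conj (inner ℂ (z i a) (z j b)) * inner ℂ (z i a) (z i a')) := by
      have := mul_conj_of_norm_one (h.cross i j a b hij)
      linear_combination (-(inner ℂ (z i a) (z i a'))) * this
    rw [h3, norm_mul, norm_neg, h.cross _ _ _ _ hij, one_mul]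
    exact h2

/-- strict Cauchy-Schwarz inside of a class -/
theorem TightNet.norm_inner_lt (h : TightNet N idx z) (i : Fin 3) {a a' : Fin N} (haa : a ≠ a') :
    ‖inner ℂ (z i a) (z i a')‖ < 2 := by
  have h1 : ‖inner ℂ (z i a) (z i a')‖ ≤ ‖z i a‖ * ‖z i a'‖ := norm_inner_le_norm _ _
  have hn : ‖z i a‖ * ‖z i a'‖ = 2 := by
    have e1 := h.norm_sq i a
    have e2 := h.norm_sq i a'
    have e3 : ‖z i a‖ = Real.sqrt 2 := by
      rw [← e1, Real.sqrt_sq (norm_nonneg _)]
    have e4 : ‖z i a'‖ = Real.sqrt 2 := by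
      rw [← e2, Real.sqrt_sq (norm_nonneg _)]
    rw [e3, e4, Real.mul_self_sqrt (by norm_num)]
  refine lt_of_le_of_ne (by rw [← hn]; exact h1) ?_
  intro heq
  rw [← hn] at heq
  have ha0 : z i a ≠ 0 := (h.indep i a a' haa).ne_zero 0
  have ha0' : z i a' ≠ 0 := (h.indep i a a' haa).ne_zero 1
  obtain ⟨r, hr0, hr⟩ := (norm_inner_eq_norm_iff ha0 ha0').mp heq
  have h2 := h.indep i a a' haa
  rw [LinearIndependent.pair_iff] at h2
  have := h2 r (-1) (by rw [hr]; module)
  simp at this

end Pool.Agent.H67
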