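import Mathlib
import Pool.Agent.H67.NetC1

/-!
# Classification of tight nets, second part
-/

open ComplexConjugate Finset

namespace Pool.Agent.H67

variable {N : ℕ} {T : Type} {idx : T → Fin 3 → Fin N}
  {z : Fin 3 → Fin N → EuclideanSpace ℂ (Fin 4)}

/-- a number on the two unit circles around `0` and `γ` is a root of a quadratic equation -/
theorem circle_quadratic {γ z : ℂ} (hz : ‖z‖ = 1) (hγ : ‖γ - z‖ = 1) :
    conj γ * z ^ 2 - γ * conj γ * z + γ = 0 := by
  have h1 := mul_conj_of_norm_one hz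
  have h2 := mul_conj_of_norm_one hγ
  rw [map_sub] at h2
  linear_combination (z - γ) * h1 - z * h2

theorem circle_two {γ z w : ℂ} (h0 : γ ≠ 0) (hz : ‖z‖ = 1) (hγz : ‖γ - z‖ = 1) (hw : ‖w‖ = 1)
    (hγw : ‖γ - w‖ = 1) : w = z ∨ w = γ - z := by
  have h1 := circle_quadratic hz hγz
  have h2 := circle_quadratic hw hγw
  have h3 : conj γ * ((w - z) * (w - (γ - z))) = 0 := by
    linear_combination h2 - h1
  have h4 : conj γ ≠ 0 := by simpa using h0
  rcases mul_eq_zero.mp ((mul_eq_zero.mp h3).resolve_left h4) with h5 | h5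
  · left; linear_combination h5
  · right; linear_combination h5

/-- **Lemma 1**, sign form. -/
theorem TightNet.sign_form (h : TightNet N idx z) {i j : Fin 3} (hij : i ≠ j) {a a' : Fin N}
    (haa : a ≠ a') (hγ : inner ℂ (z i a) (z i a') ≠ 0) :
    ∃ (δ : ℂ) (σ : Fin N → ℝ), δ ≠ 0 ∧ (∀ b, σ b = 1 ∨ σ b = -1) ∧ ∑ b, σ b = 0 ∧
      ∀ b, inner ℂ (z i a) (z j b) * inner ℂ (z j b) (z i a')
        = inner ℂ (z i a) (z i a') / 2 + σ b * δ := by
  classical
  set γ := inner ℂ (z i a) (z i a') with hγdef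
  set Z : Fin N → ℂ := fun b => inner ℂ (z i a) (z j b) * inner ℂ (z j b) (z i a') with hZ
  have hZn : ∀ b, ‖Z b‖ = 1 ∧ ‖γ - Z b‖ = 1 := fun b => h.zb_norm hij a a' b
  set e := Z a with he
  have hlt := h.norm_inner_lt i haa
  rw [← hγdef] at hlt
  have hδ : e - γ / 2 ≠ 0 := by
    intro h0
    have h1 : γ = 2 * e := by linear_combination (-2) * h0
    rw [h1, norm_mul, (hZn a).1] at hlt
    simp at hlt
  refine ⟨e - γ / 2, fun b => if Z b = e then 1 else -1, hδ, ?_, ?_, ?_⟩
  · intro b
    by_cases hb : Z b = e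
    · left; simp [hb]
    · right; simp [hb]
  · have hval : ∀ b, Z b = γ / 2 + ((if Z b = e then (1:ℝ) else -1 : ℝ) : ℂ) * (e - γ / 2) := by
      intro b
      by_cases hb : Z b = e
      · rw [if_pos hb, hb]; push_cast; ring
      · rw [if_neg hb]
        have := (circle_two hγ (hZn a).1 (hZn a).2 (hZn b).1 (hZn b).2).resolve_left hb
        rw [this]
        push_cast; ring
    have hsum : ∑ b, Z b = (N : ℂ) / 2 * γ := h.frame j (z i a) (z i a')
    rw [Finset.sum_congr rfl (fun b _ => hval b), Finset.sum_add_distrib, Finset.sum_const,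
      Finset.card_univ, Fintype.card_fin, ← Finset.sum_mul, nsmul_eq_mul] at hsum
    have h5 : (∑ b, ((if Z b = e then (1:ℝ) else -1 : ℝ) : ℂ)) * (e - γ / 2) = 0 := by
      linear_combination hsum
    have h6 := (mul_eq_zero.mp h5).resolve_right hδ
    rw [← Complex.ofReal_sum] at h6
    exact Complex.ofReal_eq_zero.mp h6
  · intro b
    by_cases hb : Z b = e
    · simp only [if_pos hb]
      rw [show inner ℂ (z i a) (z j b) * inner ℂ (z j b) (z i a') = Z b from rfl, hb]
      push_cast; ring
    · simp only [if_neg hb]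
      have := (circle_two hγ (hZn a).1 (hZn a).2 (hZn b).1 (hZn b).2).resolve_left hb
      rw [show inner ℂ (z i a) (z j b) * inner ℂ (z j b) (z i a') = Z b from rfl, this]
      push_cast; ring

/-- two sign functions with the same sum which differ somewhere differ in both ways -/
theorem sign_lemma {ι : Type} [Fintype ι] (σ τ : ι → ℝ) (hσ : ∀ b, σ b = 1 ∨ σ b = -1)
    (hτ : ∀ b, τ b = 1 ∨ τ b = -1) (hs : ∑ b, σ b = ∑ b, τ b) (hne : ¬ ∀ b, σ b = τ b) :
    ∃ b, σ b = 1 ∧ τ b = -1 := by
  by_contra hcon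
  push Not at hcon
  apply hne
  have hle : ∀ b ∈ (Finset.univ : Finset ι), σ b ≤ τ b := by
    intro b _
    rcases hσ b with h1 | h1 <;> rcases hτ b with h2 | h2
    · rw [h1, h2]
    · exact absurd h2 (hcon b h1)
    · rw [h1, h2]; norm_num
    · rw [h1, h2]
  have := (Finset.sum_eq_sum_iff_of_le hle).mp hs
  exact fun b => this b (Finset.mem_univ b)

/-- **Lemma 2.** Three pairwise non orthogonal vectors of one class are dependent. -/
theorem TightNet.lemma2 (h : TightNet N idx z) (i : Fin 3) {a a' a'' : Fin N}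
    (h1 : a ≠ a') (h2 : a ≠ a'') (h3 : a' ≠ a'') (g1 : inner ℂ (z i a) (z i a') ≠ 0)
    (g2 : inner ℂ (z i a) (z i a'') ≠ 0) (g3 : inner ℂ (z i a') (z i a'') ≠ 0) :
    z i a'' ∈ Submodule.span ℂ {z i a, z i a'} := by
  obtain ⟨j, l, hij, hil, hjl⟩ := exists_third_index i
  have hN : (0:ℝ) < N := by
    have : 0 < N := Fin.pos a
    exact_mod_cast this
  obtain ⟨δ, σ, hδ, hσ, hσs, hZ⟩ := h.sign_form hij h1 g1
  obtain ⟨δ', σ', hδ', hσ', hσs', hZ'⟩ := h.sign_form hij h2 g2
  obtain ⟨δ'', σ'', hδ'', hσ'', hσs'', hY⟩ := h.sign_form hij h3 g3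
  set γ := inner ℂ (z i a) (z i a') with hγ
  set γ' := inner ℂ (z i a) (z i a'') with hγ'
  set γ'' := inner ℂ (z i a') (z i a'') with hγ''
  have hunit : ∀ b, inner ℂ (z i a) (z j b) * inner ℂ (z j b) (z i a) = 1 := by
    intro b
    rw [← inner_conj_symm (z j b) (z i a)]
    exact mul_conj_of_norm_one (h.cross i j a b hij)
  have hprod : ∀ b, γ'' / 2 + σ'' b * δ'' = conj (γ / 2 + σ b * δ) * (γ' / 2 + σ' b * δ') := by
    intro b
    rw [← hY b, ← hZ b, ← hZ' b, map_mul, inner_conj_symm, inner_conj_symm]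
    linear_combination (-(inner ℂ (z i a') (z j b) * inner ℂ (z j b) (z i a''))) * hunit b
  -- the sign functions agree up to a global sign
  have hdich : (∀ b, σ b = σ' b) ∨ (∀ b, σ b = - σ' b) := by
    by_contra hcon
    push Not at hcon
    obtain ⟨⟨x, hx⟩, ⟨y, hy⟩⟩ := hcon
    have hne1 : ¬ ∀ b, σ b = σ' b := fun hh => hx (hh x)
    have hne2 : ¬ ∀ b, σ b = -σ' b := fun hh => hy (hh y)
    have hσn : ∀ b, -σ' b = 1 ∨ -σ' b = -1 := by
      intro b; rcases hσ' b with h | h
      · right; rw [h]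
      · left; rw [h]; norm_num
    obtain ⟨b1, hb1, hb1'⟩ := sign_lemma σ σ' hσ hσ' (by rw [hσs, hσs']) hne1
    obtain ⟨b2, hb2, hb2'⟩ := sign_lemma σ' σ hσ' hσ (by rw [hσs, hσs'])
      (fun hh => hne1 fun b => (hh b).symm)
    obtain ⟨b3, hb3, hb3'⟩ := sign_lemma σ (fun b => -σ' b) hσ hσn
      (by rw [hσs, Finset.sum_neg_distrib, hσs', neg_zero]) hne2
    obtain ⟨b4, hb4, hb4'⟩ := sign_lemma (fun b => -σ' b) σ hσn hσ
      (by rw [hσs, Finset.sum_neg_distrib, hσs', neg_zero]) (fun hh => hne2 fun b => (hh b).symm)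
    have hb3'' : σ' b3 = 1 := by linarith
    have hb4'' : σ' b4 = -1 := by linarith
    have q1 := hprod b1
    have q2 := hprod b2
    have q3 := hprod b3
    have q4 := hprod b4
    rw [hb1, hb1'] at q1
    rw [hb2, hb2'] at q2
    rw [hb3, hb3''] at q3
    rw [hb4', hb4''] at q4
    push_cast at q1 q2 q3 q4
    -- values
    set e1 := γ / 2 + 1 * δ with he1
    set e2 := γ / 2 + -1 * δ with he2
    set f1 := γ' / 2 + 1 * δ' with hf1
    set f2 := γ' / 2 + -1 * δ' with hf2
    have n1 : ‖e1‖ = 1 := by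
      have := (h.zb_norm hij a a' b1).1
      rw [hZ b1, hb1] at this
      push_cast at this
      exact this
    have n2 : ‖e2‖ = 1 := by
      have := (h.zb_norm hij a a' b4).1
      rw [hZ b4, hb4'] at this
      push_cast at this
      exact this
    have m1 : ‖f1‖ = 1 := by
      have := (h.zb_norm hij a a'' b3).1
      rw [hZ' b3, hb3''] at this
      push_cast at this
      exact this
    have m2 : ‖f2‖ = 1 := by
      have := (h.zb_norm hij a a'' b4).1
      rw [hZ' b4, hb4''] at this
      push_cast at this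
      exact this
    have ne1 : conj e1 ≠ 0 := by
      intro h0
      have : e1 = 0 := by simpa using h0
      rw [this] at n1; simp at n1
    have ne2 : conj e2 ≠ 0 := by
      intro h0
      have : e2 = 0 := by simpa using h0
      rw [this] at n2; simp at n2
    have nf1 : f1 ≠ 0 := by
      intro h0
      rw [h0] at m1; simp at m1
    have nf2 : f2 ≠ 0 := by
      intro h0
      rw [h0] at m2; simp at m2
    have hff : f1 ≠ f2 := by
      intro h0
      apply hδ'
      rw [hf1, hf2] at h0
      linear_combination (1/2) * h0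
    have hee : conj e1 ≠ conj e2 := by
      intro h0
      have h5 : e1 = e2 := by
        have := congrArg conj h0
        simpa using this
      apply hδ
      rw [he1, he2] at h5
      linear_combination (1/2) * h5
    have hcase : ∀ x y : Fin N, σ'' x ≠ σ'' y → (σ'' x = - σ'' y) := by
      intro x y hxy
      rcases hσ'' x with h5 | h5 <;> rcases hσ'' y with h6 | h6 <;> rw [h5, h6] at hxy ⊢ <;>
        first | (norm_num; done) | exact absurd rfl hxy
    have s31 : σ'' b3 ≠ σ'' b1 := by
      intro h0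
      rw [h0] at q3
      have : conj e1 * f1 = conj e1 * f2 := by rw [← q3, ← q1]
      exact hff (mul_left_cancel₀ ne1 this)
    have s32 : σ'' b3 ≠ σ'' b2 := by
      intro h0
      rw [h0] at q3
      have : conj e1 * f1 = conj e2 * f1 := by rw [← q3, ← q2]
      exact hee (mul_right_cancel₀ nf1 this)
    have s41 : σ'' b4 ≠ σ'' b1 := by
      intro h0
      rw [h0] at q4
      have : conj e2 * f2 = conj e1 * f2 := by rw [← q4, ← q1]
      exact hee (mul_right_cancel₀ nf2 this).symm
    have t1 : σ'' b1 = σ'' b2 := by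
      have := hcase b3 b1 s31
      have := hcase b3 b2 s32
      linarith
    have t2 : σ'' b3 = σ'' b4 := by
      have := hcase b3 b1 s31
      have := hcase b4 b1 s41
      linarith
    rw [t1] at q1
    rw [t2] at q3
    have I1 : conj e1 * f2 = conj e2 * f1 := by rw [← q1, ← q2]
    have I2 : conj e1 * f1 = conj e2 * f2 := by rw [← q3, ← q4]
    have I3 : conj e2 * ((f2 - f1) * (f2 + f1)) = 0 := by
      linear_combination f1 * I1 - f2 * I2
    rcases mul_eq_zero.mp ((mul_eq_zero.mp I3).resolve_left ne2) with h5 | h5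
    · exact hff (by linear_combination -h5)
    · apply g2
      rw [hf1, hf2] at h5
      linear_combination h5
  -- linear relation between the products
  obtain ⟨lam, mu, hlm⟩ : ∃ lam mu : ℂ, ∀ b, γ' / 2 + σ' b * δ' = lam * (γ / 2 + σ b * δ) + mu := by
    rcases hdich with hd | hd
    · refine ⟨δ' / δ, γ' / 2 - δ' / δ * (γ / 2), fun b => ?_⟩
      rw [hd b]
      field_simp
      ring
    · refine ⟨-(δ' / δ), γ' / 2 + δ' / δ * (γ / 2), fun b => ?_⟩
      rw [hd b]
      push_cast
      field_simp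
      ring
  have hort : ∀ b, inner ℂ (z j b) (z i a'' - lam • z i a' - mu • z i a) = 0 := by
    intro b
    rw [inner_sub_right, inner_sub_right, inner_smul_right, inner_smul_right]
    have e := hlm b
    rw [← hZ b, ← hZ' b] at e
    have hne : inner ℂ (z i a) (z j b) ≠ 0 := by
      intro h0
      have := h.cross i j a b hij
      rw [h0] at this; simp at this
    apply mul_left_cancel₀ hne
    rw [mul_zero]
    linear_combination e - mu * hunit b
  have hv : z i a'' - lam • z i a' - mu • z i a = 0 := by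
    have hf := h.frame j (z i a'' - lam • z i a' - mu • z i a) (z i a'' - lam • z i a' - mu • z i a)
    rw [Finset.sum_eq_zero (fun b _ => by rw [hort b, mul_zero])] at hf
    have hN2 : (N : ℂ) / 2 ≠ 0 := by
      apply div_ne_zero
      · exact_mod_cast hN.ne'
      · norm_num
    exact inner_self_eq_zero.mp ((mul_eq_zero.mp hf.symm).resolve_left hN2)
  rw [Submodule.mem_span_pair]
  refine ⟨mu, lam, ?_⟩
  have : z i a'' = lam • z i a' + mu • z i a := by
    rw [sub_sub, sub_eq_zero] at hv
    exact hv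
  rw [this, add_comm]

end Pool.Agent.H67
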