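import Mathlib
import Pool.Agent.H67.NetC2

/-!
# Classification of tight nets, third part: the two planes
-/

open ComplexConjugate Finset

namespace Pool.Agent.H67

variable {N : ℕ} {T : Type} {idx : T → Fin 3 → Fin N}
  {z : Fin 3 → Fin N → EuclideanSpace ℂ (Fin 4)}

theorem norm_eq_of_unit_smul {u : ℂ} (hu : ‖u‖ = 1) : u ≠ 0 := by
  intro h0; rw [h0] at hu; simp at hu

theorem TightNet.not_smul (h : TightNet N idx z) (i : Fin 3) {a a' : Fin N} (haa : a ≠ a')
    {s t : ℂ} (hst : s • z i a + t • z i a' = 0) : s = 0 ∧ t = 0 :=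
  (LinearIndependent.pair_iff.mp (h.indep i a a' haa)) s t hst

/-- **Lemma 3**, main case. -/
theorem TightNet.lemma3_aux (h : TightNet N idx z) (i : Fin 3) {a a' a'' : Fin N}
    (h1 : a ≠ a') (h2 : a ≠ a'') (g1 : inner ℂ (z i a) (z i a') ≠ 0)
    (g2 : inner ℂ (z i a) (z i a'') ≠ 0) (g3 : inner ℂ (z i a') (z i a'') = 0)
    (g4 : inner ℂ (z i a') (z i a) * inner ℂ (z i a) (z i a') ≠ 2) :
    z i a'' ∈ Submodule.span ℂ {z i a, z i a'} := by
  obtain ⟨p, u, hu, hp⟩ := h.closure i a' a
  have hu0 := norm_eq_of_unit_smul hu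
  have g3' : inner ℂ (z i a'') (z i a') = 0 := by
    rw [← inner_conj_symm, g3]; simp
  have g1' : inner ℂ (z i a') (z i a) ≠ 0 := by
    intro h0; apply g1; rw [← inner_conj_symm, h0]; simp
  have g2' : inner ℂ (z i a'') (z i a) ≠ 0 := by
    intro h0; apply g2; rw [← inner_conj_symm, h0]; simp
  have e1 : inner ℂ (z i a) (z i p)
      = u * (2 - inner ℂ (z i a') (z i a) * inner ℂ (z i a) (z i a')) := by
    rw [hp]; unfold refl
    rw [inner_smul_right, inner_sub_right, inner_smul_right, h.inner_self]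
  have e2 : inner ℂ (z i a'') (z i p) = u * inner ℂ (z i a'') (z i a) := by
    rw [hp]; unfold refl
    rw [inner_smul_right, inner_sub_right, inner_smul_right, g3']
    ring
  have hap : a ≠ p := by
    intro h0
    rw [← h0] at hp
    unfold refl at hp
    have h5 : (1 - u) • z i a + (u * inner ℂ (z i a') (z i a)) • z i a' = 0 := by
      have h6 : z i a - u • (z i a - inner ℂ (z i a') (z i a) • z i a') = 0 := by
        rw [← hp, sub_self]
      rw [← h6]; module
    have := (h.not_smul i h1 h5).2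
    exact mul_ne_zero hu0 g1' this
  have hpa : p ≠ a'' := by
    intro h0
    rw [h0, h.inner_self] at e2
    have h5 := h.norm_inner_lt i h2.symm
    have h6 := congrArg norm e2
    rw [norm_mul, hu, one_mul] at h6
    rw [← h6] at h5
    simp at h5
  have n1 : inner ℂ (z i a) (z i p) ≠ 0 := by
    rw [e1]
    refine mul_ne_zero hu0 ?_
    intro h0
    exact g4 (by linear_combination -h0)
  have n2 : inner ℂ (z i p) (z i a'') ≠ 0 := by
    intro h0
    have h5 : inner ℂ (z i a'') (z i p) = 0 := by rw [← inner_conj_symm, h0]; simp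
    rw [e2] at h5
    exact mul_ne_zero hu0 g2' h5
  have hmem := h.lemma2 i hap h2 hpa n1 g2 n2
  have hle : Submodule.span ℂ {z i a, z i p} ≤ Submodule.span ℂ {z i a, z i a'} := by
    rw [Submodule.span_le]
    rintro x hx
    simp only [Set.mem_insert_iff, Set.mem_singleton_iff] at hx
    rcases hx with rfl | rfl
    · exact Submodule.subset_span (by simp)
    · rw [hp]
      unfold refl
      rw [SetLike.mem_coe, Submodule.mem_span_pair]
      exact ⟨u, -(u * inner ℂ (z i a') (z i a)), by module⟩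
  exact hle hmem

/-- **Lemma 3.** -/
theorem TightNet.lemma3 (h : TightNet N idx z) (i : Fin 3) {a a' a'' : Fin N}
    (h1 : a ≠ a') (g1 : inner ℂ (z i a) (z i a') ≠ 0) (g2 : inner ℂ (z i a) (z i a'') ≠ 0) :
    z i a'' ∈ Submodule.span ℂ {z i a, z i a'} := by
  by_cases h2 : a = a''
  · rw [← h2]; exact Submodule.subset_span (by simp)
  by_cases h3 : a' = a''
  · rw [← h3]; exact Submodule.subset_span (by simp)
  by_cases g3 : inner ℂ (z i a') (z i a'') = 0
  · by_cases g4 : inner ℂ (z i a') (z i a) * inner ℂ (z i a) (z i a') = 2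
    · by_cases g5 : inner ℂ (z i a'') (z i a) * inner ℂ (z i a) (z i a'') = 2
      · -- both products are two: Bessel equality
        have g3' : inner ℂ (z i a'') (z i a') = 0 := by
          rw [← inner_conj_symm, g3]; simp
        have hc1 : conj (inner ℂ (z i a') (z i a)) = inner ℂ (z i a) (z i a') :=
          inner_conj_symm _ _
        have hc2 : conj (inner ℂ (z i a'') (z i a)) = inner ℂ (z i a) (z i a'') :=
          inner_conj_symm _ _
        have hv : z i a - (inner ℂ (z i a') (z i a) / 2) • z i a'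
            - (inner ℂ (z i a'') (z i a) / 2) • z i a'' = 0 := by
          rw [← inner_self_eq_zero (𝕜 := ℂ)]
          simp only [inner_sub_left, inner_sub_right, inner_smul_left, inner_smul_right,
            h.inner_self, g3, g3', map_div₀, map_ofNat, hc1, hc2]
          linear_combination (-1/2) * g4 + (-1/2) * g5
        have g2' : inner ℂ (z i a'') (z i a) ≠ 0 := by
          intro h0; apply g2; rw [← inner_conj_symm, h0]; simp
        rw [Submodule.mem_span_pair]
        refine ⟨2 / inner ℂ (z i a'') (z i a),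
          -(inner ℂ (z i a') (z i a) / inner ℂ (z i a'') (z i a)), ?_⟩
        have h5 : z i a'' = (2 / inner ℂ (z i a'') (z i a)) •
            ((inner ℂ (z i a'') (z i a) / 2) • z i a'') := by
          rw [smul_smul]
          have : 2 / inner ℂ (z i a'') (z i a) * (inner ℂ (z i a'') (z i a) / 2) = 1 := by
            field_simp
          rw [this, one_smul]
        have h6 : (inner ℂ (z i a'') (z i a) / 2) • z i a''
            = z i a - (inner ℂ (z i a') (z i a) / 2) • z i a' := by
          rw [sub_eq_zero] at hv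
          exact hv.symm
        have h8 : 2 / inner ℂ (z i a'') (z i a) * (inner ℂ (z i a') (z i a) / 2)
            = inner ℂ (z i a') (z i a) / inner ℂ (z i a'') (z i a) := by
          field_simp
        rw [h6, smul_sub, smul_smul, h8] at h5
        rw [neg_smul, ← sub_eq_add_neg]
        exact h5.symm
      · -- exchange the roles
        have g3' : inner ℂ (z i a'') (z i a') = 0 := by
          rw [← inner_conj_symm, g3]; simp
        have hm := h.lemma3_aux i h2 h1 g2 g1 g3' g5
        rw [Submodule.mem_span_pair] at hm ⊢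
        obtain ⟨s, t, hst⟩ := hm
        have ht : t ≠ 0 := by
          rintro rfl
          have := h.not_smul i h1 (s := s) (t := -1) (by rw [← hst]; module)
          simp at this
        refine ⟨-(t⁻¹ * s), t⁻¹, ?_⟩
        rw [← hst]
        have h7 : t⁻¹ * t = 1 := inv_mul_cancel₀ ht
        calc (-(t⁻¹ * s)) • z i a + t⁻¹ • (s • z i a + t • z i a'') = (t⁻¹ * t) • z i a'' := by
              module
          _ = z i a'' := by rw [h7, one_smul]
    · exact h.lemma3_aux i h1 h2 g1 g2 g3 g4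
  · exact h.lemma2 i h1 h2 h3 g1 g2 g3

theorem TightNet.sum_sq (h : TightNet N idx z) (i : Fin 3) (a : Fin N) :
    ∑ a', ‖inner ℂ (z i a) (z i a')‖ ^ 2 = N := by
  have h1 := h.frame i (z i a) (z i a)
  rw [h.inner_self] at h1
  have h2 : ((∑ a', ‖inner ℂ (z i a) (z i a')‖ ^ 2 : ℝ) : ℂ) = N := by
    push_cast
    rw [show (N : ℂ) = (N : ℂ) / 2 * 2 by ring, ← h1]
    refine Finset.sum_congr rfl fun a' _ => ?_
    rw [← inner_conj_symm (z i a') (z i a), Complex.mul_conj']
  exact_mod_cast h2

theorem TightNet.self_sq (h : TightNet N idx z) (i : Fin 3) (a : Fin N) :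
    ‖inner ℂ (z i a) (z i a)‖ ^ 2 = 4 := by
  rw [h.inner_self]; norm_num

theorem TightNet.four_le (h : TightNet N idx z) (hN : 0 < N) : 4 ≤ N := by
  have h1 := h.sum_sq 0 ⟨0, hN⟩
  have h2 := Finset.single_le_sum (f := fun a' => ‖inner ℂ (z 0 ⟨0, hN⟩) (z 0 a')‖ ^ 2)
    (fun a' _ => by positivity) (Finset.mem_univ (⟨0, hN⟩ : Fin N))
  rw [h1, h.self_sq] at h2
  exact_mod_cast h2

/-- with four vectors every class is orthogonal -/
theorem TightNet.orth_of_four (h : TightNet N idx z) (h4 : N = 4) (i : Fin 3) {a a' : Fin N}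
    (haa : a ≠ a') : inner ℂ (z i a) (z i a') = 0 := by
  classical
  have h1 := h.sum_sq i a
  have hN4 : (N : ℝ) = 4 := by exact_mod_cast h4
  rw [← Finset.add_sum_erase _ _ (Finset.mem_univ a), h.self_sq, hN4] at h1
  have h2 : ∑ x ∈ Finset.univ.erase a, ‖inner ℂ (z i a) (z i x)‖ ^ 2 = 0 := by
    linarith
  have h3 := (Finset.sum_eq_zero_iff_of_nonneg (fun x _ => by positivity)).mp h2 a'
    (Finset.mem_erase.mpr ⟨haa.symm, Finset.mem_univ _⟩)
  simpa using h3

/-- with more than four vectors nobody is orthogonal to all others -/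
theorem TightNet.exists_nonorth (h : TightNet N idx z) (h4 : 4 < N) (i : Fin 3) (a : Fin N) :
    ∃ a', a ≠ a' ∧ inner ℂ (z i a) (z i a') ≠ 0 := by
  classical
  by_contra hcon
  push Not at hcon
  have h1 := h.sum_sq i a
  rw [← Finset.add_sum_erase _ _ (Finset.mem_univ a), h.self_sq] at h1
  have h2 : ∑ x ∈ Finset.univ.erase a, ‖inner ℂ (z i a) (z i x)‖ ^ 2 = 0 := by
    refine Finset.sum_eq_zero fun x hx => ?_
    rw [hcon x (Finset.ne_of_mem_erase hx).symm]
    simp
  rw [h2] at h1
  have : (4:ℝ) < N := by exact_mod_cast h4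
  linarith

theorem mem_orthogonal_pair {u v w : EuclideanSpace ℂ (Fin 4)} (hu : inner ℂ u w = (0:ℂ))
    (hv : inner ℂ v w = (0:ℂ)) : w ∈ (Submodule.span ℂ {u, v})ᗮ := by
  rw [Submodule.mem_orthogonal]
  intro x hx
  rw [Submodule.mem_span_pair] at hx
  obtain ⟨s, t, rfl⟩ := hx
  rw [inner_add_left, inner_smul_left, inner_smul_left, hu, hv]
  simp

/-- every class lies in the union of a plane and its orthogonal complement -/
theorem TightNet.pair_dichotomy (h : TightNet N idx z) (i : Fin 3) {a a' : Fin N} (haa : a ≠ a')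
    (hg : inner ℂ (z i a) (z i a') ≠ 0 ∨ N = 4) (a'' : Fin N) :
    z i a'' ∈ Submodule.span ℂ {z i a, z i a'} ∨ z i a'' ∈ (Submodule.span ℂ {z i a, z i a'})ᗮ := by
  by_cases h2 : a = a''
  · left; rw [← h2]; exact Submodule.subset_span (by simp)
  by_cases h3 : a' = a''
  · left; rw [← h3]; exact Submodule.subset_span (by simp)
  rcases hg with hg | hg
  · by_cases g2 : inner ℂ (z i a) (z i a'') = 0
    · by_cases g3 : inner ℂ (z i a') (z i a'') = 0
      · exact Or.inr (mem_orthogonal_pair g2 g3)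
      · left
        have hg' : inner ℂ (z i a') (z i a) ≠ 0 := by
          intro h0; apply hg; rw [← inner_conj_symm, h0]; simp
        rw [Set.pair_comm]
        exact h.lemma3 i haa.symm hg' g3
    · exact Or.inl (h.lemma3 i haa hg g2)
  · exact Or.inr (mem_orthogonal_pair (h.orth_of_four hg i h2) (h.orth_of_four hg i h3))

theorem TightNet.finrank_pair (h : TightNet N idx z) (i : Fin 3) {a a' : Fin N} (haa : a ≠ a') :
    Module.finrank ℂ (Submodule.span ℂ {z i a, z i a'}) = 2 := by
  have h1 := finrank_span_eq_card (h.indep i a a' haa)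
  rw [Matrix.range_cons, Matrix.range_cons, Matrix.range_empty, Set.union_empty,
    Set.singleton_union] at h1
  simpa using h1

/-- **The two planes.** -/
theorem TightNet.dichotomy (h : TightNet N idx z) (hN : 0 < N) :
    ∃ X W : Submodule ℂ (EuclideanSpace ℂ (Fin 4)),
      Module.finrank ℂ X = 2 ∧ Module.finrank ℂ W = 2 ∧
      (∀ a, z 0 a ∈ X ∨ z 0 a ∈ Xᗮ) ∧ (∀ c, z 2 c ∈ W ∨ z 2 c ∈ Wᗮ) ∧
      ∃ y ∈ X ⊓ W, y ≠ 0 := by
  have h4 := h.four_le hN
  obtain ⟨a, a', haa, hg⟩ : ∃ a a' : Fin N, a ≠ a' ∧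
      (inner ℂ (z 0 a) (z 0 a') ≠ 0 ∨ N = 4) := by
    rcases Nat.lt_or_ge 4 N with h5 | h5
    · obtain ⟨a', h6, h7⟩ := h.exists_nonorth h5 0 ⟨0, hN⟩
      exact ⟨_, a', h6, Or.inl h7⟩
    · refine ⟨⟨0, hN⟩, ⟨1, by omega⟩, ?_, Or.inr (by omega)⟩
      intro h6
      simp at h6
  have n01 : (0 : Fin 3) ≠ 1 := by decide
  have n02 : (0 : Fin 3) ≠ 2 := by decide
  have n12 : (1 : Fin 3) ≠ 2 := by decide
  set b : Fin N := ⟨0, hN⟩
  obtain ⟨t, -, -, u, hu, hc⟩ := h.exists_third n01 n02 n12 a b
  obtain ⟨t', -, -, u', hu', hc'⟩ := h.exists_third n01 n02 n12 a' b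
  set c := idx t 2
  set c' := idx t' 2
  have hu0 := norm_eq_of_unit_smul hu
  have hu0' := norm_eq_of_unit_smul hu'
  have hα : ‖inner ℂ (z 0 a) (z 1 b)‖ = 1 := h.cross _ _ _ _ n01
  have hβ : ‖inner ℂ (z 0 a') (z 1 b)‖ = 1 := h.cross _ _ _ _ n01
  set α := inner ℂ (z 0 a) (z 1 b) with hαdef
  set β := inner ℂ (z 0 a') (z 1 b) with hβdef
  set γ := inner ℂ (z 0 a) (z 0 a') with hγdef
  have hα' : inner ℂ (z 1 b) (z 0 a) = conj α := (inner_conj_symm _ _).symm
  have hβ' : inner ℂ (z 1 b) (z 0 a') = conj β := (inner_conj_symm _ _).symm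
  have hin : inner ℂ (refl (z 0 a) (z 1 b)) (refl (z 0 a') (z 1 b)) = conj α * β * γ := by
    unfold refl
    rw [← hαdef, ← hβdef]
    simp only [inner_sub_left, inner_sub_right, inner_smul_left, inner_smul_right, h.inner_self,
      hβ', ← hαdef, ← hγdef]
    linear_combination (-1) * mul_conj_of_norm_one hα - mul_conj_of_norm_one hβ
  have hcc : inner ℂ (z 2 c) (z 2 c') = conj u * u' * (conj α * β * γ) := by
    rw [hc, hc', inner_smul_left, inner_smul_right, hin]; ring
  have hccn : ‖inner ℂ (z 2 c) (z 2 c')‖ = ‖γ‖ := by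
    rw [hcc, norm_mul, norm_mul, norm_mul, norm_mul, RCLike.norm_conj, RCLike.norm_conj, hu, hu',
      hα, hβ]
    ring
  have hne : c ≠ c' := by
    intro h0
    rw [h0, h.inner_self] at hccn
    have := h.norm_inner_lt 0 haa
    rw [← hγdef, ← hccn] at this
    simp at this
  have hg' : inner ℂ (z 2 c) (z 2 c') ≠ 0 ∨ N = 4 := by
    rcases hg with hg | hg
    · left
      rw [← norm_pos_iff, hccn]
      exact norm_pos_iff.mpr hg
    · exact Or.inr hg
  refine ⟨Submodule.span ℂ {z 0 a, z 0 a'}, Submodule.span ℂ {z 2 c, z 2 c'},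
    h.finrank_pair 0 haa, h.finrank_pair 2 hne, h.pair_dichotomy 0 haa hg,
    h.pair_dichotomy 2 hne hg', refl (z 0 a) (z 1 b) - refl (z 0 a') (z 1 b), ?_, ?_⟩
  · constructor
    · rw [SetLike.mem_coe, Submodule.mem_span_pair]
      refine ⟨-α, β, ?_⟩
      unfold refl
      rw [← hαdef, ← hβdef]
      module
    · rw [SetLike.mem_coe, Submodule.mem_span_pair]
      refine ⟨u⁻¹, -u'⁻¹, ?_⟩
      rw [hc, hc', smul_smul, smul_smul, inv_mul_cancel₀ hu0, one_smul, neg_mul,
        inv_mul_cancel₀ hu0']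
      module
  · intro h0
    have h5 : (-α) • z 0 a + β • z 0 a' = 0 := by
      rw [← h0]
      unfold refl
      rw [← hαdef, ← hβdef]
      module
    have h6 := (h.not_smul 0 haa h5).2
    rw [h6] at hβ
    simp at hβ

end Pool.Agent.H67
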