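import Mathlib
import Pool.Agent.H67.NetC3

/-!
# Classification of tight nets, fourth part: the coordinate lines
-/

open ComplexConjugate Finset

namespace Pool.Agent.H67

variable {N : ℕ} {T : Type} {idx : T → Fin 3 → Fin N}
  {z : Fin 3 → Fin N → EuclideanSpace ℂ (Fin 4)}

theorem inner_mul_symm_sq (x v : EuclideanSpace ℂ (Fin 4)) :
    inner ℂ x v * inner ℂ v x = ((‖inner ℂ x v‖ ^ 2 : ℝ) : ℂ) := by
  rw [← inner_conj_symm v x, Complex.mul_conj']
  push_cast; rfl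

/-- the frame identity on a unit vector -/
theorem TightNet.frame_unit (h : TightNet N idx z) (i : Fin 3) {x : EuclideanSpace ℂ (Fin 4)}
    (hx : inner ℂ x x = (1:ℂ)) : ∑ a, ‖inner ℂ x (z i a)‖ ^ 2 = (N : ℝ) / 2 := by
  have h1 := h.frame i x x
  rw [hx, Finset.sum_congr rfl (fun a _ => inner_mul_symm_sq x (z i a)), mul_one] at h1
  have h2 : ((∑ a, ‖inner ℂ x (z i a)‖ ^ 2 : ℝ) : ℂ) = (((N : ℝ) / 2 : ℝ) : ℂ) := by
    push_cast
    push_cast at h1
    exact h1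
  exact_mod_cast h2

/-- the dichotomy for a class in terms of an orthonormal basis of the plane -/
def Dich (z : Fin 3 → Fin N → EuclideanSpace ℂ (Fin 4)) (i : Fin 3)
    (u v : EuclideanSpace ℂ (Fin 4)) : Prop :=
  ∀ a, (z i a = inner ℂ u (z i a) • u + inner ℂ v (z i a) • v) ∨
    (inner ℂ u (z i a) = (0:ℂ) ∧ inner ℂ v (z i a) = (0:ℂ))

theorem TightNet.norm_sq_of_mem (h : TightNet N idx z) {i : Fin 3} {a : Fin N}
    {u v : EuclideanSpace ℂ (Fin 4)}
    (ha : z i a = inner ℂ u (z i a) • u + inner ℂ v (z i a) • v) :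
    ‖inner ℂ u (z i a)‖ ^ 2 + ‖inner ℂ v (z i a)‖ ^ 2 = 2 := by
  have h1 := h.inner_self i a
  have h2 : inner ℂ (z i a) (z i a) = inner ℂ u (z i a) * inner ℂ (z i a) u
      + inner ℂ v (z i a) * inner ℂ (z i a) v := by
    conv_lhs => rw [ha]
    rw [inner_add_right, inner_smul_right, inner_smul_right, ← ha]
  rw [inner_mul_symm_sq, inner_mul_symm_sq, h1] at h2
  have h3 : ((‖inner ℂ u (z i a)‖ ^ 2 + ‖inner ℂ v (z i a)‖ ^ 2 : ℝ) : ℂ) = ((2:ℝ):ℂ) := by
    push_cast at h2 ⊢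
    exact h2.symm
  exact_mod_cast h3

/-- **Lemma P.** The projection of a vector of another class to the plane is a unit vector. -/
theorem TightNet.lemmaP (h : TightNet N idx z) (hN : 0 < N) {i j : Fin 3} (hij : i ≠ j)
    {u v : EuclideanSpace ℂ (Fin 4)} (hu : inner ℂ u u = (1:ℂ)) (hv : inner ℂ v v = (1:ℂ))
    (huv : inner ℂ u v = (0:ℂ)) (hd : Dich z i u v) (b : Fin N) :
    ‖inner ℂ u (z j b)‖ ^ 2 + ‖inner ℂ v (z j b)‖ ^ 2 = 1 := by
  have hN0 : (0:ℝ) < N := by exact_mod_cast hN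
  have huv' : inner ℂ v u = (0:ℂ) := by rw [← inner_conj_symm, huv]; simp
  set q := inner ℂ u (z j b) • u + inner ℂ v (z j b) • v with hq
  have h1 : ∀ a, ‖inner ℂ u (z i a)‖ ^ 2 + ‖inner ℂ v (z i a)‖ ^ 2 = 2 * ‖inner ℂ q (z i a)‖ ^ 2 := by
    intro a
    rcases hd a with ha | ⟨ha, ha'⟩
    · rw [h.norm_sq_of_mem ha]
      have h2 : inner ℂ q (z i a) = inner ℂ (z j b) (z i a) := by
        conv_rhs => rw [ha]
        rw [inner_add_right, inner_smul_right, inner_smul_right, hq, inner_add_left,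
          inner_smul_left, inner_smul_left, inner_conj_symm, inner_conj_symm]
        ring
      rw [h2, h.cross j i b a hij.symm]
      norm_num
    · rw [hq, inner_add_left, inner_smul_left, inner_smul_left, ha, ha']
      simp
  have h2 : ∑ a, ‖inner ℂ q (z i a)‖ ^ 2 = (N:ℝ) / 2 := by
    have h3 := h.frame_unit i hu
    have h4 := h.frame_unit i hv
    have h5 : ∑ a, (‖inner ℂ u (z i a)‖ ^ 2 + ‖inner ℂ v (z i a)‖ ^ 2)
        = 2 * ∑ a, ‖inner ℂ q (z i a)‖ ^ 2 := by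
      rw [Finset.mul_sum]
      exact Finset.sum_congr rfl fun a _ => h1 a
    rw [Finset.sum_add_distrib, h3, h4] at h5
    linarith
  have h3 := h.frame i q q
  have hqq : inner ℂ q q = ((‖inner ℂ u (z j b)‖ ^ 2 + ‖inner ℂ v (z j b)‖ ^ 2 : ℝ) : ℂ) := by
    rw [hq]
    simp only [inner_add_left, inner_add_right, inner_smul_left, inner_smul_right, hu, hv, huv,
      huv']
    push_cast
    rw [← Complex.mul_conj', ← Complex.mul_conj']
    ring
  rw [hqq, Finset.sum_congr rfl (fun a _ => inner_mul_symm_sq q (z i a))] at h3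
  have h4 : ∑ a, ‖inner ℂ q (z i a)‖ ^ 2
      = (N:ℝ) / 2 * (‖inner ℂ u (z j b)‖ ^ 2 + ‖inner ℂ v (z j b)‖ ^ 2) := by
    have h5 : ((∑ a, ‖inner ℂ q (z i a)‖ ^ 2 : ℝ) : ℂ)
      = (((N:ℝ) / 2 * (‖inner ℂ u (z j b)‖ ^ 2 + ‖inner ℂ v (z j b)‖ ^ 2) : ℝ) : ℂ) := by
      push_cast
      push_cast at h3
      exact h3
    exact_mod_cast h5
  rw [h2] at h4
  have h6 : (N:ℝ) / 2 ≠ 0 := by positivity
  have h7 : (N:ℝ) / 2 * (‖inner ℂ u (z j b)‖ ^ 2 + ‖inner ℂ v (z j b)‖ ^ 2 - 1) = 0 := by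
    linear_combination -h4
  have := (mul_eq_zero.mp h7).resolve_left h6
  linarith

/-- a unit vector of a plane can be completed to an orthonormal basis of the plane -/
theorem exists_basis_plane (X : Submodule ℂ (EuclideanSpace ℂ (Fin 4)))
    (hX : Module.finrank ℂ X = 2) {y : EuclideanSpace ℂ (Fin 4)} (hy : y ∈ X)
    (hy1 : inner ℂ y y = (1:ℂ)) :
    ∃ x ∈ X, inner ℂ x x = (1:ℂ) ∧ inner ℂ x y = (0:ℂ) ∧
      ∀ v ∈ X, v = inner ℂ x v • x + inner ℂ y v • y := by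
  classical
  have hon : Orthonormal ℂ ((({1} : Set (Fin 2))).domRestrict (fun _ => (⟨y, hy⟩ : X))) := by
    rw [orthonormal_iff_ite]
    rintro ⟨i, hi⟩ ⟨j, hj⟩
    simp only [Set.mem_singleton_iff] at hi hj
    subst hi; subst hj
    rw [if_pos rfl]
    exact hy1
  obtain ⟨b, hb⟩ := hon.exists_orthonormalBasis_extension_of_card_eq (by rw [hX]; simp)
  have hb1 : ((b 1 : X) : EuclideanSpace ℂ (Fin 4)) = y := by rw [hb 1 rfl]
  refine ⟨b 0, (b 0).2, ?_, ?_, ?_⟩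
  · have := orthonormal_iff_ite.mp b.orthonormal 0 0
    rw [if_pos rfl] at this
    exact this
  · have := orthonormal_iff_ite.mp b.orthonormal 0 1
    rw [Submodule.coe_inner, hb1, if_neg (by decide)] at this
    exact this
  · intro v hv
    have h1 := b.sum_repr' ⟨v, hv⟩
    rw [Fin.sum_univ_two] at h1
    have h2 := congrArg (Subtype.val) h1
    simp only [Submodule.coe_add, Submodule.coe_smul, Submodule.coe_inner, hb1] at h2
    exact h2.symm

/-- the two possible shapes of the vectors of one class -/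
def Shape (x : Fin 4 → EuclideanSpace ℂ (Fin 4)) (p q r s : Fin 4)
    (v : EuclideanSpace ℂ (Fin 4)) : Prop :=
  (‖inner ℂ (x p) v‖ = 1 ∧ ‖inner ℂ (x q) v‖ = 1 ∧ inner ℂ (x r) v = (0:ℂ) ∧
    inner ℂ (x s) v = (0:ℂ)) ∨
  (‖inner ℂ (x r) v‖ = 1 ∧ ‖inner ℂ (x s) v‖ = 1 ∧ inner ℂ (x p) v = (0:ℂ) ∧
    inner ℂ (x q) v = (0:ℂ))

theorem norm_one_of_sq {w : ℂ} (hw : ‖w‖ ^ 2 = 1) : ‖w‖ = 1 := by
  have := norm_nonneg w
  nlinarith [sq_nonneg (‖w‖ - 1), sq_nonneg (‖w‖ + 1)]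

/-- **The coordinate lines.** -/
theorem TightNet.exists_coordinates (h : TightNet N idx z) (hN : 0 < N) :
    ∃ x : OrthonormalBasis (Fin 4) ℂ (EuclideanSpace ℂ (Fin 4)),
      (∀ a, Shape x 0 1 2 3 (z 0 a)) ∧ (∀ b, Shape x 0 2 1 3 (z 1 b)) ∧
      (∀ c, Shape x 0 3 1 2 (z 2 c)) := by
  classical
  have hN0 : (0:ℝ) < N := by exact_mod_cast hN
  obtain ⟨X, W, hX, hW, hdX, hdW, y, ⟨hyX, hyW⟩, hy0⟩ := h.dichotomy hN
  have n01 : (0 : Fin 3) ≠ 1 := by decide
  have n02 : (0 : Fin 3) ≠ 2 := by decide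
  have n12 : (1 : Fin 3) ≠ 2 := by decide
  -- the unit vector
  set x1 : EuclideanSpace ℂ (Fin 4) := ((‖y‖ : ℂ)⁻¹) • y with hx1
  have hyn : (‖y‖ : ℂ) ≠ 0 := by exact_mod_cast (norm_pos_iff.mpr hy0).ne'
  have h11 : inner ℂ x1 x1 = (1:ℂ) := by
    rw [hx1, inner_smul_left, inner_smul_right, inner_self_eq_norm_sq_to_K, map_inv₀,
      Complex.conj_ofReal]
    simp only [Complex.coe_algebraMap]
    field_simp
  have hx1X : x1 ∈ X := X.smul_mem _ hyX
  have hx1W : x1 ∈ W := W.smul_mem _ hyW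
  obtain ⟨x0, hx0X, h00, h01, hspX⟩ := exists_basis_plane X hX hx1X h11
  obtain ⟨x2, hx2W, h22, h21, hspW⟩ := exists_basis_plane W hW hx1W h11
  have hD0 : Dich z 0 x0 x1 := by
    intro a
    rcases hdX a with ha | ha
    · exact Or.inl (hspX _ ha)
    · exact Or.inr ⟨(Submodule.mem_orthogonal X _).mp ha _ hx0X,
        (Submodule.mem_orthogonal X _).mp ha _ hx1X⟩
  have hD2 : Dich z 2 x2 x1 := by
    intro a
    rcases hdW a with ha | ha
    · exact Or.inl (hspW _ ha)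
    · exact Or.inr ⟨(Submodule.mem_orthogonal W _).mp ha _ hx2W,
        (Submodule.mem_orthogonal W _).mp ha _ hx1W⟩
  have P0 : ∀ j, (0 : Fin 3) ≠ j → ∀ b, ‖inner ℂ x0 (z j b)‖ ^ 2 + ‖inner ℂ x1 (z j b)‖ ^ 2 = 1 :=
    fun j hj b => h.lemmaP hN hj h00 h11 h01 hD0 b
  have P2 : ∀ j, (2 : Fin 3) ≠ j → ∀ b, ‖inner ℂ x2 (z j b)‖ ^ 2 + ‖inner ℂ x1 (z j b)‖ ^ 2 = 1 :=
    fun j hj b => h.lemmaP hN hj h22 h11 h21 hD2 b
  -- elements of class 0 in the plane `X` are orthogonal to `x2`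
  have hsum0 := h.frame_unit 0 h00
  have hsum1 := h.frame_unit 0 h11
  have hkey : ∀ a, z 0 a = inner ℂ x0 (z 0 a) • x0 + inner ℂ x1 (z 0 a) • x1 →
      inner ℂ x2 (z 0 a) = (0:ℂ) := by
    have h3 : ∑ a, (if z 0 a = inner ℂ x0 (z 0 a) • x0 + inner ℂ x1 (z 0 a) • x1 then
        ‖inner ℂ x2 (z 0 a)‖ ^ 2 else 0) = 0 := by
      have h4 : ∀ a, (if z 0 a = inner ℂ x0 (z 0 a) • x0 + inner ℂ x1 (z 0 a) • x1 then
          ‖inner ℂ x2 (z 0 a)‖ ^ 2 else 0)
          = (‖inner ℂ x0 (z 0 a)‖ ^ 2 + ‖inner ℂ x1 (z 0 a)‖ ^ 2) / 2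
            - ‖inner ℂ x1 (z 0 a)‖ ^ 2 := by
        intro a
        by_cases ha : z 0 a = inner ℂ x0 (z 0 a) • x0 + inner ℂ x1 (z 0 a) • x1
        · rw [if_pos ha, h.norm_sq_of_mem ha]
          have := P2 0 n02.symm a
          linarith
        · rw [if_neg ha]
          obtain ⟨e1, e2⟩ := (hD0 a).resolve_left ha
          rw [e1, e2]; simp
      rw [Finset.sum_congr rfl (fun a _ => h4 a), Finset.sum_sub_distrib, ← Finset.sum_div,
        Finset.sum_add_distrib, hsum0, hsum1]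
      ring
    intro a ha
    have h5 := (Finset.sum_eq_zero_iff_of_nonneg (fun a _ => by split_ifs <;> positivity)).mp h3 a
      (Finset.mem_univ a)
    rw [if_pos ha] at h5
    simpa using h5
  have h20 : inner ℂ x2 x0 = (0:ℂ) := by
    have h3 := h.frame 0 x2 x0
    rw [Finset.sum_eq_zero] at h3
    · have hN2 : (N : ℂ) / 2 ≠ 0 := by
        apply div_ne_zero
        · exact_mod_cast hN.ne'
        · norm_num
      exact (mul_eq_zero.mp h3.symm).resolve_left hN2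
    · intro a _
      rcases hD0 a with ha | ⟨ha, ha'⟩
      · rw [hkey a ha, zero_mul]
      · rw [← inner_conj_symm (z 0 a) x0, ha]; simp
  have h02 : inner ℂ x0 x2 = (0:ℂ) := by rw [← inner_conj_symm, h20]; simp
  have h10 : inner ℂ x1 x0 = (0:ℂ) := by rw [← inner_conj_symm, h01]; simp
  have h12 : inner ℂ x1 x2 = (0:ℂ) := by rw [← inner_conj_symm, h21]; simp
  -- the orthonormal basis
  have hon : Orthonormal ℂ ((({0, 1, 2} : Set (Fin 4))).domRestrict
      (![x0, x1, x2, 0] : Fin 4 → EuclideanSpace ℂ (Fin 4))) := by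
    rw [orthonormal_iff_ite]
    rintro ⟨i, hi⟩ ⟨j, hj⟩
    simp only [Set.mem_insert_iff, Set.mem_singleton_iff] at hi hj
    rcases hi with rfl | rfl | rfl <;> rcases hj with rfl | rfl | rfl
    · rw [if_pos rfl]; exact h00
    · rw [if_neg (by simp)]; exact h01
    · rw [if_neg (by simp)]; exact h02
    · rw [if_neg (by simp)]; exact h10
    · rw [if_pos rfl]; exact h11
    · rw [if_neg (by simp)]; exact h12
    · rw [if_neg (by simp)]; exact h20
    · rw [if_neg (by simp)]; exact h21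
    · rw [if_pos rfl]; exact h22
  obtain ⟨x, hx⟩ := hon.exists_orthonormalBasis_extension_of_card_eq (by simp)
  have e0 : x 0 = x0 := by rw [hx 0 (by simp)]; rfl
  have e1 : x 1 = x1 := by rw [hx 1 (by simp)]; rfl
  have e2 : x 2 = x2 := by rw [hx 2 (by simp)]; rfl
  have hpar : ∀ i a, ‖inner ℂ (x 0) (z i a)‖ ^ 2 + ‖inner ℂ (x 1) (z i a)‖ ^ 2
      + ‖inner ℂ (x 2) (z i a)‖ ^ 2 + ‖inner ℂ (x 3) (z i a)‖ ^ 2 = 2 := by
    intro i a
    have h3 := x.sum_sq_norm_inner_right (z i a)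
    rw [Fin.sum_univ_four, h.norm_sq i a] at h3
    exact h3
  have hx3 : ∀ k : Fin 4, k ≠ 3 → inner ℂ (x 3) (x k) = (0:ℂ) := by
    intro k hk
    have := orthonormal_iff_ite.mp x.orthonormal 3 k
    rw [this, if_neg hk.symm]
  have hx30 : inner ℂ (x 3) x0 = (0:ℂ) := by rw [← e0]; exact hx3 0 (by decide)
  have hx31 : inner ℂ (x 3) x1 = (0:ℂ) := by rw [← e1]; exact hx3 1 (by decide)
  have hx32 : inner ℂ (x 3) x2 = (0:ℂ) := by rw [← e2]; exact hx3 2 (by decide)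
  -- class 0
  have C0 : ∀ a, Shape x 0 1 2 3 (z 0 a) := by
    intro a
    have hP := P2 0 n02.symm a
    have hp := hpar 0 a
    rw [e0, e1, e2] at hp
    unfold Shape
    rw [e0, e1, e2]
    rcases hD0 a with ha | ⟨ha, ha'⟩
    · left
      have k2 := hkey a ha
      have k3 : inner ℂ (x 3) (z 0 a) = (0:ℂ) := by
        rw [ha, inner_add_right, inner_smul_right, inner_smul_right, hx30, hx31]; ring
      rw [k2] at hP hp
      rw [k3] at hp
      rw [norm_zero] at hP hp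
      refine ⟨norm_one_of_sq ?_, norm_one_of_sq ?_, k2, k3⟩ <;> linarith
    · right
      rw [ha'] at hP
      rw [ha, ha'] at hp
      rw [norm_zero] at hP hp
      refine ⟨norm_one_of_sq ?_, norm_one_of_sq ?_, ha, ha'⟩ <;> linarith
  -- class 2
  have C2 : ∀ a, Shape x 0 3 1 2 (z 2 a) := by
    intro a
    have hP := P0 2 n02 a
    have hp := hpar 2 a
    rw [e0, e1, e2] at hp
    unfold Shape
    rw [e0, e1, e2]
    rcases hD2 a with ha | ⟨ha, ha'⟩
    · right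
      have k0 : inner ℂ x0 (z 2 a) = (0:ℂ) := by
        rw [ha, inner_add_right, inner_smul_right, inner_smul_right, h02, h01]; ring
      have k3 : inner ℂ (x 3) (z 2 a) = (0:ℂ) := by
        rw [ha, inner_add_right, inner_smul_right, inner_smul_right, hx32, hx31]; ring
      rw [k0] at hP
      rw [k0, k3] at hp
      rw [norm_zero] at hP hp
      refine ⟨norm_one_of_sq ?_, norm_one_of_sq ?_, k0, k3⟩ <;> linarith
    · left
      rw [ha'] at hP
      rw [ha, ha'] at hp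
      rw [norm_zero] at hP hp
      refine ⟨norm_one_of_sq ?_, norm_one_of_sq ?_, ha', ha⟩ <;> linarith
  -- an element of class 0 in `X`
  obtain ⟨a, ha⟩ : ∃ a, ‖inner ℂ (x 0) (z 0 a)‖ = 1 ∧ ‖inner ℂ (x 1) (z 0 a)‖ = 1 ∧
      inner ℂ (x 2) (z 0 a) = (0:ℂ) ∧ inner ℂ (x 3) (z 0 a) = (0:ℂ) := by
    by_contra hcon
    push Not at hcon
    have h3 : ∀ a, inner ℂ x0 (z 0 a) = (0:ℂ) := by
      intro a
      rcases C0 a with ⟨k1, k2, k3, k4⟩ | ⟨k1, k2, k3, k4⟩
      · exact absurd k4 (hcon a k1 k2 k3)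
      · rw [← e0]; exact k3
    rw [Finset.sum_eq_zero (fun a _ => by rw [h3 a]; simp)] at hsum0
    linarith
  obtain ⟨a0, a1, a2, a3⟩ := ha
  -- class 1
  have C1 : ∀ b, Shape x 0 2 1 3 (z 1 b) := by
    intro b
    have hPX := P0 1 n01 b
    have hPW := P2 1 n12.symm b
    have hp := hpar 1 b
    rw [← e0, ← e1] at hPX
    rw [← e2, ← e1] at hPW
    obtain ⟨t, -, -, u, hu, hc⟩ := h.exists_third n01 n02 n12 a b
    have hu0 := norm_eq_of_unit_smul hu
    have hcb : ∀ k : Fin 4, inner ℂ (x k) (z 0 a) = (0:ℂ) →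
        inner ℂ (x k) (z 2 (idx t 2)) = (0:ℂ) → inner ℂ (x k) (z 1 b) = (0:ℂ) := by
      intro k hk hk'
      rw [hc] at hk'
      unfold refl at hk'
      rw [inner_smul_right, inner_sub_right, inner_smul_right, hk, mul_zero, sub_zero] at hk'
      exact (mul_eq_zero.mp hk').resolve_left hu0
    rcases C2 (idx t 2) with ⟨k1, k2, k3, k4⟩ | ⟨k1, k2, k3, k4⟩
    · -- the third point lies in the span of `x0`, `x3`
      right
      have b2 := hcb 2 a2 k4
      rw [b2, norm_zero] at hPW hp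
      have b1 : ‖inner ℂ (x 1) (z 1 b)‖ ^ 2 = 1 := by linarith
      have b0 : ‖inner ℂ (x 0) (z 1 b)‖ ^ 2 = 0 := by linarith
      have b0' : inner ℂ (x 0) (z 1 b) = (0:ℂ) := by simpa using b0
      refine ⟨norm_one_of_sq b1, norm_one_of_sq ?_, b0', b2⟩
      linarith
    · left
      have b3 := hcb 3 a3 k4
      rw [b3, norm_zero] at hp
      have b1 : ‖inner ℂ (x 1) (z 1 b)‖ ^ 2 = 0 := by linarith
      have b1' : inner ℂ (x 1) (z 1 b) = (0:ℂ) := by simpa using b1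
      refine ⟨norm_one_of_sq ?_, norm_one_of_sq ?_, b1', b3⟩ <;> linarith
  exact ⟨x, C0, C1, C2⟩

end Pool.Agent.H67
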