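import Mathlib
import Pool.Agent.H67.NetC4

/-!
# Classification of tight nets, last part: cosets of roots of unity
-/

open ComplexConjugate Finset

namespace Pool.Agent.H67

/-- an injective map between finite sets of the same size -/
theorem image_eq_of_card {s t : Finset ℂ} (hc : s.card = t.card) (f : ℂ → ℂ)
    (hf : ∀ x ∈ s, f x ∈ t) (hinj : Set.InjOn f s) :
    s.image f = t ∧ ∏ y ∈ t, y = ∏ x ∈ s, f x := by
  have h1 : s.image f = t := by
    refine Finset.eq_of_subset_of_card_le ?_ ?_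
    · intro y hy
      obtain ⟨x, hx, rfl⟩ := Finset.mem_image.mp hy
      exact hf x hx
    · rw [Finset.card_image_of_injOn hinj, hc]
  refine ⟨h1, ?_⟩
  rw [← h1, Finset.prod_image hinj]

/-- **The coset argument.** -/
theorem coset_argument {n : ℕ} (hn : 0 < n) {A A' B B' C C' : Finset ℂ}
    (cA : A.card = n) (cA' : A'.card = n) (cB : B.card = n) (cB' : B'.card = n)
    (cC : C.card = n) (cC' : C'.card = n)
    (zA : ∀ x ∈ A, x ≠ 0) (zB : ∀ x ∈ B, x ≠ 0) (zB' : ∀ x ∈ B', x ≠ 0)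
    (zC : ∀ x ∈ C, x ≠ 0) (zC' : ∀ x ∈ C', x ≠ 0)
    (h1 : ∀ ζ ∈ A, ∀ η ∈ B, η / ζ ∈ C') (h2 : ∀ ζ ∈ A, ∀ η ∈ B', ζ * η ∈ C)
    (h3 : ∀ η ∈ B, ∀ ξ ∈ A', η * ξ ∈ C) :
    ∃ ζ0 η0 η1 : ℂ, ζ0 ≠ 0 ∧ η0 ≠ 0 ∧ η1 ≠ 0 ∧ (∀ ζ ∈ A, (ζ / ζ0) ^ n = 1) ∧
      (∀ η ∈ B, (η / η0) ^ n = 1) ∧ (∀ η ∈ B', (η / η1) ^ n = 1) ∧
      (∀ κ ∈ C', (κ * ζ0 / η0) ^ n = 1) ∧ (∀ κ ∈ C, (κ / (ζ0 * η1)) ^ n = 1) ∧
      (∀ ξ ∈ A', (ξ * η0 / (ζ0 * η1)) ^ n = 1) := by
  obtain ⟨ζ0, hζ0⟩ : A.Nonempty := Finset.card_pos.mp (by omega)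
  obtain ⟨η0, hη0⟩ : B.Nonempty := Finset.card_pos.mp (by omega)
  obtain ⟨η1, hη1⟩ : B'.Nonempty := Finset.card_pos.mp (by omega)
  have zζ0 := zA _ hζ0
  have zη0 := zB _ hη0
  have zη1 := zB' _ hη1
  have pC' : ∏ y ∈ C', y ≠ 0 := Finset.prod_ne_zero_iff.mpr zC'
  have pC : ∏ y ∈ C, y ≠ 0 := Finset.prod_ne_zero_iff.mpr zC
  have pA : ∏ y ∈ A, y ≠ 0 := Finset.prod_ne_zero_iff.mpr zA
  have pB : ∏ y ∈ B, y ≠ 0 := Finset.prod_ne_zero_iff.mpr zB
  -- `ζ ^ n` is constant on `A`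
  have kA : ∀ ζ ∈ A, B.image (fun η => η / ζ) = C' ∧ ζ ^ n * ∏ y ∈ C', y = ∏ y ∈ B, y := by
    intro ζ hζ
    have hz := zA ζ hζ
    obtain ⟨e1, e2⟩ := image_eq_of_card (s := B) (t := C') (by omega) (fun η => η / ζ)
      (fun η hη => h1 ζ hζ η hη) (fun x _ y _ hxy => by
        have : x / ζ = y / ζ := hxy
        field_simp at this
        exact this)
    refine ⟨e1, ?_⟩
    rw [e2, Finset.prod_div_distrib, Finset.prod_const, cB]
    field_simp
  have kB : ∀ η ∈ B, (∏ y ∈ C', y) * ∏ y ∈ A, y = η ^ n := by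
    intro η hη
    have hz := zB η hη
    obtain ⟨e1, e2⟩ := image_eq_of_card (s := A) (t := C') (by omega) (fun ζ => η / ζ)
      (fun ζ hζ => h1 ζ hζ η hη) (fun x hx y hy hxy => by
        have h4 : η / x = η / y := hxy
        have hx0 := zA x hx
        have hy0 := zA y hy
        field_simp at h4
        exact h4.symm)
    rw [e2, Finset.prod_div_distrib, Finset.prod_const, cA]
    field_simp
  have kB' : ∀ η ∈ B', A.image (fun ζ => ζ * η) = C ∧ ∏ y ∈ C, y = (∏ y ∈ A, y) * η ^ n := by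
    intro η hη
    have hz := zB' η hη
    obtain ⟨e1, e2⟩ := image_eq_of_card (s := A) (t := C) (by omega) (fun ζ => ζ * η)
      (fun ζ hζ => h2 ζ hζ η hη) (fun x _ y _ hxy => mul_right_cancel₀ hz hxy)
    refine ⟨e1, ?_⟩
    rw [e2, Finset.prod_mul_distrib, Finset.prod_const, cA]
  have cstA : ∀ ζ ∈ A, ζ ^ n = ζ0 ^ n := fun ζ hζ =>
    mul_right_cancel₀ pC' ((kA ζ hζ).2.trans (kA ζ0 hζ0).2.symm)
  have cstB : ∀ η ∈ B, η ^ n = η0 ^ n := fun η hη => (kB η hη).symm.trans (kB η0 hη0)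
  have cstB' : ∀ η ∈ B', η ^ n = η1 ^ n := fun η hη =>
    mul_left_cancel₀ pA ((kB' η hη).2.symm.trans (kB' η1 hη1).2)
  have cstC' : ∀ κ ∈ C', κ ^ n * ζ0 ^ n = η0 ^ n := by
    intro κ hκ
    rw [← (kA ζ0 hζ0).1] at hκ
    obtain ⟨η, hη, rfl⟩ := Finset.mem_image.mp hκ
    rw [← cstB η hη, div_pow]
    field_simp
  have cstC : ∀ κ ∈ C, κ ^ n = ζ0 ^ n * η1 ^ n := by
    intro κ hκ
    rw [← (kB' η1 hη1).1] at hκ
    obtain ⟨ζ, hζ, rfl⟩ := Finset.mem_image.mp hκ
    rw [mul_pow, cstA ζ hζ]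
  refine ⟨ζ0, η0, η1, zζ0, zη0, zη1, ?_, ?_, ?_, ?_, ?_, ?_⟩
  · intro ζ hζ
    rw [div_pow, cstA ζ hζ]
    field_simp
  · intro η hη
    rw [div_pow, cstB η hη]
    field_simp
  · intro η hη
    rw [div_pow, cstB' η hη]
    field_simp
  · intro κ hκ
    rw [div_pow, mul_pow, cstC' κ hκ]
    field_simp
  · intro κ hκ
    rw [div_pow, mul_pow, cstC κ hκ]
    field_simp
  · intro ξ hξ
    have h4 := cstC _ (h3 η0 hη0 ξ hξ)
    rw [mul_pow] at h4
    rw [div_pow, mul_pow, mul_pow, mul_comm (ξ ^ n), h4]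
    field_simp

variable {N : ℕ} {T : Type} {idx : T → Fin 3 → Fin N}
  {z : Fin 3 → Fin N → EuclideanSpace ℂ (Fin 4)}

/-- the parameter of a vector of a coordinate line -/
noncomputable def par (x : Fin 4 → EuclideanSpace ℂ (Fin 4)) (p q : Fin 4)
    (v : EuclideanSpace ℂ (Fin 4)) : ℂ := -(inner ℂ (x q) v / inner ℂ (x p) v)

theorem Shape.swap {x : Fin 4 → EuclideanSpace ℂ (Fin 4)} {p q r s : Fin 4}
    {v : EuclideanSpace ℂ (Fin 4)} (h : Shape x p q r s v) : Shape x r s p q v := Or.symm h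

theorem Shape.first {x : Fin 4 → EuclideanSpace ℂ (Fin 4)} {p q r s : Fin 4}
    {v : EuclideanSpace ℂ (Fin 4)} (h : Shape x p q r s v) (h0 : inner ℂ (x p) v ≠ (0:ℂ)) :
    ‖inner ℂ (x p) v‖ = 1 ∧ ‖inner ℂ (x q) v‖ = 1 ∧ inner ℂ (x r) v = (0:ℂ) ∧
    inner ℂ (x s) v = (0:ℂ) := by
  rcases h with h | h
  · exact h
  · exact absurd h.2.2.1 h0

theorem ne_zero_of_norm_one {w : ℂ} (hw : ‖w‖ = 1) : w ≠ 0 := by
  intro h0; rw [h0] at hw; simp at hw

/-- the vector in terms of its parameter -/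
theorem Shape.repr {x : OrthonormalBasis (Fin 4) ℂ (EuclideanSpace ℂ (Fin 4))} {p q r s : Fin 4}
    (hperm : ∀ f : Fin 4 → EuclideanSpace ℂ (Fin 4), ∑ k, f k = f p + f q + f r + f s)
    {v : EuclideanSpace ℂ (Fin 4)} (h : Shape x p q r s v) (h0 : inner ℂ (x p) v ≠ (0:ℂ)) :
    v = inner ℂ (x p) v • (x p - par x p q v • x q) := by
  obtain ⟨h1, h2, h3, h4⟩ := h.first h0
  have h5 := x.sum_repr' v
  rw [hperm, h3, h4] at h5
  have h6 : inner ℂ (x p) v * par x p q v = - inner ℂ (x q) v := by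
    unfold par
    field_simp
  rw [smul_sub, smul_smul, h6]
  conv_lhs => rw [← h5]
  module

/-- the set of parameters of the vectors of the class `i` on a coordinate line -/
noncomputable def params (x : Fin 4 → EuclideanSpace ℂ (Fin 4))
    (z : Fin 3 → Fin N → EuclideanSpace ℂ (Fin 4)) (i : Fin 3) (p q : Fin 4) : Finset ℂ :=
  letI := Classical.decPred fun a : Fin N => inner ℂ (x p) (z i a) ≠ (0:ℂ)
  (Finset.univ.filter fun a => inner ℂ (x p) (z i a) ≠ (0:ℂ)).image fun a => par x p q (z i a)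

theorem mem_params {x : Fin 4 → EuclideanSpace ℂ (Fin 4)} {i : Fin 3} {p q : Fin 4} {ζ : ℂ} :
    ζ ∈ params x z i p q ↔ ∃ a, inner ℂ (x p) (z i a) ≠ (0:ℂ) ∧ par x p q (z i a) = ζ := by
  unfold params
  simp only [Finset.mem_image, Finset.mem_filter, Finset.mem_univ, true_and]

theorem TightNet.card_params (h : TightNet N idx z)
    (x : OrthonormalBasis (Fin 4) ℂ (EuclideanSpace ℂ (Fin 4))) (i : Fin 3) {p q r s : Fin 4}
    (hperm : ∀ f : Fin 4 → EuclideanSpace ℂ (Fin 4), ∑ k, f k = f p + f q + f r + f s)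
    (hS : ∀ a, Shape x p q r s (z i a)) : 2 * (params x z i p q).card = N := by
  classical
  have h1 : (params x z i p q).card
      = (Finset.univ.filter fun a : Fin N => inner ℂ (x p) (z i a) ≠ (0:ℂ)).card := by
    have h0 : params x z i p q = (Finset.univ.filter fun a : Fin N =>
        inner ℂ (x p) (z i a) ≠ (0:ℂ)).image fun a => par x p q (z i a) := by
      ext ζ
      rw [mem_params]
      simp only [Finset.mem_image, Finset.mem_filter, Finset.mem_univ, true_and]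
    rw [h0, Finset.card_image_of_injOn]
    intro a ha a' ha' haa
    have ha : inner ℂ (x p) (z i a) ≠ (0:ℂ) := (Finset.mem_filter.mp ha).2
    have ha' : inner ℂ (x p) (z i a') ≠ (0:ℂ) := (Finset.mem_filter.mp ha').2
    by_contra hne
    have e1 := (hS a).repr hperm ha
    have e2 := (hS a').repr hperm ha'
    have haa' : par x p q (z i a) = par x p q (z i a') := haa
    rw [haa'] at e1
    set α := inner ℂ (x p) (z i a) with hα
    set β := inner ℂ (x p) (z i a') with hβ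
    set v := x p - par x p q (z i a') • x q with hv
    have h3 := h.not_smul i hne (s := β) (t := -α) (by
      rw [e1, e2]
      module)
    exact ha' h3.1
  have hx : inner ℂ (x p) (x p) = (1:ℂ) := by
    have := orthonormal_iff_ite.mp x.orthonormal p p
    rw [if_pos rfl] at this
    exact this
  have h2 := h.frame_unit i hx
  have h3 : ∀ a, ‖inner ℂ (x p) (z i a)‖ ^ 2
      = if inner ℂ (x p) (z i a) ≠ (0:ℂ) then (1:ℝ) else 0 := by
    intro a
    by_cases ha : inner ℂ (x p) (z i a) ≠ (0:ℂ)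
    · rw [if_pos ha, ((hS a).first ha).1]; norm_num
    · rw [if_neg ha]
      push Not at ha
      rw [ha]; simp
  rw [Finset.sum_congr rfl (fun a _ => h3 a), Finset.sum_boole, ← h1] at h2
  have h4 : (2:ℝ) * (params x z i p q).card = N := by linarith
  exact_mod_cast h4

theorem params_ne_zero {x : Fin 4 → EuclideanSpace ℂ (Fin 4)} {i : Fin 3} {p q r s : Fin 4}
    (hS : ∀ a, Shape x p q r s (z i a)) : ∀ ζ ∈ params x z i p q, ζ ≠ 0 := by
  intro ζ hζ
  obtain ⟨a, ha, rfl⟩ := mem_params.mp hζ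
  obtain ⟨h1, h2, -, -⟩ := (hS a).first ha
  unfold par
  exact neg_ne_zero.mpr (div_ne_zero (ne_zero_of_norm_one h2) ha)

/-- **Classification of tight nets.** -/
theorem TightNet.classification {N : ℕ} {T : Type} {idx : T → Fin 3 → Fin N}
    {z : Fin 3 → Fin N → EuclideanSpace ℂ (Fin 4)} (h : TightNet N idx z) (hN : 0 < N) :
    ∃ n : ℕ, 2 ≤ n ∧ N = 2 * n ∧ ∃ y : Fin 4 → EuclideanSpace ℂ (Fin 4),
      LinearIndependent ℂ y ∧
      (∀ a, OnPencil n (y 0) (y 1) (z 0 a) ∨ OnPencil n (y 2) (y 3) (z 0 a)) ∧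
      (∀ a, OnPencil n (y 0) (y 2) (z 1 a) ∨ OnPencil n (y 1) (y 3) (z 1 a)) ∧
      (∀ a, OnPencil n (y 0) (y 3) (z 2 a) ∨ OnPencil n (y 1) (y 2) (z 2 a)) := by
  classical
  have h4 := h.four_le hN
  obtain ⟨x, C0, C1, C2⟩ := h.exists_coordinates hN
  have n01 : (0 : Fin 3) ≠ 1 := by decide
  have n02 : (0 : Fin 3) ≠ 2 := by decide
  have n12 : (1 : Fin 3) ≠ 2 := by decide
  have p0123 : ∀ f : Fin 4 → EuclideanSpace ℂ (Fin 4), ∑ k, f k = f 0 + f 1 + f 2 + f 3 :=
    fun f => Fin.sum_univ_four f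
  have p2301 : ∀ f : Fin 4 → EuclideanSpace ℂ (Fin 4), ∑ k, f k = f 2 + f 3 + f 0 + f 1 :=
    fun f => by rw [Fin.sum_univ_four]; abel
  have p0213 : ∀ f : Fin 4 → EuclideanSpace ℂ (Fin 4), ∑ k, f k = f 0 + f 2 + f 1 + f 3 :=
    fun f => by rw [Fin.sum_univ_four]; abel
  have p1302 : ∀ f : Fin 4 → EuclideanSpace ℂ (Fin 4), ∑ k, f k = f 1 + f 3 + f 0 + f 2 :=
    fun f => by rw [Fin.sum_univ_four]; abel
  have p0312 : ∀ f : Fin 4 → EuclideanSpace ℂ (Fin 4), ∑ k, f k = f 0 + f 3 + f 1 + f 2 :=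
    fun f => by rw [Fin.sum_univ_four]; abel
  have p1203 : ∀ f : Fin 4 → EuclideanSpace ℂ (Fin 4), ∑ k, f k = f 1 + f 2 + f 0 + f 3 :=
    fun f => by rw [Fin.sum_univ_four]; abel
  have C0' := fun a => (C0 a).swap
  have C1' := fun a => (C1 a).swap
  have C2' := fun a => (C2 a).swap
  set n := (params x z 0 0 1).card with hn
  have cA : 2 * (params x z 0 0 1).card = N := h.card_params x 0 p0123 C0
  have cA' : 2 * (params x z 0 2 3).card = N := h.card_params x 0 p2301 C0'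
  have cB : 2 * (params x z 1 0 2).card = N := h.card_params x 1 p0213 C1
  have cB' : 2 * (params x z 1 1 3).card = N := h.card_params x 1 p1302 C1'
  have cC : 2 * (params x z 2 0 3).card = N := h.card_params x 2 p0312 C2
  have cC' : 2 * (params x z 2 1 2).card = N := h.card_params x 2 p1203 C2'
  -- coordinates of the third point
  have third : ∀ a b : Fin N, ∃ (c : Fin N) (u g : ℂ), u ≠ 0 ∧ g ≠ 0 ∧ ∀ k : Fin 4,
      inner ℂ (x k) (z 2 c) = u * (inner ℂ (x k) (z 1 b) - g * inner ℂ (x k) (z 0 a)) := by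
    intro a b
    obtain ⟨t, -, -, u, hu, hc⟩ := h.exists_third n01 n02 n12 a b
    refine ⟨idx t 2, u, inner ℂ (z 0 a) (z 1 b), norm_eq_of_unit_smul hu,
      ne_zero_of_norm_one (h.cross _ _ _ _ n01), fun k => ?_⟩
    rw [hc]
    unfold refl
    rw [inner_smul_right, inner_sub_right, inner_smul_right]
  obtain ⟨ζ0, η0, η1, zζ0, zη0, zη1, qA, qB, qB', qC', qC, qA'⟩ :=
    coset_argument (n := n) (by omega) (A := params x z 0 0 1) (A' := params x z 0 2 3)
      (B := params x z 1 0 2) (B' := params x z 1 1 3) (C := params x z 2 0 3)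
      (C' := params x z 2 1 2) (by omega) (by omega) (by omega) (by omega) (by omega) (by omega)
      (params_ne_zero C0) (params_ne_zero C1) (params_ne_zero C1')
      (params_ne_zero C2) (params_ne_zero C2')
      (by
        intro ζ hζ η hη
        obtain ⟨a, ha, rfl⟩ := mem_params.mp hζ
        obtain ⟨b, hb, rfl⟩ := mem_params.mp hη
        obtain ⟨na0, na1, a2, a3⟩ := (C0 a).first ha
        obtain ⟨nb0, nb2, b1, b3⟩ := (C1 b).first hb
        obtain ⟨c, u, g, hu, hg, hc⟩ := third a b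
        have c3 : inner ℂ (x 3) (z 2 c) = (0:ℂ) := by rw [hc, a3, b3]; ring
        have za1 := ne_zero_of_norm_one na1
        have c1 : inner ℂ (x 1) (z 2 c) ≠ (0:ℂ) := by
          rw [hc, b1]
          simp only [zero_sub, mul_neg, ne_eq, neg_eq_zero]
          exact mul_ne_zero hu (mul_ne_zero hg za1)
        obtain ⟨-, -, c0, -⟩ := (C2' c).first c1
        rw [hc] at c0
        have c0' := (mul_eq_zero.mp c0).resolve_left hu
        refine mem_params.mpr ⟨c, c1, ?_⟩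
        unfold par
        rw [hc 1, hc 2, a2, b1]
        have e : inner ℂ (x 0) (z 1 b) = g * inner ℂ (x 0) (z 0 a) := by linear_combination c0'
        rw [e]
        field_simp
        ring)
      (by
        intro ζ hζ η hη
        obtain ⟨a, ha, rfl⟩ := mem_params.mp hζ
        obtain ⟨b, hb, rfl⟩ := mem_params.mp hη
        obtain ⟨na0, na1, a2, a3⟩ := (C0 a).first ha
        obtain ⟨nb1, nb3, b0, b2⟩ := (C1' b).first hb
        obtain ⟨c, u, g, hu, hg, hc⟩ := third a b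
        have za1 := ne_zero_of_norm_one na1
        have c0 : inner ℂ (x 0) (z 2 c) ≠ (0:ℂ) := by
          rw [hc, b0]
          simp only [zero_sub, mul_neg, ne_eq, neg_eq_zero]
          exact mul_ne_zero hu (mul_ne_zero hg ha)
        obtain ⟨-, -, c1, -⟩ := (C2 c).first c0
        rw [hc] at c1
        have c1' := (mul_eq_zero.mp c1).resolve_left hu
        refine mem_params.mpr ⟨c, c0, ?_⟩
        unfold par
        rw [hc 0, hc 3, a3, b0]
        have e : inner ℂ (x 1) (z 1 b) = g * inner ℂ (x 1) (z 0 a) := by linear_combination c1'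
        rw [e]
        field_simp
        ring)
      (by
        intro η hη ξ hξ
        obtain ⟨a, ha, rfl⟩ := mem_params.mp hξ
        obtain ⟨b, hb, rfl⟩ := mem_params.mp hη
        obtain ⟨na2, na3, a0, a1⟩ := (C0' a).first ha
        obtain ⟨nb0, nb2, b1, b3⟩ := (C1 b).first hb
        obtain ⟨c, u, g, hu, hg, hc⟩ := third a b
        have c0 : inner ℂ (x 0) (z 2 c) ≠ (0:ℂ) := by
          rw [hc, a0, mul_zero, sub_zero]
          exact mul_ne_zero hu hb
        obtain ⟨-, -, -, c2⟩ := (C2 c).first c0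
        rw [hc] at c2
        have c2' := (mul_eq_zero.mp c2).resolve_left hu
        refine mem_params.mpr ⟨c, c0, ?_⟩
        unfold par
        rw [hc 0, hc 3, a0, b3]
        have e : inner ℂ (x 2) (z 1 b) = g * inner ℂ (x 2) (z 0 a) := by linear_combination c2'
        rw [e]
        have hb' : inner ℂ (x 0) (z 1 b) ≠ (0:ℂ) := hb
        field_simp
        ring_nf
        rw [mul_assoc, mul_inv_cancel₀ hb', mul_one])
  -- the rescaled basis
  have hon : Orthonormal ℂ x := x.orthonormal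
  let y : Fin 4 → EuclideanSpace ℂ (Fin 4) := ![x 0, ζ0 • x 1, η0 • x 2, (ζ0 * η1) • x 3]
  have y0 : y 0 = x 0 := rfl
  have y1 : y 1 = ζ0 • x 1 := rfl
  have y2 : y 2 = η0 • x 2 := rfl
  have y3 : y 3 = (ζ0 * η1) • x 3 := rfl
  refine ⟨n, by omega, by omega, y, ?_, ?_, ?_, ?_⟩
  · rw [Fintype.linearIndependent_iff]
    intro g hg
    rw [Fin.sum_univ_four, y0, y1, y2, y3] at hg
    have h5 := Fintype.linearIndependent_iff.mp hon.linearIndependent
      ![g 0, g 1 * ζ0, g 2 * η0, g 3 * (ζ0 * η1)] (by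
        rw [Fin.sum_univ_four]
        simp only [Matrix.cons_val]
        rw [← hg]
        simp only [smul_smul])
    intro i
    fin_cases i
    · exact h5 0
    · exact (mul_eq_zero.mp (h5 1)).resolve_right zζ0
    · exact (mul_eq_zero.mp (h5 2)).resolve_right zη0
    · exact (mul_eq_zero.mp (h5 3)).resolve_right (mul_ne_zero zζ0 zη1)
  · intro a
    by_cases ha : inner ℂ (x 0) (z 0 a) = (0:ℂ)
    · right
      have ha2 : inner ℂ (x 2) (z 0 a) ≠ (0:ℂ) := by
        rcases C0 a with hh | hh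
        · exact absurd ha (ne_zero_of_norm_one hh.1)
        · exact ne_zero_of_norm_one hh.1
      have hr := (C0' a).repr p2301 ha2
      have hq := qA' _ (mem_params.mpr ⟨a, ha2, rfl⟩)
      refine ⟨inner ℂ (x 2) (z 0 a) * η0⁻¹, _, mul_ne_zero ha2 (inv_ne_zero zη0), hq, ?_⟩
      conv_lhs => rw [hr]
      rw [y2, y3, smul_smul, mul_smul, smul_sub η0⁻¹, smul_smul η0⁻¹, smul_smul η0⁻¹,
        inv_mul_cancel₀ zη0, one_smul]
      congr 3
      field_simp
    · left
      have hr := (C0 a).repr p0123 ha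
      have hq := qA _ (mem_params.mpr ⟨a, ha, rfl⟩)
      refine ⟨inner ℂ (x 0) (z 0 a), _, ha, hq, ?_⟩
      conv_lhs => rw [hr]
      rw [y0, y1, smul_smul]
      congr 3
      field_simp
  · intro a
    by_cases ha : inner ℂ (x 0) (z 1 a) = (0:ℂ)
    · right
      have ha1 : inner ℂ (x 1) (z 1 a) ≠ (0:ℂ) := by
        rcases C1 a with hh | hh
        · exact absurd ha (ne_zero_of_norm_one hh.1)
        · exact ne_zero_of_norm_one hh.1
      have hr := (C1' a).repr p1302 ha1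
      have hq := qB' _ (mem_params.mpr ⟨a, ha1, rfl⟩)
      refine ⟨inner ℂ (x 1) (z 1 a) * ζ0⁻¹, _, mul_ne_zero ha1 (inv_ne_zero zζ0), hq, ?_⟩
      conv_lhs => rw [hr]
      rw [y1, y3, smul_smul, mul_smul, smul_sub ζ0⁻¹, smul_smul ζ0⁻¹, smul_smul ζ0⁻¹,
        inv_mul_cancel₀ zζ0, one_smul]
      congr 3
      field_simp
    · left
      have hr := (C1 a).repr p0213 ha
      have hq := qB _ (mem_params.mpr ⟨a, ha, rfl⟩)
      refine ⟨inner ℂ (x 0) (z 1 a), _, ha, hq, ?_⟩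
      conv_lhs => rw [hr]
      rw [y0, y2, smul_smul]
      congr 3
      field_simp
  · intro a
    by_cases ha : inner ℂ (x 0) (z 2 a) = (0:ℂ)
    · right
      have ha1 : inner ℂ (x 1) (z 2 a) ≠ (0:ℂ) := by
        rcases C2 a with hh | hh
        · exact absurd ha (ne_zero_of_norm_one hh.1)
        · exact ne_zero_of_norm_one hh.1
      have hr := (C2' a).repr p1203 ha1
      have hq := qC' _ (mem_params.mpr ⟨a, ha1, rfl⟩)
      refine ⟨inner ℂ (x 1) (z 2 a) * ζ0⁻¹, _, mul_ne_zero ha1 (inv_ne_zero zζ0), hq, ?_⟩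
      conv_lhs => rw [hr]
      rw [y1, y2, smul_smul, mul_smul, smul_sub ζ0⁻¹, smul_smul ζ0⁻¹, smul_smul ζ0⁻¹,
        inv_mul_cancel₀ zζ0, one_smul]
      congr 3
      field_simp
    · left
      have hr := (C2 a).repr p0312 ha
      have hq := qC _ (mem_params.mpr ⟨a, ha, rfl⟩)
      refine ⟨inner ℂ (x 0) (z 2 a), _, ha, hq, ?_⟩
      conv_lhs => rw [hr]
      rw [y0, y3, smul_smul]
      congr 3
      field_simp

end Pool.Agent.H67
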