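import Mathlib

/-!
# The key identity for `k`-nets in a `d`-dimensional Hermitian space
-/

open Finset ComplexConjugate

namespace Pool.Agent.H67

/-- Gram matrix identity. -/
theorem gram_identity {α β : Type*} [Fintype α] [Fintype β] {d : ℕ} (x : α → Fin d → ℂ)
    (y : β → Fin d → ℂ) :
    ((∑ a, ∑ b, ‖∑ l, conj (x a l) * y b l‖ ^ 2 : ℝ) : ℂ)
      = ∑ k, ∑ l, (∑ a, conj (x a k) * x a l) * (∑ b, y b k * conj (y b l)) := by
  push_cast
  have h1 : ∀ a b, ((‖∑ l, conj (x a l) * y b l‖ : ℝ) : ℂ) ^ 2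
      = ∑ k, ∑ l, (conj (x a k) * x a l) * (y b k * conj (y b l)) := by
    intro a b
    rw [← Complex.mul_conj', map_sum, Finset.sum_mul_sum]
    refine Finset.sum_congr rfl fun k _ => Finset.sum_congr rfl fun l _ => ?_
    rw [map_mul, Complex.conj_conj]
    ring
  simp_rw [h1]
  -- move the sums over a, b inside
  calc ∑ a, ∑ b, ∑ k, ∑ l, (conj (x a k) * x a l) * (y b k * conj (y b l))
      = ∑ a, ∑ k, ∑ b, ∑ l, (conj (x a k) * x a l) * (y b k * conj (y b l)) := by
        refine Finset.sum_congr rfl fun a _ => ?_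
        rw [Finset.sum_comm]
    _ = ∑ k, ∑ a, ∑ b, ∑ l, (conj (x a k) * x a l) * (y b k * conj (y b l)) := by
        rw [Finset.sum_comm]
    _ = ∑ k, ∑ a, ∑ l, ∑ b, (conj (x a k) * x a l) * (y b k * conj (y b l)) := by
        refine Finset.sum_congr rfl fun k _ => Finset.sum_congr rfl fun a _ => ?_
        rw [Finset.sum_comm]
    _ = ∑ k, ∑ l, ∑ a, ∑ b, (conj (x a k) * x a l) * (y b k * conj (y b l)) := by
        refine Finset.sum_congr rfl fun k _ => ?_
        rw [Finset.sum_comm]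
    _ = _ := by
        refine Finset.sum_congr rfl fun k _ => Finset.sum_congr rfl fun l _ => ?_
        rw [Finset.sum_mul_sum]

/-- inner product of two coordinate vectors, conjugate linear in the first one -/
noncomputable def hip {d : ℕ} (x y : Fin d → ℂ) : ℂ := ∑ l, conj (x l) * y l

theorem hip_self_re {d : ℕ} (x : Fin d → ℂ) : ((hip x x).re : ℂ) = hip x x := by
  unfold hip
  rw [Complex.re_sum, Complex.ofReal_sum]
  refine Finset.sum_congr rfl fun l _ => ?_
  rw [mul_comm, Complex.mul_conj]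
  simp

variable {k d N : ℕ} {T : Type*} [Fintype T]

theorem sum_line_pair (idx : T → Fin k → Fin N)
    (hbij : ∀ i j, i ≠ j → Function.Bijective (fun t => (idx t i, idx t j)))
    {i j : Fin k} (hij : i ≠ j) {M : Type*} [AddCommMonoid M] (f : Fin N → Fin N → M) :
    ∑ t, f (idx t i) (idx t j) = ∑ a, ∑ b, f a b := by
  rw [← Fintype.sum_prod_type' (f := f)]
  exact (hbij i j hij).sum_comp (fun p : Fin N × Fin N => f p.1 p.2)

theorem sum_line_point (idx : T → Fin k → Fin N)
    (hbij : ∀ i j, i ≠ j → Function.Bijective (fun t => (idx t i, idx t j)))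
    (hk : 2 ≤ k) (i : Fin k) (f : Fin N → ℝ) :
    ∑ t, f (idx t i) = N * ∑ a, f a := by
  obtain ⟨j, hj⟩ : ∃ j : Fin k, i ≠ j := by
    have : Nontrivial (Fin k) := Fin.nontrivial_iff_two_le.mpr hk
    obtain ⟨j, hj⟩ := exists_ne i
    exact ⟨j, hj.symm⟩
  have := sum_line_pair idx hbij hj (fun a _ => f a)
  rw [this, Finset.mul_sum]
  refine Finset.sum_congr rfl fun a _ => ?_
  simp

/-- sum over off-diagonal pairs -/
theorem sum_offdiag {M : Type*} [AddCommGroup M] (f : Fin k → Fin k → M) :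
    ∑ i, ∑ j, (if i = j then 0 else f i j) = ∑ i, ∑ j, f i j - ∑ i, f i i := by
  rw [← Finset.sum_sub_distrib]
  refine Finset.sum_congr rfl fun i _ => ?_
  have : ∑ j, (if i = j then 0 else f i j) + f i i = ∑ j, f i j := by
    have h : ∀ j, f i j = (if i = j then 0 else f i j) + (if i = j then f i j else 0) := by
      intro j; by_cases h : i = j <;> simp [h]
    rw [Finset.sum_congr rfl (fun j _ => h j), Finset.sum_add_distrib]
    simp
  rw [← this]; abel

/-- **Key theorem.** The equality case. -/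
theorem key_equality (idx : T → Fin k → Fin N)
    (hbij : ∀ i j, i ≠ j → Function.Bijective (fun t => (idx t i, idx t j)))
    (hk : 2 ≤ k) (v : Fin k → Fin N → Fin d → ℂ)
    (hON : ∀ m l : Fin d, ∑ i, ∑ a, conj (v i a m) * v i a l = if m = l then 1 else 0)
    (Q : T → Fin k → Fin k → ℂ) (q : T → Fin k → ℝ) (hQq : ∀ t i, Q t i i = (q t i : ℂ))
    (hQv : ∀ t i l, ∑ j, Q t i j * v j (idx t j) l = v i (idx t i) l)
    (hQ2 : ∀ t, ∑ i, ∑ j, ‖Q t i j‖ ^ 2 = 2)
    (hq2 : ∀ t, ∑ i, q t i = 2)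
    (hbal : ∀ u : Fin k → Fin N → ℝ, ∑ t, ∑ i, (q t i - 2 / k) * u i (idx t i) = 0)
    (κ : ℝ)
    (hz : (d : ℝ) * (k - 1) / k - 2 * (k - 2) / k * (d * (κ * N) - (κ * N) ^ 2) = 0) (hκ : κ ≠ 0) :
    (∀ t i j, i ≠ j → hip (v i (idx t i)) (v j (idx t j)) = κ * conj (Q t i j)) ∧
    (∀ i m l, ∑ a, conj (v i a m) * v i a l = if m = l then ((1 / k : ℝ) : ℂ) else 0) ∧
    (∀ t i, q t i = 2 / k) := by
  classical
  have hk0 : (k : ℝ) ≠ 0 := by
    have : (0:ℝ) < k := by exact_mod_cast (by omega : 0 < k)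
    exact this.ne'
  -- notation
  set G : Fin k → Fin d → Fin d → ℂ := fun i m l => ∑ a, conj (v i a m) * v i a l with hG
  set S : ℝ := ∑ i, ∑ m, ∑ l, ‖G i m l‖ ^ 2 with hS
  -- trace
  have htrace : ∑ i, ∑ a, (hip (v i a) (v i a)).re = d := by
    have h1 : ((∑ i, ∑ a, (hip (v i a) (v i a)).re : ℝ) : ℂ) = d := by
      push_cast
      simp_rw [hip_self_re]
      unfold hip
      calc ∑ i, ∑ a, ∑ l, conj (v i a l) * v i a l
          = ∑ i, ∑ l, ∑ a, conj (v i a l) * v i a l := by
            refine Finset.sum_congr rfl fun i _ => ?_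
            rw [Finset.sum_comm]
        _ = ∑ l, ∑ i, ∑ a, conj (v i a l) * v i a l := by rw [Finset.sum_comm]
        _ = ∑ l : Fin d, (1 : ℂ) := by
            refine Finset.sum_congr rfl fun l _ => ?_
            rw [hON l l]; simp
        _ = d := by simp
    exact_mod_cast h1
  -- (P1) + (P3)
  have hsame : ∀ i, ∑ a, ∑ b, ‖hip (v i a) (v i b)‖ ^ 2 = ∑ m, ∑ l, ‖G i m l‖ ^ 2 := by
    intro i
    have h1 := gram_identity (v i) (v i)
    have h2 : ((∑ m, ∑ l, ‖G i m l‖ ^ 2 : ℝ) : ℂ)
        = ∑ m, ∑ l, (∑ a, conj (v i a m) * v i a l) * (∑ b, v i b m * conj (v i b l)) := by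
      push_cast
      refine Finset.sum_congr rfl fun m _ => Finset.sum_congr rfl fun l _ => ?_
      rw [← Complex.mul_conj']
      congr 1
      simp only [hG]
      rw [map_sum]
      refine Finset.sum_congr rfl fun a _ => ?_
      rw [map_mul, Complex.conj_conj]
    have h3 := h1.trans h2.symm
    have h4 : (∑ a, ∑ b, ‖∑ l, conj (v i a l) * v i b l‖ ^ 2 : ℝ) = ∑ m, ∑ l, ‖G i m l‖ ^ 2 := by
      exact_mod_cast h3
    exact h4
  have hall : ∑ i, ∑ j, ∑ a, ∑ b, ‖hip (v i a) (v j b)‖ ^ 2 = d := by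
    have h1 := gram_identity (fun p : Fin k × Fin N => v p.1 p.2) (fun p : Fin k × Fin N => v p.1 p.2)
    have h2 : ∀ m l : Fin d, (∑ p : Fin k × Fin N, conj (v p.1 p.2 m) * v p.1 p.2 l)
        = if m = l then 1 else 0 := by
      intro m l
      rw [Fintype.sum_prod_type]
      exact hON m l
    have h3 : ∀ m l : Fin d, (∑ p : Fin k × Fin N, v p.1 p.2 m * conj (v p.1 p.2 l))
        = if m = l then 1 else 0 := by
      intro m l
      have h4 := congrArg conj (h2 m l)
      rw [map_sum] at h4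
      have h5 : ∀ p : Fin k × Fin N, conj (conj (v p.1 p.2 m) * v p.1 p.2 l)
          = v p.1 p.2 m * conj (v p.1 p.2 l) := by
        intro p; rw [map_mul, Complex.conj_conj]
      simp_rw [h5] at h4
      rw [h4]
      by_cases h : m = l <;> simp [h]
    have h4 : (∑ m : Fin d, ∑ l : Fin d, (∑ p : Fin k × Fin N, conj (v p.1 p.2 m) * v p.1 p.2 l)
        * (∑ p : Fin k × Fin N, v p.1 p.2 m * conj (v p.1 p.2 l))) = d := by
      simp_rw [h2, h3]
      simp
    rw [h4] at h1
    have h5 : (∑ p : Fin k × Fin N, ∑ p' : Fin k × Fin N,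
        ‖∑ l, conj (v p.1 p.2 l) * v p'.1 p'.2 l‖ ^ 2 : ℝ) = d := by exact_mod_cast h1
    rw [Fintype.sum_prod_type] at h5
    simp_rw [Fintype.sum_prod_type] at h5
    rw [← h5]
    refine Finset.sum_congr rfl fun i _ => ?_
    rw [Finset.sum_comm]
    rfl
  have hcross : ∑ i, ∑ j, (if i = j then 0 else ∑ a, ∑ b, ‖hip (v i a) (v j b)‖ ^ 2) = d - S := by
    rw [sum_offdiag, hall, hS]
    congr 1
    exact Finset.sum_congr rfl fun i _ => hsame i
  have hcrossT : ∑ t, ∑ i, ∑ j, (if i = j then 0 else ‖hip (v i (idx t i)) (v j (idx t j))‖ ^ 2)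
      = d - S := by
    rw [← hcross, Finset.sum_comm]
    refine Finset.sum_congr rfl fun i _ => ?_
    rw [Finset.sum_comm]
    refine Finset.sum_congr rfl fun j _ => ?_
    by_cases hij : i = j
    · simp [hij]
    · simp only [hij, if_false]
      exact sum_line_pair idx hbij hij (fun a b => ‖hip (v i a) (v j b)‖ ^ 2)
  -- (P4)
  have hQH : ∀ t, ∑ i, ∑ j, hip (v i (idx t i)) (v j (idx t j)) * Q t i j
      = ∑ i, hip (v i (idx t i)) (v i (idx t i)) := by
    intro t
    refine Finset.sum_congr rfl fun i _ => ?_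
    unfold hip
    simp_rw [Finset.sum_mul]
    rw [Finset.sum_comm]
    refine Finset.sum_congr rfl fun l _ => ?_
    have hq := hQv t i l
    calc ∑ j, conj (v i (idx t i) l) * v j (idx t j) l * Q t i j
        = conj (v i (idx t i) l) * ∑ j, Q t i j * v j (idx t j) l := by
          rw [Finset.mul_sum]
          refine Finset.sum_congr rfl fun j _ => ?_
          ring
      _ = conj (v i (idx t i) l) * v i (idx t i) l := by rw [hq]
  have hoff : ∀ t, (∑ i, ∑ j, (if i = j then 0 else hip (v i (idx t i)) (v j (idx t j)) * Q t i j)).re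
      = ∑ i, (1 - q t i) * (hip (v i (idx t i)) (v i (idx t i))).re := by
    intro t
    rw [sum_offdiag, hQH t, Complex.sub_re, Complex.re_sum, Complex.re_sum, ← Finset.sum_sub_distrib]
    refine Finset.sum_congr rfl fun i _ => ?_
    rw [hQq, Complex.re_mul_ofReal]
    ring
  have hsumoff : ∑ t, ∑ i, (1 - q t i) * (hip (v i (idx t i)) (v i (idx t i))).re
      = (1 - 2 / k) * (N * d) := by
    have h1 : ∑ t, ∑ i, (1 - q t i) * (hip (v i (idx t i)) (v i (idx t i))).re
        = (1 - 2 / k) * ∑ t, ∑ i, (hip (v i (idx t i)) (v i (idx t i))).re := by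
      have h2 := hbal (fun i a => (hip (v i a) (v i a)).re)
      have h3 : ∑ t, ∑ i, (1 - q t i) * (hip (v i (idx t i)) (v i (idx t i))).re
          + ∑ t, ∑ i, (q t i - 2 / k) * (hip (v i (idx t i)) (v i (idx t i))).re
          = (1 - 2 / k) * ∑ t, ∑ i, (hip (v i (idx t i)) (v i (idx t i))).re := by
        rw [Finset.mul_sum, ← Finset.sum_add_distrib]
        refine Finset.sum_congr rfl fun t _ => ?_
        rw [Finset.mul_sum, ← Finset.sum_add_distrib]
        refine Finset.sum_congr rfl fun i _ => ?_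
        ring
      rw [← h3, h2, add_zero]
    rw [h1]
    congr 1
    rw [Finset.sum_comm, ← htrace, Finset.mul_sum]
    refine Finset.sum_congr rfl fun i _ => ?_
    exact sum_line_point idx hbij hk i (fun a => (hip (v i a) (v i a)).re)
  -- number of lines
  have hcard : (Fintype.card T : ℝ) = (N : ℝ) ^ 2 := by
    have : Nontrivial (Fin k) := Fin.nontrivial_iff_two_le.mpr hk
    obtain ⟨i, j, hij⟩ := exists_pair_ne (Fin k)
    have := Fintype.card_of_bijective (hbij i j hij)
    rw [this]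
    simp [sq]
  -- expansion of the square
  have hsq : ∀ t, ∑ i, ∑ j, (if i = j then 0 else
        ‖hip (v i (idx t i)) (v j (idx t j)) - κ * conj (Q t i j)‖ ^ 2)
      = ∑ i, ∑ j, (if i = j then 0 else ‖hip (v i (idx t i)) (v j (idx t j))‖ ^ 2)
        - 2 * κ * (∑ i, (1 - q t i) * (hip (v i (idx t i)) (v i (idx t i))).re)
        + κ ^ 2 * (2 - ∑ i, q t i ^ 2) := by
    intro t
    rw [← hoff t]
    have h1 : 2 - ∑ i, q t i ^ 2 = ∑ i, ∑ j, (if i = j then 0 else ‖Q t i j‖ ^ 2) := by
      rw [sum_offdiag, hQ2 t]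
      congr 1
      refine Finset.sum_congr rfl fun i _ => ?_
      rw [hQq]
      simp
    rw [h1, Complex.re_sum, Finset.mul_sum, Finset.mul_sum, ← Finset.sum_sub_distrib,
      ← Finset.sum_add_distrib]
    refine Finset.sum_congr rfl fun i _ => ?_
    rw [Complex.re_sum, Finset.mul_sum, Finset.mul_sum, ← Finset.sum_sub_distrib,
      ← Finset.sum_add_distrib]
    refine Finset.sum_congr rfl fun j _ => ?_
    by_cases hij : i = j
    · simp [hij]
    · simp only [hij, if_false]
      rw [← Complex.normSq_eq_norm_sq, ← Complex.normSq_eq_norm_sq, ← Complex.normSq_eq_norm_sq,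
        Complex.normSq_sub, map_mul, Complex.normSq_ofReal, Complex.normSq_conj]
      rw [map_mul, Complex.conj_ofReal, Complex.conj_conj]
      have : (hip (v i (idx t i)) (v j (idx t j)) * (↑κ * Q t i j)).re
          = κ * (hip (v i (idx t i)) (v j (idx t j)) * Q t i j).re := by
        rw [mul_left_comm, Complex.re_ofReal_mul]
      rw [this]
      ring
  -- Gram part
  have hGpart : ∑ i, ∑ m, ∑ l, ‖G i m l - (if m = l then ((1 / k : ℝ) : ℂ) else 0)‖ ^ 2
      = S - d / k := by
    have h1 : ∀ i m l, ‖G i m l - (if m = l then ((1 / k : ℝ) : ℂ) else 0)‖ ^ 2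
        = ‖G i m l‖ ^ 2 - 2 * (1 / k) * (if m = l then (G i m l).re else 0)
          + (if m = l then (1 / k : ℝ) ^ 2 else 0) := by
      intro i m l
      by_cases h : m = l
      · simp only [h, if_true]
        rw [← Complex.normSq_eq_norm_sq, ← Complex.normSq_eq_norm_sq, Complex.normSq_sub,
          Complex.normSq_ofReal, Complex.conj_ofReal, Complex.re_mul_ofReal]
        ring
      · simp [h]
    simp_rw [h1, Finset.sum_add_distrib, Finset.sum_sub_distrib]
    rw [← hS]
    have h2 : ∑ i, ∑ m, ∑ l, (2 * (1 / (k:ℝ)) * (if m = l then (G i m l).re else 0)) = 2 * (1 / k) * d := by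
      simp_rw [← Finset.mul_sum]
      congr 1
      rw [← htrace]
      refine Finset.sum_congr rfl fun i _ => ?_
      have h3 : ((∑ m, ∑ l, (if m = l then (G i m l).re else 0) : ℝ)) = ∑ m, (G i m m).re := by
        refine Finset.sum_congr rfl fun m _ => ?_
        simp
      rw [h3]
      simp only [hG]
      simp_rw [Complex.re_sum]
      rw [Finset.sum_comm]
      refine Finset.sum_congr rfl fun a _ => ?_
      unfold hip
      rw [Complex.re_sum]
    have h3 : ∑ i : Fin k, ∑ m : Fin d, ∑ l : Fin d, (if m = l then (1 / k : ℝ) ^ 2 else 0) = d / k := by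
      simp only [Finset.sum_ite_eq, Finset.mem_univ, if_true, Finset.sum_const, Finset.card_univ,
        Fintype.card_fin, nsmul_eq_mul]
      field_simp
    rw [h2, h3]
    field_simp
    ring
  -- diagonal part
  have hdiag : ∀ t, ∑ i, (q t i - 2 / k) ^ 2 = ∑ i, q t i ^ 2 - 4 / k := by
    intro t
    have h1 : ∀ i, (q t i - 2 / k) ^ 2 = q t i ^ 2 - (4 / k) * q t i + (2 / k) ^ 2 := by
      intro i; ring
    simp_rw [h1, Finset.sum_add_distrib, Finset.sum_sub_distrib, ← Finset.mul_sum]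
    rw [hq2 t]
    simp only [Finset.sum_const, Finset.card_univ, Fintype.card_fin, nsmul_eq_mul]
    field_simp
    ring
  -- the total
  have htotal : ∑ t, ∑ i, ∑ j, (if i = j then 0 else
        ‖hip (v i (idx t i)) (v j (idx t j)) - κ * conj (Q t i j)‖ ^ 2)
      + ∑ i, ∑ m, ∑ l, ‖G i m l - (if m = l then ((1 / k : ℝ) : ℂ) else 0)‖ ^ 2
      + κ ^ 2 * ∑ t, ∑ i, (q t i - 2 / k) ^ 2 = 0 := by
    simp_rw [hsq, hdiag]
    rw [hGpart]
    simp_rw [Finset.sum_add_distrib, Finset.sum_sub_distrib, ← Finset.mul_sum]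
    rw [hcrossT, hsumoff]
    simp only [Finset.sum_sub_distrib, Finset.sum_const, Finset.card_univ, nsmul_eq_mul]
    rw [hcard]
    have : (↑d - S) - 2 * κ * ((1 - 2 / ↑k) * (↑N * ↑d))
        + κ ^ 2 * ((N:ℝ) ^ 2 * 2 - ∑ t, ∑ i, q t i ^ 2) + (S - ↑d / ↑k)
        + κ ^ 2 * (∑ t, ∑ i, q t i ^ 2 - (N:ℝ) ^ 2 * (4 / ↑k))
        = (d : ℝ) * (k - 1) / k - 2 * (k - 2) / k * (d * (κ * N) - (κ * N) ^ 2) := by
      field_simp
      ring
    rw [this, hz]
  have hn1 : 0 ≤ ∑ t, ∑ i, ∑ j, (if i = j then 0 else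
        ‖hip (v i (idx t i)) (v j (idx t j)) - κ * conj (Q t i j)‖ ^ 2) := by
    refine Finset.sum_nonneg fun t _ => Finset.sum_nonneg fun i _ => Finset.sum_nonneg fun j _ => ?_
    split_ifs <;> positivity
  have hn2 : 0 ≤ ∑ i, ∑ m, ∑ l, ‖G i m l - (if m = l then ((1 / k : ℝ) : ℂ) else 0)‖ ^ 2 := by
    positivity
  have hn3 : 0 ≤ κ ^ 2 * ∑ t, ∑ i, (q t i - 2 / k) ^ 2 := by positivity
  have e1 : ∑ t, ∑ i, ∑ j, (if i = j then 0 else
        ‖hip (v i (idx t i)) (v j (idx t j)) - κ * conj (Q t i j)‖ ^ 2) = 0 := by linarith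
  have e2 : ∑ i, ∑ m, ∑ l, ‖G i m l - (if m = l then ((1 / k : ℝ) : ℂ) else 0)‖ ^ 2 = 0 := by
    linarith
  have e3 : κ ^ 2 * ∑ t, ∑ i, (q t i - 2 / k) ^ 2 = 0 := by linarith
  refine ⟨?_, ?_, ?_⟩
  · intro t i j hij
    rw [Finset.sum_eq_zero_iff_of_nonneg] at e1
    · have h1 := e1 t (Finset.mem_univ t)
      rw [Finset.sum_eq_zero_iff_of_nonneg] at h1
      · have h2 := h1 i (Finset.mem_univ i)
        rw [Finset.sum_eq_zero_iff_of_nonneg] at h2
        · have h3 := h2 j (Finset.mem_univ j)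
          rw [if_neg hij] at h3
          have h4 : ‖hip (v i (idx t i)) (v j (idx t j)) - κ * conj (Q t i j)‖ = 0 := by
            exact pow_eq_zero_iff (two_ne_zero) |>.mp h3
          rw [norm_eq_zero, sub_eq_zero] at h4
          exact h4
        · intro j _; split_ifs <;> positivity
      · intro i _; exact Finset.sum_nonneg fun j _ => by split_ifs <;> positivity
    · intro t _
      exact Finset.sum_nonneg fun i _ => Finset.sum_nonneg fun j _ => by split_ifs <;> positivity
  · intro i m l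
    rw [Finset.sum_eq_zero_iff_of_nonneg] at e2
    · have h1 := e2 i (Finset.mem_univ i)
      rw [Finset.sum_eq_zero_iff_of_nonneg] at h1
      · have h2 := h1 m (Finset.mem_univ m)
        rw [Finset.sum_eq_zero_iff_of_nonneg] at h2
        · have h3 := h2 l (Finset.mem_univ l)
          have h4 : ‖G i m l - (if m = l then ((1 / k : ℝ) : ℂ) else 0)‖ = 0 :=
            pow_eq_zero_iff (two_ne_zero) |>.mp h3
          rw [norm_eq_zero, sub_eq_zero] at h4
          exact h4
        · intro l _; positivity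
      · intro m _; positivity
    · intro i _; positivity
  · intro t i
    have h0 : ∑ t, ∑ i, (q t i - 2 / k) ^ 2 = 0 := by
      rcases mul_eq_zero.mp e3 with h | h
      · exact absurd (pow_eq_zero_iff (two_ne_zero) |>.mp h) hκ
      · exact h
    rw [Finset.sum_eq_zero_iff_of_nonneg] at h0
    · have h1 := h0 t (Finset.mem_univ t)
      rw [Finset.sum_eq_zero_iff_of_nonneg] at h1
      · have h2 := h1 i (Finset.mem_univ i)
        have h3 : q t i - 2 / k = 0 := pow_eq_zero_iff (two_ne_zero) |>.mp h2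
        linarith
      · intro i _; positivity
    · intro t _; positivity

end Pool.Agent.H67
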