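import Mathlib
import Pool.Agent.H67.NetKey

/-!
# Orthonormalisation of a spanning family of vectors
-/

open Finset ComplexConjugate

namespace Pool.Agent.H67

/-- A spanning finite family of vectors of `ℂᵈ` can be transformed by an invertible linear map
into a family with Gram matrix (of coordinates) equal to the identity. -/
theorem exists_orthonormalization {P : Type} [Fintype P] {d : ℕ} (w : P → Fin d → ℂ)
    (hspan : Submodule.span ℂ (Set.range w) = ⊤) :
    ∃ g : (Fin d → ℂ) →ₗ[ℂ] (Fin d → ℂ), Function.Injective g ∧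
      ∀ m l : Fin d, ∑ p, conj (g (w p) m) * g (w p) l = if m = l then 1 else 0 := by
  classical
  -- the map sending a linear functional to its values
  let Φ : (Fin d → ℂ) →ₗ[ℂ] EuclideanSpace ℂ P :=
    (WithLp.linearEquiv 2 ℂ (P → ℂ)).symm.toLinearMap ∘ₗ
      (Matrix.mulVecLin (Matrix.of w))
  have hΦ : ∀ φ p, (Φ φ) p = w p ⬝ᵥ φ := by
    intro φ p
    rfl
  have hinj : Function.Injective Φ := by
    rw [← LinearMap.ker_eq_bot, LinearMap.ker_eq_bot']
    intro φ hφ
    have h1 : ∀ p, w p ⬝ᵥ φ = 0 := by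
      intro p
      rw [← hΦ, hφ]
      rfl
    have h2 : ∀ v : Fin d → ℂ, v ⬝ᵥ φ = 0 := by
      intro v
      have hv : v ∈ Submodule.span ℂ (Set.range w) := by rw [hspan]; trivial
      refine Submodule.span_induction (p := fun v _ => v ⬝ᵥ φ = 0) ?_ ?_ ?_ ?_ hv
      · rintro _ ⟨p, rfl⟩; exact h1 p
      · simp
      · intro x y _ _ hx hy
        rw [add_dotProduct, hx, hy, add_zero]
      · intro c x _ hx
        rw [smul_dotProduct, hx, smul_zero]
    funext i
    have := h2 (Pi.single i 1)
    simpa using this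
  let e := LinearEquiv.ofInjective Φ hinj
  have hfr : Module.finrank ℂ (LinearMap.range Φ) = d := by
    rw [← LinearEquiv.finrank_eq e]
    simp
  let b0 := stdOrthonormalBasis ℂ (LinearMap.range Φ)
  let b : OrthonormalBasis (Fin d) ℂ (LinearMap.range Φ) := b0.reindex (finCongr hfr)
  let φ : Fin d → (Fin d → ℂ) := fun m => e.symm (b m)
  have hbφ : ∀ m, Φ (φ m) = (b m : EuclideanSpace ℂ P) := by
    intro m
    have : e (φ m) = b m := LinearEquiv.apply_symm_apply e (b m)
    rw [← this]
    rfl
  let g : (Fin d → ℂ) →ₗ[ℂ] (Fin d → ℂ) := Matrix.mulVecLin (Matrix.of φ)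
  have hg : ∀ x m, g x m = φ m ⬝ᵥ x := fun x m => rfl
  have hgv : ∀ p m, g (w p) m = (b m : EuclideanSpace ℂ P) p := by
    intro p m
    rw [hg, ← hbφ, hΦ, dotProduct_comm]
  refine ⟨g, ?_, ?_⟩
  · rw [← LinearMap.ker_eq_bot, LinearMap.ker_eq_bot']
    intro x hx
    have h1 : ∀ m, φ m ⬝ᵥ x = 0 := by
      intro m
      rw [← hg, hx]; rfl
    have h2 : ∀ ψ : Fin d → ℂ, ψ ⬝ᵥ x = 0 := by
      intro ψ
      have hb : (e ψ) ∈ Submodule.span ℂ (Set.range b) := by
        have h4 : Submodule.span ℂ (Set.range b) = ⊤ := by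
          have := b.toBasis.span_eq
          rwa [OrthonormalBasis.coe_toBasis] at this
        rw [h4]
        trivial
      have hψ : ψ ∈ Submodule.span ℂ (Set.range φ) := by
        have h3 : e.symm (e ψ) ∈ (Submodule.span ℂ (Set.range b)).map e.symm.toLinearMap :=
          Submodule.mem_map_of_mem hb
        rw [Submodule.map_span, ← Set.range_comp] at h3
        rw [LinearEquiv.symm_apply_apply] at h3
        exact h3
      refine Submodule.span_induction (p := fun v _ => v ⬝ᵥ x = 0) ?_ ?_ ?_ ?_ hψ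
      · rintro _ ⟨p, rfl⟩; exact h1 p
      · simp
      · intro x y _ _ hx hy
        rw [add_dotProduct, hx, hy, add_zero]
      · intro c x _ hx
        rw [smul_dotProduct, hx, smul_zero]
    funext i
    have := h2 (Pi.single i 1)
    simpa using this
  · intro m l
    simp only [hgv]
    have h1 : inner ℂ (b m) (b l) = if m = l then (1 : ℂ) else 0 := by
      rw [orthonormal_iff_ite.mp b.orthonormal m l]
    rw [← h1]
    rw [Submodule.coe_inner, PiLp.inner_apply]
    refine Finset.sum_congr rfl fun p _ => ?_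
    rw [RCLike.inner_apply, mul_comm]

end Pool.Agent.H67
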