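import Mathlib

/-!
# Minimisation of a coercive function that is invariant under constants
-/

namespace Pool.Agent.H67

/-- A continuous function of finitely many real variables which is invariant under adding a constant
to all variables and grows linearly with each difference of variables has a global minimum. -/
theorem exists_min_of_coercive {P : Type*} [Fintype P] [Nonempty P] (f : (P → ℝ) → ℝ)
    (hf : Continuous f) (hinv : ∀ (x : P → ℝ) (c : ℝ), f (fun p => x p + c) = f x)
    (c0 δ : ℝ) (hδ : 0 < δ) (hb : ∀ x p q, c0 + δ * (x p - x q) ≤ f x) :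
    ∃ x, ∀ y, f x ≤ f y := by
  classical
  obtain ⟨p0⟩ := ‹Nonempty P›
  set R : ℝ := (f 0 - c0) / δ with hR
  have hc0 : c0 ≤ f 0 := by
    have := hb 0 p0 p0
    simpa using this
  have hR0 : 0 ≤ R := div_nonneg (by linarith) hδ.le
  set K : Set (P → ℝ) := Set.pi Set.univ (fun _ => Set.Icc (-R) R) with hK
  have hKc : IsCompact K := isCompact_univ_pi (fun _ => isCompact_Icc)
  have h0K : (0 : P → ℝ) ∈ K := by
    intro p _
    simp [hR0]
  obtain ⟨x, hxK, hx⟩ := hKc.exists_isMinOn ⟨0, h0K⟩ hf.continuousOn
  refine ⟨x, fun y => ?_⟩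
  have hy' : f (fun p => y p + (-(y p0))) = f y := hinv y _
  by_cases hyK : (fun p => y p + (-(y p0))) ∈ K
  · rw [← hy']
    exact hx hyK
  · have hx0 : f x ≤ f 0 := hx h0K
    have : ∃ p, ¬ (y p + (-(y p0)) ∈ Set.Icc (-R) R) := by
      by_contra hcon
      push Not at hcon
      exact hyK (fun p _ => hcon p)
    obtain ⟨p, hp⟩ := this
    have hδR : c0 + δ * R = f 0 := by
      rw [hR]; field_simp; ring
    rw [Set.mem_Icc, not_and_or] at hp
    rcases hp with hp | hp
    · push Not at hp
      have h1 := hb y p0 p
      have h2 : R < y p0 - y p := by linarith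
      have h3 : δ * R < δ * (y p0 - y p) := mul_lt_mul_of_pos_left h2 hδ
      linarith
    · push Not at hp
      have h1 := hb y p p0
      have h2 : R < y p - y p0 := by linarith
      have h3 : δ * R < δ * (y p - y p0) := mul_lt_mul_of_pos_left h2 hδ
      linarith

end Pool.Agent.H67
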