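import Mathlib
import Pool.Agent.H67.NetMin

/-!
# Existence of a balanced scaling (for `k = 3` and `k = 4`)
-/

open Finset

namespace Pool.Agent.H67

variable {k N : ℕ} {T : Type*} [Fintype T]

/-- the weighted sum over all ordered pairs of points on the line `t` -/
noncomputable def Zsum (idx : T → Fin k → Fin N) (D : T → Fin k → Fin k → ℝ)
    (x : Fin k × Fin N → ℝ) (t : T) : ℝ :=
  ∑ i, ∑ j, D t i j * Real.exp (x (i, idx t i) + x (j, idx t j))

theorem Zsum_pos (idx : T → Fin k → Fin N) (D : T → Fin k → Fin k → ℝ)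
    (hD0 : ∀ t i j, 0 ≤ D t i j) (hDpos : ∀ t i j, i ≠ j → 0 < D t i j)
    (hk : 3 ≤ k) (x : Fin k × Fin N → ℝ) (t : T) : 0 < Zsum idx D x t := by
  have : Nontrivial (Fin k) := Fin.nontrivial_iff_two_le.mpr (by omega)
  obtain ⟨i, j, hij⟩ := exists_pair_ne (Fin k)
  unfold Zsum
  refine Finset.sum_pos' (fun i _ => Finset.sum_nonneg fun j _ => ?_) ⟨i, Finset.mem_univ _, ?_⟩
  · exact mul_nonneg (hD0 _ _ _) (Real.exp_pos _).le
  · refine Finset.sum_pos' (fun j _ => ?_) ⟨j, Finset.mem_univ _, ?_⟩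
    · exact mul_nonneg (hD0 _ _ _) (Real.exp_pos _).le
    · exact mul_pos (hDpos _ _ _ hij) (Real.exp_pos _)

theorem log_Zsum_ge (idx : T → Fin k → Fin N) (D : T → Fin k → Fin k → ℝ)
    (hD0 : ∀ t i j, 0 ≤ D t i j) (hDpos : ∀ t i j, i ≠ j → 0 < D t i j)
    (hk : 3 ≤ k) (x : Fin k × Fin N → ℝ) (t : T) {i j : Fin k} (hij : i ≠ j) :
    Real.log (D t i j) + (x (i, idx t i) + x (j, idx t j)) ≤ Real.log (Zsum idx D x t) := by
  have h1 : D t i j * Real.exp (x (i, idx t i) + x (j, idx t j)) ≤ Zsum idx D x t := by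
    unfold Zsum
    have h2 : D t i j * Real.exp (x (i, idx t i) + x (j, idx t j))
        ≤ ∑ j, D t i j * Real.exp (x (i, idx t i) + x (j, idx t j)) :=
      Finset.single_le_sum (f := fun j => D t i j * Real.exp (x (i, idx t i) + x (j, idx t j)))
        (fun j _ => mul_nonneg (hD0 _ _ _) (Real.exp_pos _).le) (Finset.mem_univ j)
    refine h2.trans ?_
    exact Finset.single_le_sum
        (f := fun i => ∑ j, D t i j * Real.exp (x (i, idx t i) + x (j, idx t j)))
        (fun i _ => Finset.sum_nonneg fun j _ => mul_nonneg (hD0 _ _ _) (Real.exp_pos _).le)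
        (Finset.mem_univ i)
  have h3 := Real.log_le_log (mul_pos (hDpos t i j hij) (Real.exp_pos _)) h1
  rwa [Real.log_mul (hDpos t i j hij).ne' (Real.exp_pos _).ne', Real.log_exp] at h3

/-- the potential -/
noncomputable def pot (idx : T → Fin k → Fin N) (D : T → Fin k → Fin k → ℝ)
    (x : Fin k × Fin N → ℝ) : ℝ :=
  ∑ t, (Real.log (Zsum idx D x t) - 2 / k * ∑ i, x (i, idx t i))

theorem pot_line_bound (idx : T → Fin k → Fin N) (D : T → Fin k → Fin k → ℝ)
    (hD0 : ∀ t i j, 0 ≤ D t i j) (hDpos : ∀ t i j, i ≠ j → 0 < D t i j)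
    (hk : 3 ≤ k) (hk4 : k ≤ 4) (c : ℝ) (hc : ∀ t i j, i ≠ j → c ≤ Real.log (D t i j))
    (x : Fin k × Fin N → ℝ) (t : T) {i j : Fin k} (hij : i ≠ j) :
    c + (1 - 2 / k) * (x (i, idx t i) - x (j, idx t j))
      ≤ Real.log (Zsum idx D x t) - 2 / k * ∑ i, x (i, idx t i) := by
  classical
  set L := Real.log (Zsum idx D x t) with hL
  set S := ∑ i, x (i, idx t i) with hS
  have hb : ∀ a b : Fin k, a ≠ b → c + (x (a, idx t a) + x (b, idx t b)) ≤ L := by
    intro a b hab
    have := log_Zsum_ge idx D hD0 hDpos hk x t hab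
    have h2 := hc t a b hab
    linarith
  have h1 : ∑ r ∈ (Finset.univ \ {i, j} : Finset (Fin k)), (c + (x (i, idx t i) + x (r, idx t r)))
      ≤ ∑ r ∈ (Finset.univ \ {i, j} : Finset (Fin k)), L := by
    refine Finset.sum_le_sum fun r hr => hb i r ?_
    intro h
    rw [Finset.mem_sdiff] at hr
    apply hr.2
    rw [← h]; simp
  have hcard : (Finset.univ \ {i, j} : Finset (Fin k)).card = k - 2 := by
    rw [Finset.card_sdiff_of_subset (Finset.subset_univ _), Finset.card_pair hij]; simp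
  have hsum : ∑ r ∈ (Finset.univ \ {i, j} : Finset (Fin k)), x (r, idx t r)
      = S - x (i, idx t i) - x (j, idx t j) := by
    have h2 := Finset.sum_sdiff (Finset.subset_univ ({i, j} : Finset (Fin k)))
      (f := fun r => x (r, idx t r))
    rw [Finset.sum_pair hij] at h2
    rw [hS]
    linarith
  rw [Finset.sum_const, hcard, Finset.sum_add_distrib, Finset.sum_add_distrib, hsum,
    Finset.sum_const, Finset.sum_const, hcard] at h1
  simp only [nsmul_eq_mul] at h1
  have h2 := hb i j hij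
  have hk0 : (0:ℝ) < k := by exact_mod_cast (by omega : 0 < k)
  have hcast : ((k - 2 : ℕ) : ℝ) = (k : ℝ) - 2 := by
    rw [Nat.cast_sub (by omega)]; norm_num
  rw [hcast] at h1
  have hk4' : (k : ℝ) ≤ 4 := by exact_mod_cast hk4
  -- combine
  have h3 : (2 / (k:ℝ)) * (((k:ℝ) - 2) * c + (((k:ℝ) - 2) * x (i, idx t i) + (S - x (i, idx t i) - x (j, idx t j))))
      ≤ (2 / (k:ℝ)) * (((k:ℝ) - 2) * L) := mul_le_mul_of_nonneg_left h1 (by positivity)
  have h4 : ((4 - (k:ℝ)) / k) * (c + (x (i, idx t i) + x (j, idx t j))) ≤ ((4 - (k:ℝ)) / k) * L :=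
    mul_le_mul_of_nonneg_left h2 (div_nonneg (by linarith) hk0.le)
  have h5 : (2 / (k:ℝ)) * (((k:ℝ) - 2) * L) + ((4 - (k:ℝ)) / k) * L = L := by
    field_simp; ring
  have h6 : (2 / (k:ℝ)) * (((k:ℝ) - 2) * c + (((k:ℝ) - 2) * x (i, idx t i) + (S - x (i, idx t i) - x (j, idx t j))))
      + ((4 - (k:ℝ)) / k) * (c + (x (i, idx t i) + x (j, idx t j)))
      = c + (1 - 2 / k) * (x (i, idx t i) - x (j, idx t j)) + 2 / k * S := by
    field_simp; ring
  linarith

theorem exists_balanced (idx : T → Fin k → Fin N)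
    (hbij : ∀ i j, i ≠ j → Function.Bijective (fun t => (idx t i, idx t j)))
    (D : T → Fin k → Fin k → ℝ)
    (hD0 : ∀ t i j, 0 ≤ D t i j) (hDpos : ∀ t i j, i ≠ j → 0 < D t i j)
    (hDsymm : ∀ t i j, D t i j = D t j i)
    (hk : 3 ≤ k) (hk4 : k ≤ 4) (hN : 0 < N) :
    ∃ x : Fin k × Fin N → ℝ, ∀ u : Fin k × Fin N → ℝ,
      ∑ t, ∑ i, (2 * (∑ j, D t i j * Real.exp (x (i, idx t i) + x (j, idx t j))) / Zsum idx D x t
        - 2 / k) * u (i, idx t i) = 0 := by
  classical
  have hk0 : (0:ℝ) < k := by exact_mod_cast (by omega : 0 < k)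
  have hk3 : (3:ℝ) ≤ k := by exact_mod_cast hk
  haveI : Nonempty (Fin k × Fin N) := ⟨(⟨0, by omega⟩, ⟨0, hN⟩)⟩
  -- uniform constant
  obtain ⟨c, hc⟩ : ∃ c : ℝ, ∀ t i j, i ≠ j → c ≤ Real.log (D t i j) := by
    obtain ⟨M, hM⟩ := (Set.finite_range (fun p : T × Fin k × Fin k => Real.log (D p.1 p.2.1 p.2.2))).bddBelow
    refine ⟨M, fun t i j _ => hM ⟨(t, i, j), rfl⟩⟩
  have hline : ∀ x : Fin k × Fin N → ℝ, ∀ t, c ≤
      Real.log (Zsum idx D x t) - 2 / k * ∑ i, x (i, idx t i) := by
    intro x t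
    have : Nontrivial (Fin k) := Fin.nontrivial_iff_two_le.mpr (by omega)
    obtain ⟨i, j, hij⟩ := exists_pair_ne (Fin k)
    have h1 := pot_line_bound idx D hD0 hDpos hk hk4 c hc x t hij
    have h2 := pot_line_bound idx D hD0 hDpos hk hk4 c hc x t hij.symm
    have h3 : (1 - 2 / (k:ℝ)) * (x (i, idx t i) - x (j, idx t j))
        + (1 - 2 / (k:ℝ)) * (x (j, idx t j) - x (i, idx t i)) = 0 := by ring
    linarith
  set C : ℝ := (Fintype.card T : ℝ) * c with hC
  have hcross : ∀ x : Fin k × Fin N → ℝ, ∀ i j (a b : Fin N), i ≠ j →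
      C + (1 - 2 / k) * (x (i, a) - x (j, b)) ≤ pot idx D x := by
    intro x i j a b hij
    obtain ⟨t0, ht0⟩ := (hbij i j hij).2 (a, b)
    simp only [Prod.mk.injEq] at ht0
    have h1 := pot_line_bound idx D hD0 hDpos hk hk4 c hc x t0 hij
    rw [ht0.1, ht0.2] at h1
    unfold pot
    rw [← Finset.add_sum_erase _ _ (Finset.mem_univ t0)]
    have h2 : ∑ t ∈ Finset.univ.erase t0, c
        ≤ ∑ t ∈ Finset.univ.erase t0, (Real.log (Zsum idx D x t) - 2 / k * ∑ i, x (i, idx t i)) :=
      Finset.sum_le_sum fun t _ => hline x t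
    have h3 : C = c + ∑ t ∈ Finset.univ.erase t0, c := by
      rw [hC, Finset.sum_const, Finset.card_erase_of_mem (Finset.mem_univ _), nsmul_eq_mul,
        Finset.card_univ]
      have : 1 ≤ Fintype.card T := Fintype.card_pos_iff.mpr ⟨t0⟩
      rw [Nat.cast_sub this]; push_cast; ring
    linarith
  have hb : ∀ (x : Fin k × Fin N → ℝ) (p q : Fin k × Fin N),
      C + ((1 - 2 / k) / 2) * (x p - x q) ≤ pot idx D x := by
    intro x p q
    obtain ⟨r, hr1, hr2⟩ : ∃ r : Fin k, r ≠ p.1 ∧ r ≠ q.1 := by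
      by_contra hcon
      push Not at hcon
      have : (Finset.univ : Finset (Fin k)) ⊆ {p.1, q.1} := by
        intro r _
        simp only [Finset.mem_insert, Finset.mem_singleton]
        by_cases h : r = p.1
        · exact Or.inl h
        · exact Or.inr (hcon r h)
      have h2 := Finset.card_le_card this
      have h3 := Finset.card_le_two (a := p.1) (b := q.1)
      rw [Finset.card_univ, Fintype.card_fin] at h2
      omega
    have h1 := hcross x p.1 r p.2 ⟨0, hN⟩ hr1.symm
    have h2 := hcross x r q.1 ⟨0, hN⟩ q.2 hr2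
    have h3 : (1 - 2 / (k:ℝ)) * (x (p.1, p.2) - x (r, ⟨0, hN⟩))
        + (1 - 2 / (k:ℝ)) * (x (r, ⟨0, hN⟩) - x (q.1, q.2)) = (1 - 2 / (k:ℝ)) * (x p - x q) := by
      ring
    linarith
  have hinv : ∀ (x : Fin k × Fin N → ℝ) (e : ℝ), pot idx D (fun p => x p + e) = pot idx D x := by
    intro x e
    unfold pot
    refine Finset.sum_congr rfl fun t _ => ?_
    have h1 : Zsum idx D (fun p => x p + e) t = Real.exp (2 * e) * Zsum idx D x t := by
      unfold Zsum
      rw [Finset.mul_sum]
      refine Finset.sum_congr rfl fun i _ => ?_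
      rw [Finset.mul_sum]
      refine Finset.sum_congr rfl fun j _ => ?_
      have : x (i, idx t i) + e + (x (j, idx t j) + e)
          = (x (i, idx t i) + x (j, idx t j)) + 2 * e := by ring
      rw [this, Real.exp_add]
      ring
    rw [h1, Real.log_mul (Real.exp_pos _).ne' (Zsum_pos idx D hD0 hDpos hk x t).ne', Real.log_exp,
      Finset.sum_add_distrib]
    simp only [Finset.sum_const, Finset.card_univ, Fintype.card_fin, nsmul_eq_mul]
    field_simp
    ring
  have hcont : Continuous (pot idx D) := by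
    unfold pot
    refine continuous_finset_sum _ fun t _ => ?_
    refine Continuous.sub ?_ ?_
    · refine Continuous.log ?_ (fun x => (Zsum_pos idx D hD0 hDpos hk x t).ne')
      unfold Zsum
      fun_prop
    · fun_prop
  have hδ : 0 < (1 - 2 / (k:ℝ)) / 2 := by
    have : 2 / (k:ℝ) < 1 := by rw [div_lt_one hk0]; linarith
    linarith
  obtain ⟨x, hx⟩ := exists_min_of_coercive (pot idx D) hcont hinv C _ hδ hb
  refine ⟨x, fun u => ?_⟩
  -- derivative along u
  have hder : HasDerivAt (fun s : ℝ => pot idx D (fun p => x p + s * u p))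
      (∑ t, ∑ i, (2 * (∑ j, D t i j * Real.exp (x (i, idx t i) + x (j, idx t j))) / Zsum idx D x t
        - 2 / k) * u (i, idx t i)) 0 := by
    unfold pot
    refine HasDerivAt.fun_sum fun t _ => ?_
    have hlin : ∀ p : Fin k × Fin N, HasDerivAt (fun s : ℝ => x p + s * u p) (u p) 0 := by
      intro p
      have := ((hasDerivAt_id (0:ℝ)).mul_const (u p)).const_add (x p)
      simpa using this
    have hZ : HasDerivAt (fun s : ℝ => Zsum idx D (fun p => x p + s * u p) t)
        (∑ i, ∑ j, D t i j * (Real.exp (x (i, idx t i) + x (j, idx t j))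
          * (u (i, idx t i) + u (j, idx t j)))) 0 := by
      unfold Zsum
      refine HasDerivAt.fun_sum fun i _ => HasDerivAt.fun_sum fun j _ => ?_
      refine HasDerivAt.const_mul _ ?_
      have h1 := ((hlin (i, idx t i)).add (hlin (j, idx t j))).exp
      simpa using h1
    have hlog := hZ.log (by simpa using (Zsum_pos idx D hD0 hDpos hk x t).ne')
    have hS : HasDerivAt (fun s : ℝ => 2 / (k:ℝ) * ∑ i, (x (i, idx t i) + s * u (i, idx t i)))
        (2 / (k:ℝ) * ∑ i, u (i, idx t i)) 0 :=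
      (HasDerivAt.fun_sum fun i _ => hlin (i, idx t i)).const_mul _
    have hall := hlog.sub hS
    refine hall.congr_deriv ?_
    simp only [zero_mul, add_zero]
    have hx0 : (fun p => x p) = x := rfl
    rw [hx0]
    have e1 : (∑ i, ∑ j, D t i j * (Real.exp (x (i, idx t i) + x (j, idx t j))
          * (u (i, idx t i) + u (j, idx t j))))
        = ∑ i, 2 * (∑ j, D t i j * Real.exp (x (i, idx t i) + x (j, idx t j))) * u (i, idx t i) := by
      have e2 : ∑ i, ∑ j, D t i j * Real.exp (x (i, idx t i) + x (j, idx t j)) * u (j, idx t j)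
          = ∑ i, ∑ j, D t i j * Real.exp (x (i, idx t i) + x (j, idx t j)) * u (i, idx t i) := by
        rw [Finset.sum_comm]
        refine Finset.sum_congr rfl fun i _ => Finset.sum_congr rfl fun j _ => ?_
        rw [hDsymm t j i, add_comm]
      calc (∑ i, ∑ j, D t i j * (Real.exp (x (i, idx t i) + x (j, idx t j))
          * (u (i, idx t i) + u (j, idx t j))))
          = ∑ i, ∑ j, D t i j * Real.exp (x (i, idx t i) + x (j, idx t j)) * u (i, idx t i)
            + ∑ i, ∑ j, D t i j * Real.exp (x (i, idx t i) + x (j, idx t j)) * u (j, idx t j) := by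
            rw [← Finset.sum_add_distrib]
            refine Finset.sum_congr rfl fun i _ => ?_
            rw [← Finset.sum_add_distrib]
            refine Finset.sum_congr rfl fun j _ => ?_
            ring
        _ = _ := by
            rw [e2, ← two_mul, Finset.mul_sum]
            refine Finset.sum_congr rfl fun i _ => ?_
            rw [← Finset.sum_mul]
            ring
    rw [e1, Finset.sum_div, Finset.mul_sum, ← Finset.sum_sub_distrib]
    refine Finset.sum_congr rfl fun i _ => ?_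
    ring
  have hmin : IsLocalMin (fun s : ℝ => pot idx D (fun p => x p + s * u p)) 0 := by
    refine Filter.Eventually.of_forall fun s => ?_
    simpa using hx (fun p => x p + s * u p)
  exact hmin.hasDerivAt_eq_zero hder

end Pool.Agent.H67
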