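import Mathlib
import Pool.Agent.H67.NetScale
import Pool.Agent.H67.NetKey
import Pool.Agent.H67.NetTight

/-!
# From a spanning dual net in `ℂ⁴` to a tight net
-/

open Finset ComplexConjugate

namespace Pool.Agent.H67

/-- weights of the scaling functional attached to the coefficients of the relations -/
noncomputable def relD {T : Type*} (r : T → Fin 3 → ℂ) (t : T) (i j : Fin 3) : ℝ :=
  if i = j then 0 else ‖r t (-(i + j))‖ ^ 2

theorem relD_symm {T : Type*} (r : T → Fin 3 → ℂ) (t : T) (i j : Fin 3) :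
    relD r t i j = relD r t j i := by
  unfold relD
  by_cases h : i = j
  · simp [h]
  · rw [if_neg h, if_neg (Ne.symm h), add_comm]

theorem relD_nonneg {T : Type*} (r : T → Fin 3 → ℂ) (t : T) (i j : Fin 3) :
    0 ≤ relD r t i j := by
  unfold relD
  split_ifs <;> positivity

theorem relD_pos {T : Type*} (r : T → Fin 3 → ℂ) (hr : ∀ t i, r t i ≠ 0) (t : T) (i j : Fin 3)
    (h : i ≠ j) : 0 < relD r t i j := by
  unfold relD
  rw [if_neg h]
  have := norm_pos_iff.mpr (hr t (-(i + j)))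
  positivity

/-- The scaled relation vectors are balanced. -/
theorem exists_balanced_rel {N : ℕ} {T : Type} [Fintype T] (idx : T → Fin 3 → Fin N)
    (hbij : ∀ i j, i ≠ j → Function.Bijective (fun t => (idx t i, idx t j)))
    (r : T → Fin 3 → ℂ) (hr : ∀ t i, r t i ≠ 0) (hN : 0 < N) :
    ∃ s : Fin 3 → Fin N → ℝ, (∀ i a, 0 < s i a) ∧
      ∀ u : Fin 3 → Fin N → ℝ, ∑ t, ∑ i,
        ((1 - (‖r t i‖ / s i (idx t i)) ^ 2 / ∑ j, (‖r t j‖ / s j (idx t j)) ^ 2) - 2 / 3)
          * u i (idx t i) = 0 := by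
  obtain ⟨x, hx⟩ := exists_balanced idx hbij (relD r) (relD_nonneg r) (relD_pos r hr)
    (relD_symm r) (le_refl 3) (by norm_num) hN
  refine ⟨fun i a => Real.exp (x (i, a) / 2), fun i a => Real.exp_pos _, fun u => ?_⟩
  have h := hx (fun p => u p.1 p.2)
  rw [← h]
  refine Finset.sum_congr rfl fun t _ => Finset.sum_congr rfl fun i _ => ?_
  congr 1
  have key : ∀ j, (‖r t j‖ / Real.exp (x (j, idx t j) / 2)) ^ 2
      = ‖r t j‖ ^ 2 * Real.exp (- x (j, idx t j)) := by
    intro j
    rw [div_pow, ← Real.exp_nat_mul, Real.exp_neg]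
    have : ((2:ℕ):ℝ) * (x (j, idx t j) / 2) = x (j, idx t j) := by push_cast; ring
    rw [this]
    rfl
  simp only [key]
  have hpos : ∀ j, 0 < ‖r t j‖ ^ 2 * Real.exp (- x (j, idx t j)) := by
    intro j
    have := norm_pos_iff.mpr (hr t j)
    positivity
  have hs : ∀ i j l : Fin 3, Real.exp (x (i, idx t i) + x (j, idx t j))
      = Real.exp (x (i, idx t i) + x (j, idx t j) + x (l, idx t l))
        * Real.exp (- x (l, idx t l)) := by
    intro i j l
    rw [← Real.exp_add]
    congr 1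
    ring
  have e01 : (-(0 + 1) : Fin 3) = 2 := by decide
  have e02 : (-(0 + 2) : Fin 3) = 1 := by decide
  have e12 : (-(1 + 2) : Fin 3) = 0 := by decide
  have e10 : (-(1 + 0) : Fin 3) = 2 := by decide
  have e20 : (-(2 + 0) : Fin 3) = 1 := by decide
  have e21 : (-(2 + 1) : Fin 3) = 0 := by decide
  have n01 : (0 : Fin 3) ≠ 1 := by decide
  have n02 : (0 : Fin 3) ≠ 2 := by decide
  have n12 : (1 : Fin 3) ≠ 2 := by decide
  have d01 : relD r t 0 1 = ‖r t 2‖ ^ 2 := by unfold relD; rw [if_neg n01, e01]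
  have d02 : relD r t 0 2 = ‖r t 1‖ ^ 2 := by unfold relD; rw [if_neg n02, e02]
  have d12 : relD r t 1 2 = ‖r t 0‖ ^ 2 := by unfold relD; rw [if_neg n12, e12]
  have d10 : relD r t 1 0 = ‖r t 2‖ ^ 2 := by unfold relD; rw [if_neg n01.symm, e10]
  have d20 : relD r t 2 0 = ‖r t 1‖ ^ 2 := by unfold relD; rw [if_neg n02.symm, e20]
  have d21 : relD r t 2 1 = ‖r t 0‖ ^ 2 := by unfold relD; rw [if_neg n12.symm, e21]
  have d00 : ∀ i, relD r t i i = 0 := by intro i; unfold relD; rw [if_pos rfl]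
  set E := Real.exp (x (0, idx t 0) + x (1, idx t 1) + x (2, idx t 2)) with hE
  have hEpos : 0 < E := Real.exp_pos _
  have x01 : Real.exp (x (0, idx t 0) + x (1, idx t 1)) = E * Real.exp (- x (2, idx t 2)) := by
    rw [hE, ← Real.exp_add]; congr 1; ring
  have x10 : Real.exp (x (1, idx t 1) + x (0, idx t 0)) = E * Real.exp (- x (2, idx t 2)) := by
    rw [hE, ← Real.exp_add]; congr 1; ring
  have x02 : Real.exp (x (0, idx t 0) + x (2, idx t 2)) = E * Real.exp (- x (1, idx t 1)) := by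
    rw [hE, ← Real.exp_add]; congr 1; ring
  have x20 : Real.exp (x (2, idx t 2) + x (0, idx t 0)) = E * Real.exp (- x (1, idx t 1)) := by
    rw [hE, ← Real.exp_add]; congr 1; ring
  have x12 : Real.exp (x (1, idx t 1) + x (2, idx t 2)) = E * Real.exp (- x (0, idx t 0)) := by
    rw [hE, ← Real.exp_add]; congr 1; ring
  have x21 : Real.exp (x (2, idx t 2) + x (1, idx t 1)) = E * Real.exp (- x (0, idx t 0)) := by
    rw [hE, ← Real.exp_add]; congr 1; ring
  have hZ : Zsum idx (relD r) x t = 2 * E * (‖r t 0‖ ^ 2 * Real.exp (- x (0, idx t 0))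
      + ‖r t 1‖ ^ 2 * Real.exp (- x (1, idx t 1)) + ‖r t 2‖ ^ 2 * Real.exp (- x (2, idx t 2))) := by
    unfold Zsum
    simp only [Fin.sum_univ_three, d00, d01, d02, d12, d10, d20, d21, x01, x10, x02, x20, x12, x21]
    ring
  have hp0 := hpos 0
  have hp1 := hpos 1
  have hp2 := hpos 2
  rw [hZ]
  have hsum : ∀ i, ∑ j, relD r t i j * Real.exp (x (i, idx t i) + x (j, idx t j))
      = E * (∑ j, ‖r t j‖ ^ 2 * Real.exp (- x (j, idx t j))
        - ‖r t i‖ ^ 2 * Real.exp (- x (i, idx t i))) := by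
    intro i
    fin_cases i
    · simp only [Fin.sum_univ_three, Fin.zero_eta, d00, d01, d02, x01, x02]
      ring
    · simp only [Fin.sum_univ_three, Fin.mk_one, d00, d10, d12, x10, x12]
      ring
    · simp only [Fin.sum_univ_three, Fin.reduceFinMk, d00, d20, d21, x20, x21]
      ring
  rw [hsum i]
  rw [← Fin.sum_univ_three (f := fun j => ‖r t j‖ ^ 2 * Real.exp (- x (j, idx t j)))]
  set S := ∑ j, ‖r t j‖ ^ 2 * Real.exp (- x (j, idx t j)) with hS
  have hSpos : 0 < S := Finset.sum_pos (fun j _ => hpos j) ⟨0, Finset.mem_univ _⟩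
  push_cast
  field_simp

end Pool.Agent.H67
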