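import Mathlib
import Pool.Agent.H67.NetRel
import Pool.Agent.H67.NetOrth

/-!
# From a spanning dual net in `ℂ⁴` to a tight net
-/

open Finset ComplexConjugate

namespace Pool.Agent.H67

/-- the coordinate form of the equality case for three classes in `ℂ⁴` -/
theorem equality_three {N : ℕ} {T : Type} [Fintype T] (idx : T → Fin 3 → Fin N)
    (hbij : ∀ i j, i ≠ j → Function.Bijective (fun t => (idx t i, idx t j)))
    (hN : 0 < N) (v : Fin 3 → Fin N → Fin 4 → ℂ)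
    (hON : ∀ m l : Fin 4, ∑ i, ∑ a, conj (v i a m) * v i a l = if m = l then 1 else 0)
    (ρ : T → Fin 3 → ℂ) (hρ : ∀ t i, ρ t i ≠ 0)
    (hrel : ∀ t l, ∑ i, ρ t i * v i (idx t i) l = 0)
    (hbal : ∀ u : Fin 3 → Fin N → ℝ, ∑ t, ∑ i,
      ((1 - ‖ρ t i‖ ^ 2 / ∑ j, ‖ρ t j‖ ^ 2) - 2 / 3) * u i (idx t i) = 0) :
    (∀ i j a b, i ≠ j → ‖hip (v i a) (v j b)‖ = 2 / (3 * N)) ∧
    (∀ i m l, ∑ a, conj (v i a m) * v i a l = if m = l then (1 / 3 : ℂ) else 0) ∧
    (∀ i a, hip (v i a) (v i a) = (4 / (3 * N) : ℂ)) := by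
  classical
  have hN0 : (0:ℝ) < N := by exact_mod_cast hN
  have hN0' : (N:ℂ) ≠ 0 := by exact_mod_cast hN.ne'
  set R : T → ℝ := fun t => ∑ j, ‖ρ t j‖ ^ 2 with hR
  have hRpos : ∀ t, 0 < R t := by
    intro t
    refine Finset.sum_pos (fun j _ => ?_) ⟨0, Finset.mem_univ _⟩
    have := norm_pos_iff.mpr (hρ t j)
    positivity
  have hR3 : ∀ t, R t = ‖ρ t 0‖ ^ 2 + ‖ρ t 1‖ ^ 2 + ‖ρ t 2‖ ^ 2 := by
    intro t; simp only [hR, Fin.sum_univ_three]
  have hRC : ∀ t, (R t : ℂ) ≠ 0 := fun t => by exact_mod_cast (hRpos t).ne'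
  set Q : T → Fin 3 → Fin 3 → ℂ := fun t i j =>
    (if i = j then 1 else 0) - conj (ρ t i) * ρ t j / R t with hQ
  set q : T → Fin 3 → ℝ := fun t i => 1 - ‖ρ t i‖ ^ 2 / R t with hq
  have hQq : ∀ t i, Q t i i = (q t i : ℂ) := by
    intro t i
    simp only [hQ, hq, if_true]
    push_cast
    rw [Complex.conj_mul']
  have hQv : ∀ t i l, ∑ j, Q t i j * v j (idx t j) l = v i (idx t i) l := by
    intro t i l
    simp only [hQ, sub_mul, Finset.sum_sub_distrib]
    have h1 : ∑ j, conj (ρ t i) * ρ t j / (R t : ℂ) * v j (idx t j) l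
        = conj (ρ t i) / R t * ∑ j, ρ t j * v j (idx t j) l := by
      rw [Finset.mul_sum]
      refine Finset.sum_congr rfl fun j _ => ?_
      ring
    rw [h1, hrel]
    simp
  have hoff : ∀ t i j, i ≠ j → ‖Q t i j‖ ^ 2 = (‖ρ t i‖ ^ 2 / R t) * (‖ρ t j‖ ^ 2 / R t) := by
    intro t i j hij
    simp only [hQ, if_neg hij, zero_sub, norm_neg, norm_div, norm_mul, RCLike.norm_conj,
      Complex.norm_real, Real.norm_eq_abs, abs_of_pos (hRpos t)]
    ring
  have hdiag : ∀ t i, ‖Q t i i‖ ^ 2 = (1 - ‖ρ t i‖ ^ 2 / R t) ^ 2 := by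
    intro t i
    rw [hQq, Complex.norm_real, Real.norm_eq_abs, sq_abs]
  have hsum1 : ∀ t, ‖ρ t 0‖ ^ 2 / R t + ‖ρ t 1‖ ^ 2 / R t + ‖ρ t 2‖ ^ 2 / R t = 1 := by
    intro t
    rw [← add_div, ← add_div, ← hR3, div_self (hRpos t).ne']
  have hQ2 : ∀ t, ∑ i, ∑ j, ‖Q t i j‖ ^ 2 = 2 := by
    intro t
    have n01 : (0 : Fin 3) ≠ 1 := by decide
    have n02 : (0 : Fin 3) ≠ 2 := by decide
    have n12 : (1 : Fin 3) ≠ 2 := by decide
    simp only [Fin.sum_univ_three, hdiag, hoff t 0 1 n01, hoff t 0 2 n02, hoff t 1 2 n12,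
      hoff t 1 0 n01.symm, hoff t 2 0 n02.symm, hoff t 2 1 n12.symm]
    have h := hsum1 t
    set p0 := ‖ρ t 0‖ ^ 2 / R t
    set p1 := ‖ρ t 1‖ ^ 2 / R t
    set p2 := ‖ρ t 2‖ ^ 2 / R t
    have h0 : p2 = 1 - p0 - p1 := by linarith
    rw [h0]; ring
  have hq2 : ∀ t, ∑ i, q t i = 2 := by
    intro t
    simp only [Fin.sum_univ_three, hq]
    linarith [hsum1 t]
  have hbal' : ∀ u : Fin 3 → Fin N → ℝ,
      ∑ t, ∑ i, (q t i - 2 / (3:ℕ)) * u i (idx t i) = 0 := by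
    intro u
    have := hbal u
    simpa [hq] using this
  have hκN : (2 / (N:ℝ)) * N = 2 := by field_simp
  obtain ⟨k1, k2, k3⟩ := key_equality idx hbij (by norm_num) v hON Q q hQq hQv hQ2 hq2 hbal'
    (2 / N) (by rw [hκN]; norm_num) (by positivity)
  have hp : ∀ t i, ‖ρ t i‖ ^ 2 / R t = 1 / 3 := by
    intro t i
    have := k3 t i
    simp only [hq] at this
    push_cast at this
    linarith
  refine ⟨?_, ?_, ?_⟩
  · intro i j a b hij
    obtain ⟨t, ht⟩ := (hbij i j hij).2 (a, b)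
    simp only [Prod.mk.injEq] at ht
    obtain ⟨rfl, rfl⟩ := ht
    rw [k1 t i j hij, norm_mul, RCLike.norm_conj]
    have h2 : ‖Q t i j‖ ^ 2 = (1 / 3) ^ 2 := by
      rw [hoff t i j hij, hp, hp]; ring
    have h3 : ‖Q t i j‖ = 1 / 3 := by
      have h4 : 0 ≤ ‖Q t i j‖ := norm_nonneg _
      nlinarith [sq_nonneg (‖Q t i j‖ - 1/3), sq_nonneg (‖Q t i j‖ + 1/3)]
    rw [h3]
    have : ‖((2 / (N:ℝ) : ℝ) : ℂ)‖ = 2 / N := by
      rw [Complex.norm_real, Real.norm_eq_abs, abs_of_pos (by positivity)]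
    rw [this]
    field_simp
  · intro i m l
    rw [k2 i m l]
    push_cast
    rfl
  · intro i a
    -- a line through the point
    obtain ⟨j, hj⟩ : ∃ j : Fin 3, i ≠ j := by
      obtain ⟨j, hj⟩ := exists_ne i
      exact ⟨j, hj.symm⟩
    obtain ⟨t, ht⟩ := (hbij i j hj).2 (a, ⟨0, hN⟩)
    simp only [Prod.mk.injEq] at ht
    obtain ⟨rfl, -⟩ := ht
    have e1 : hip (v i (idx t i)) (v i (idx t i))
        = ∑ j, Q t i j * hip (v i (idx t i)) (v j (idx t j)) := by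
      unfold hip
      simp only [Finset.mul_sum]
      rw [Finset.sum_comm]
      refine Finset.sum_congr rfl fun l _ => ?_
      conv_lhs => rw [← hQv t i l]
      rw [Finset.mul_sum, hQv]
      refine Finset.sum_congr rfl fun j _ => ?_
      ring
    have e2 : ∀ j, j ≠ i → Q t i j * hip (v i (idx t i)) (v j (idx t j))
        = 2 / (9 * N) := by
      intro j hji
      rw [k1 t i j hji.symm]
      have h2 : ‖Q t i j‖ ^ 2 = (1 / 3) ^ 2 := by
        rw [hoff t i j hji.symm, hp, hp]; ring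
      have h3 : Q t i j * (((2 / (N:ℝ) : ℝ) : ℂ) * conj (Q t i j))
          = ((2 / (N:ℝ) : ℝ) : ℂ) * (Q t i j * conj (Q t i j)) := by ring
      rw [h3, Complex.mul_conj', ← Complex.ofReal_pow, h2]
      push_cast
      field_simp
      norm_num
    have e3 : Q t i i = 2 / 3 := by
      rw [hQq, k3 t i]; push_cast; rfl
    have e4 : ∑ j, Q t i j * hip (v i (idx t i)) (v j (idx t j))
        = 2 / 3 * hip (v i (idx t i)) (v i (idx t i)) + 4 / (9 * N) := by
      rw [← Finset.add_sum_erase _ _ (Finset.mem_univ i), e3]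
      congr 1
      rw [Finset.sum_congr rfl (fun j hj => e2 j (Finset.ne_of_mem_erase hj))]
      rw [Finset.sum_const, Finset.card_erase_of_mem (Finset.mem_univ i)]
      simp only [Finset.card_univ, Fintype.card_fin]
      simp only [nsmul_eq_mul]
      push_cast
      ring
    rw [e4] at e1
    have e5 : hip (v i (idx t i)) (v i (idx t i)) = 3 * (4 / (9 * N)) := by
      linear_combination 3 * e1
    rw [e5]
    field_simp
    norm_num

end Pool.Agent.H67
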