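import Mathlib
import Pool.Agent.H67.NetNormalize

/-!
# From a spanning dual net in `ℂ⁴` to a tight net
-/

open Finset ComplexConjugate

namespace Pool.Agent.H67

/-- Every spanning dual `3`-net in `ℂ⁴` becomes a tight net after an invertible linear
transformation and a rescaling of the vectors. -/
theorem exists_tight {N : ℕ} {T : Type} [Fintype T] (idx : T → Fin 3 → Fin N)
    (hbij : ∀ i j, i ≠ j → Function.Bijective (fun t => (idx t i, idx t j)))
    (hN : 0 < N) (w : Fin 3 → Fin N → Fin 4 → ℂ)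
    (hspan : Submodule.span ℂ (Set.range fun p : Fin 3 × Fin N => w p.1 p.2) = ⊤)
    (r : T → Fin 3 → ℂ) (hr : ∀ t i, r t i ≠ 0)
    (hrel : ∀ t, ∑ i, r t i • w i (idx t i) = 0)
    (hind : ∀ i a a', a ≠ a' → LinearIndependent ℂ ![w i a, w i a']) :
    ∃ (g : (Fin 4 → ℂ) →ₗ[ℂ] EuclideanSpace ℂ (Fin 4)) (s : Fin 3 → Fin N → ℂ),
      Function.Injective g ∧ (∀ i a, s i a ≠ 0) ∧
      TightNet N idx (fun i a => s i a • g (w i a)) := by
  classical
  have hN0 : (0:ℝ) < N := by exact_mod_cast hN
  obtain ⟨s, hs, hbal⟩ := exists_balanced_rel idx hbij r hr hN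
  have hsC : ∀ i a, (s i a : ℂ) ≠ 0 := fun i a => by exact_mod_cast (hs i a).ne'
  -- scaled vectors span
  have hspan' : Submodule.span ℂ (Set.range fun p : Fin 3 × Fin N => (s p.1 p.2 : ℂ) • w p.1 p.2)
      = ⊤ := by
    rw [eq_top_iff, ← hspan, Submodule.span_le]
    rintro _ ⟨p, rfl⟩
    have h1 : w p.1 p.2 = (s p.1 p.2 : ℂ)⁻¹ • ((s p.1 p.2 : ℂ) • w p.1 p.2) := by
      rw [smul_smul, inv_mul_cancel₀ (hsC _ _), one_smul]
    simp only [SetLike.mem_coe]
    rw [h1]
    exact Submodule.smul_mem _ _ (Submodule.subset_span ⟨p, rfl⟩)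
  obtain ⟨g, hginj, hgON⟩ := exists_orthonormalization
    (fun p : Fin 3 × Fin N => (s p.1 p.2 : ℂ) • w p.1 p.2) hspan'
  set v : Fin 3 → Fin N → Fin 4 → ℂ := fun i a => g ((s i a : ℂ) • w i a) with hv
  have hON : ∀ m l : Fin 4, ∑ i, ∑ a, conj (v i a m) * v i a l = if m = l then 1 else 0 := by
    intro m l
    rw [← hgON m l, Fintype.sum_prod_type]
  obtain ⟨h1, h2, h3⟩ := equality_three idx hbij hN v hON
    (fun t i => r t i / (s i (idx t i) : ℂ))
    (fun t i => div_ne_zero (hr t i) (hsC _ _))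
    (by
      intro t l
      have := congrArg (fun x => g x l) (hrel t)
      simp only [map_sum, map_smul, map_zero, Finset.sum_apply, Pi.smul_apply, Pi.zero_apply,
        smul_eq_mul] at this
      rw [← this]
      refine Finset.sum_congr rfl fun i _ => ?_
      simp only [hv, map_smul, Pi.smul_apply, smul_eq_mul]
      rw [div_mul_eq_mul_div, mul_left_comm, mul_div_assoc, mul_div_assoc]
      have := hsC i (idx t i)
      field_simp)
    (by
      intro u
      rw [← hbal u]
      refine Finset.sum_congr rfl fun t _ => Finset.sum_congr rfl fun i _ => ?_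
      have key : ∀ j, ‖r t j / (s j (idx t j) : ℂ)‖ = ‖r t j‖ / s j (idx t j) := by
        intro j
        rw [norm_div, Complex.norm_real, Real.norm_eq_abs, abs_of_pos (hs _ _)]
      simp only [key])
  -- rescaling factor
  set α : ℝ := Real.sqrt (3 * N / 2) with hα
  have hα2 : α ^ 2 = 3 * N / 2 := Real.sq_sqrt (by positivity)
  have hαpos : 0 < α := Real.sqrt_pos.mpr (by positivity)
  have hαC : (α : ℂ) ≠ 0 := by exact_mod_cast hαpos.ne'
  have hαC2 : (α : ℂ) * α = 3 * N / 2 := by
    rw [← sq, ← Complex.ofReal_pow, hα2]; push_cast; ring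
  let G : (Fin 4 → ℂ) →ₗ[ℂ] EuclideanSpace ℂ (Fin 4) :=
    (WithLp.linearEquiv 2 ℂ (Fin 4 → ℂ)).symm.toLinearMap ∘ₗ g
  have hG : ∀ x m, G x m = g x m := fun x m => rfl
  have hGinj : Function.Injective G := by
    intro x y hxy
    apply hginj
    funext m
    rw [← hG, ← hG, hxy]
  have hz : ∀ i a m, (((α * s i a : ℝ) : ℂ) • G (w i a)) m = α * v i a m := by
    intro i a m
    simp only [hv, map_smul, PiLp.smul_apply, Pi.smul_apply, smul_eq_mul, hG]
    push_cast
    ring
  have hinner : ∀ i j a b, inner ℂ (((α * s i a : ℝ) : ℂ) • G (w i a))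
      (((α * s j b : ℝ) : ℂ) • G (w j b)) = (3 * N / 2 : ℂ) * hip (v i a) (v j b) := by
    intro i j a b
    rw [PiLp.inner_apply]
    unfold hip
    rw [Finset.mul_sum]
    refine Finset.sum_congr rfl fun m _ => ?_
    rw [RCLike.inner_apply, hz, hz, map_mul, Complex.conj_ofReal, ← hαC2]
    ring
  have hsne : ∀ i a, ((α * s i a : ℝ) : ℂ) ≠ 0 := by
    intro i a
    have : 0 < α * s i a := mul_pos hαpos (hs i a)
    exact_mod_cast this.ne'
  refine ⟨G, fun i a => ((α * s i a : ℝ) : ℂ), hGinj, hsne, ?_⟩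
  refine ⟨hbij, ?_, ?_, ?_, ?_, ?_⟩
  · intro i a
    have e1 : ((‖(((α * s i a : ℝ) : ℂ) • G (w i a))‖ ^ 2 : ℝ) : ℂ) = 2 := by
      have := inner_self_eq_norm_sq_to_K (𝕜 := ℂ) (((α * s i a : ℝ) : ℂ) • G (w i a))
      rw [hinner i i a a, h3 i a] at this
      rw [Complex.ofReal_pow]
      have h5 : (N:ℂ) ≠ 0 := by exact_mod_cast hN.ne'
      have h6 : (3 * N / 2 : ℂ) * (4 / (3 * N)) = 2 := by
        field_simp
        norm_num
      rw [h6] at this
      exact this.symm
    exact_mod_cast e1
  · intro i j a b hij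
    have hN' : (N:ℂ) ≠ 0 := by exact_mod_cast hN.ne'
    simp only
    rw [hinner i j a b, norm_mul, h1 i j a b hij]
    have h7 : ‖(3 * N / 2 : ℂ)‖ = 3 * N / 2 := by
      have : (3 * N / 2 : ℂ) = ((3 * N / 2 : ℝ) : ℂ) := by push_cast; ring
      rw [this, Complex.norm_real, Real.norm_eq_abs, abs_of_pos (by positivity)]
    rw [h7]
    field_simp
  · intro i x y
    have e1 : ∀ a, inner ℂ x (((α * s i a : ℝ) : ℂ) • G (w i a))
        = ∑ m, conj (x m) * (α * v i a m) := by
      intro a
      rw [PiLp.inner_apply]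
      refine Finset.sum_congr rfl fun m _ => ?_
      rw [RCLike.inner_apply, hz, mul_comm]
    have e2 : ∀ a, inner ℂ (((α * s i a : ℝ) : ℂ) • G (w i a)) y
        = ∑ m, conj ((α : ℂ) * v i a m) * y m := by
      intro a
      rw [PiLp.inner_apply]
      refine Finset.sum_congr rfl fun m _ => ?_
      rw [RCLike.inner_apply, hz, mul_comm]
    have e3 : inner ℂ x y = ∑ m, conj (x m) * y m := by
      rw [PiLp.inner_apply]
      refine Finset.sum_congr rfl fun m _ => ?_
      rw [RCLike.inner_apply, mul_comm]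
    simp only [e1, e2, e3]
    calc ∑ a, (∑ m, conj (x m) * (α * v i a m)) * ∑ l, conj ((α : ℂ) * v i a l) * y l
        = ∑ a, ∑ m, ∑ l, (conj (x m) * y l * (α * α)) * (conj (v i a l) * v i a m) := by
          refine Finset.sum_congr rfl fun a _ => ?_
          rw [Finset.sum_mul_sum]
          refine Finset.sum_congr rfl fun m _ => Finset.sum_congr rfl fun l _ => ?_
          rw [map_mul, Complex.conj_ofReal]
          ring
      _ = ∑ m, ∑ l, ∑ a, (conj (x m) * y l * (α * α)) * (conj (v i a l) * v i a m) := by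
          rw [Finset.sum_comm]
          refine Finset.sum_congr rfl fun m _ => ?_
          rw [Finset.sum_comm]
      _ = ∑ m, ∑ l, (conj (x m) * y l * (α * α)) * (if l = m then (1 / 3 : ℂ) else 0) := by
          refine Finset.sum_congr rfl fun m _ => Finset.sum_congr rfl fun l _ => ?_
          rw [← Finset.mul_sum, h2 i l m]
      _ = ∑ m, conj (x m) * y m * (α * α) * (1 / 3) := by
          refine Finset.sum_congr rfl fun m _ => ?_
          rw [Finset.sum_eq_single m]
          · simp
          · intro l _ hl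
            simp [hl]
          · simp
      _ = (N:ℂ) / 2 * ∑ m, conj (x m) * y m := by
          rw [Finset.mul_sum]
          refine Finset.sum_congr rfl fun m _ => ?_
          rw [hαC2]
          ring
  · intro t i j l hij hil hjl
    have e1 := congrArg G (hrel t)
    rw [map_sum, map_zero] at e1
    simp only [map_smul] at e1
    -- z l as a combination
    have hcover : ∀ m : Fin 3, m = i ∨ m = j ∨ m = l := by
      revert i j l
      decide
    have hsum : ∑ m, r t m • G (w m (idx t m)) = r t i • G (w i (idx t i))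
        + r t j • G (w j (idx t j)) + r t l • G (w l (idx t l)) := by
      have : (Finset.univ : Finset (Fin 3)) = {i, j, l} := by
        ext m; simp [hcover m]
      rw [this, Finset.sum_insert (by simp [hij, hil]), Finset.sum_insert (by simp [hjl]),
        Finset.sum_singleton, add_assoc]
    rw [hsum] at e1
    have e2 : G (w l (idx t l)) = (-(r t l)⁻¹ * r t i) • G (w i (idx t i))
        + (-(r t l)⁻¹ * r t j) • G (w j (idx t j)) := by
      have h4 : (r t l)⁻¹ • (r t l • G (w l (idx t l))) = G (w l (idx t l)) := by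
        rw [smul_smul, inv_mul_cancel₀ (hr t l), one_smul]
      rw [← h4]
      have h5 : r t l • G (w l (idx t l)) = -(r t i • G (w i (idx t i))
          + r t j • G (w j (idx t j))) := by
        rw [eq_neg_iff_add_eq_zero, add_comm]; exact e1
      rw [h5]
      module
    have h6 : ∀ m a, G (w m a) ∈ Submodule.span ℂ {((α * s m a : ℝ) : ℂ) • G (w m a)} := by
      intro m a
      rw [Submodule.mem_span_singleton]
      refine ⟨(((α * s m a : ℝ) : ℂ))⁻¹, ?_⟩
      rw [smul_smul, inv_mul_cancel₀ (hsne m a), one_smul]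
    show ((α * s l (idx t l) : ℝ) : ℂ) • G (w l (idx t l)) ∈ Submodule.span ℂ
      {((α * s i (idx t i) : ℝ) : ℂ) • G (w i (idx t i)),
       ((α * s j (idx t j) : ℝ) : ℂ) • G (w j (idx t j))}
    rw [e2]
    refine Submodule.smul_mem _ _ (Submodule.add_mem _ (Submodule.smul_mem _ _ ?_)
      (Submodule.smul_mem _ _ ?_))
    · exact Submodule.span_mono (by simp) (h6 i (idx t i))
    · exact Submodule.span_mono (by simp) (h6 j (idx t j))
  · intro i a a' haa
    have e1 := hind i a a' haa
    rw [LinearIndependent.pair_iff] at e1 ⊢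
    intro x y hxy
    have e2 : G ((x * ((α * s i a : ℝ) : ℂ)) • w i a + (y * ((α * s i a' : ℝ) : ℂ)) • w i a') = 0 := by
      rw [map_add, map_smul, map_smul, mul_smul, mul_smul]
      exact hxy
    have e3 := hGinj (e2.trans (map_zero G).symm)
    obtain ⟨h4, h5⟩ := e1 _ _ e3
    exact ⟨(mul_eq_zero.mp h4).resolve_right (hsne i a),
      (mul_eq_zero.mp h5).resolve_right (hsne i a')⟩

end Pool.Agent.H67
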