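import Mathlib
import Pool.Agent.H67.NetExtract
import Pool.Agent.H67.NetExists
import Pool.Agent.H67.NetC5

/-!
# The normal form of three blocks
-/

open MvPolynomial Matrix

namespace Pool.Agent.H67.NetP3

/-- `v` is a multiple of `p - ζ q` with `ζ` an `n`-th root of unity -/
def OnP {V : Type} [AddCommGroup V] [Module ℂ V] (n : ℕ) (p q v : V) : Prop :=
  ∃ c ζ : ℂ, c ≠ 0 ∧ ζ ^ n = 1 ∧ v = c • (p - ζ • q)

/-- exchange in a plane spanned by two independent vectors -/
theorem mem_span_exchange {m : ℕ} {u v w : Fin m → ℂ} (huw : LinearIndependent ℂ ![u, w])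
    (h : w ∈ Submodule.span ℂ {u, v}) : v ∈ Submodule.span ℂ {u, w} := by
  rw [Submodule.mem_span_pair] at h ⊢
  obtain ⟨s, t, hst⟩ := h
  have ht : t ≠ 0 := by
    rintro rfl
    rw [LinearIndependent.pair_iff] at huw
    have := huw s (-1) (by rw [← hst]; module)
    simp at this
  refine ⟨-(t⁻¹ * s), t⁻¹, ?_⟩
  rw [← hst]
  have : t⁻¹ * t = 1 := inv_mul_cancel₀ ht
  calc (-(t⁻¹ * s)) • u + t⁻¹ • (s • u + t • v) = (t⁻¹ * t) • v := by module
    _ = v := by rw [this, one_smul]

/-- **Normal form of three blocks of a net which is not a cone.** -/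
theorem IsNetP3.normal_form {k d : ℕ} {ℓ : Fin k → Fin d → (Fin 4 → ℂ)}
    (h : IsNetP3 k d ℓ) (hcone : ¬ IsCone ℓ) (b : Fin 3 → Fin k) (hb : Function.Injective b) :
    ∃ n : ℕ, 2 ≤ n ∧ d = 2 * n ∧ ∃ Y : Fin 4 → (Fin 4 → ℂ), LinearIndependent ℂ Y ∧
      (∀ a, OnP n (Y 0) (Y 1) (ℓ (b 0) a) ∨ OnP n (Y 2) (Y 3) (ℓ (b 0) a)) ∧
      (∀ a, OnP n (Y 0) (Y 2) (ℓ (b 1) a) ∨ OnP n (Y 1) (Y 3) (ℓ (b 1) a)) ∧
      (∀ a, OnP n (Y 0) (Y 3) (ℓ (b 2) a) ∨ OnP n (Y 1) (Y 2) (ℓ (b 2) a)) := by
  classical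
  have hd : 0 < d := h.toIsPencilArr.d_pos
  have hP := h.toIsPencilArr
  have hbne : ∀ {i j : Fin 3}, i ≠ j → b i ≠ b j := fun hij he => hij (hb he)
  have n01 : (0 : Fin 3) ≠ 1 := by decide
  have n02 : (0 : Fin 3) ≠ 2 := by decide
  have n12 : (1 : Fin 3) ≠ 2 := by decide
  have hdist : ∀ i j : Fin k, ∀ a c : Fin d, i ≠ j → LinearIndependent ℂ ![ℓ i a, ℓ j c] := by
    intro i j a c hij
    exact hP.distinct (i, a) (j, c) (by
      intro h2
      simp only [Prod.mk.injEq] at h2
      exact hij h2.1)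
  -- the third plane
  choose th hth using fun t : Fin d × Fin d => hP.exists_third (hbne n01) (b 2) t.1 t.2
  let idx : Fin d × Fin d → Fin 3 → Fin d := fun t => ![t.1, t.2, th t]
  have hidx0 : ∀ t, idx t 0 = t.1 := fun t => rfl
  have hidx1 : ∀ t, idx t 1 = t.2 := fun t => rfl
  have hidx2 : ∀ t, idx t 2 = th t := fun t => rfl
  have b01 : Function.Bijective (fun t => (idx t 0, idx t 1)) := Function.bijective_id
  -- exchange properties
  have hsp1 : ∀ t : Fin d × Fin d, ℓ (b 1) t.2 ∈ Submodule.span ℂ {ℓ (b 0) t.1, ℓ (b 2) (th t)} :=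
    fun t => mem_span_exchange (hdist _ _ _ _ (hbne n02)) (hth t)
  have hsp0 : ∀ t : Fin d × Fin d, ℓ (b 0) t.1 ∈ Submodule.span ℂ {ℓ (b 1) t.2, ℓ (b 2) (th t)} :=
    fun t => mem_span_exchange (hdist _ _ _ _ (hbne n12)) (by rw [Set.pair_comm]; exact hth t)
  have b02 : Function.Bijective (fun t => (idx t 0, idx t 2)) := by
    rw [← Finite.injective_iff_bijective]
    rintro ⟨a, c⟩ ⟨a', c'⟩ htt
    simp only [hidx0, hidx2, Prod.mk.injEq] at htt
    obtain ⟨rfl, h2⟩ := htt
    have e1 := hsp1 (a, c)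
    have e2 := hsp1 (a, c')
    rw [← h2] at e2
    have := h.third_unique (hbne n01) e1 e2
    simp only at this
    rw [this]
  have b12 : Function.Bijective (fun t => (idx t 1, idx t 2)) := by
    rw [← Finite.injective_iff_bijective]
    rintro ⟨a, c⟩ ⟨a', c'⟩ htt
    simp only [hidx1, hidx2, Prod.mk.injEq] at htt
    obtain ⟨rfl, h2⟩ := htt
    have e1 := hsp0 (a, c)
    have e2 := hsp0 (a', c)
    rw [← h2] at e2
    have := h.third_unique (hbne n01.symm) e1 e2
    simp only at this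
    rw [this]
  have hswap : ∀ i j, Function.Bijective (fun t => (idx t i, idx t j)) →
      Function.Bijective (fun t => (idx t j, idx t i)) := fun i j hij =>
    (Equiv.prodComm _ _).bijective.comp hij
  have hbij : ∀ i j, i ≠ j → Function.Bijective (fun t => (idx t i, idx t j)) := by
    intro i j hij
    fin_cases i <;> fin_cases j
    · exact absurd rfl hij
    · exact b01
    · exact b02
    · exact hswap _ _ b01
    · exact absurd rfl hij
    · exact b12
    · exact hswap _ _ b02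
    · exact hswap _ _ b12
    · exact absurd rfl hij
  -- the relations
  have hrel : ∀ t, ∃ r : Fin 3 → ℂ, (∀ i, r i ≠ 0) ∧ ∑ i, r i • ℓ (b i) (idx t i) = 0 := by
    intro t
    have e := hth t
    rw [Submodule.mem_span_pair] at e
    obtain ⟨α, β, hαβ⟩ := e
    have hα : α ≠ 0 := by
      rintro rfl
      have h1 := hdist (b 1) (b 2) t.2 (th t) (hbne n12)
      rw [LinearIndependent.pair_iff] at h1
      have := h1 β (-1) (by rw [← hαβ]; module)
      simp at this
    have hβ : β ≠ 0 := by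
      rintro rfl
      have h1 := hdist (b 0) (b 2) t.1 (th t) (hbne n02)
      rw [LinearIndependent.pair_iff] at h1
      have := h1 α (-1) (by rw [← hαβ]; module)
      simp at this
    refine ⟨![α, β, -1], ?_, ?_⟩
    · intro i
      fin_cases i
      · exact hα
      · exact hβ
      · simp
    · rw [Fin.sum_univ_three, hidx0, hidx1, hidx2]
      simp only [Matrix.cons_val_zero, Matrix.cons_val_one, Matrix.cons_val_two,
        Matrix.head_cons, Matrix.tail_cons]
      rw [← hαβ]
      module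
  choose r hr0 hr using hrel
  -- spanning
  have hspan : Submodule.span ℂ (Set.range fun p : Fin 3 × Fin d => ℓ (b p.1) p.2) = ⊤ := by
    by_contra hne
    obtain ⟨f, hf0, hf⟩ := Submodule.exists_le_ker_of_lt_top _ (lt_top_iff_ne_top.mpr hne)
    apply hcone
    have hrep : ∀ a : Fin 4 → ℂ, f a = a ⬝ᵥ (fun i => f (Pi.single i 1)) := by
      intro a
      have : a = ∑ i, a i • (Pi.single i (1:ℂ) : Fin 4 → ℂ) := by
        funext j
        simp [Finset.sum_apply, Pi.single_apply]
      conv_lhs => rw [this]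
      rw [map_sum]
      simp only [map_smul, smul_eq_mul, dotProduct]
    refine ⟨fun i => f (Pi.single i 1), ?_, ?_⟩
    · intro h0
      apply hf0
      apply LinearMap.ext
      intro a
      rw [hrep, h0]
      simp
    · intro i j
      rw [← hrep]
      have h0 : ∀ p : Fin 3, ∀ a, f (ℓ (b p) a) = 0 := by
        intro p a
        exact hf (Submodule.subset_span ⟨(p, a), rfl⟩)
      by_cases hi : ∃ p, b p = i
      · obtain ⟨p, rfl⟩ := hi
        exact h0 p j
      · push Not at hi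
        -- use the span of two planes of the blocks `b 0`, `i`
        obtain ⟨c, hc⟩ := hP.exists_third (hi 0) (b 1) ⟨0, hd⟩ j
        have h3 := mem_span_exchange (hdist _ _ _ _ (hbne n01)) hc
        rw [Submodule.mem_span_pair] at h3
        obtain ⟨α, β, hαβ⟩ := h3
        rw [← hαβ, map_add, map_smul, map_smul, h0 0, h0 1]
        simp
  have hind : ∀ (i : Fin 3) a a', a ≠ a' → LinearIndependent ℂ ![ℓ (b i) a, ℓ (b i) a'] := by
    intro i a a' haa
    exact hP.distinct (b i, a) (b i, a') (by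
      intro h2
      simp only [Prod.mk.injEq, true_and] at h2
      exact haa h2)
  obtain ⟨g, s, hginj, hs, htight⟩ := exists_tight idx hbij hd (fun i a => ℓ (b i) a) hspan r hr0
    hr hind
  obtain ⟨n, hn2, hdn, y, hy, h0, h1, h2⟩ := htight.classification hd
  have hgsurj : Function.Surjective g :=
    (LinearMap.injective_iff_surjective_of_finrank_eq_finrank (by simp)).mp hginj
  choose Y hY using fun m => hgsurj (y m)
  have hpull : ∀ (p q : Fin 4) (i : Fin 3) (a : Fin d),
      OnPencil n (y p) (y q) (s i a • g (ℓ (b i) a)) → OnP n (Y p) (Y q) (ℓ (b i) a) := by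
    rintro p q i a ⟨c, ζ, hc, hζ, hv⟩
    refine ⟨(s i a)⁻¹ * c, ζ, mul_ne_zero (inv_ne_zero (hs i a)) hc, hζ, ?_⟩
    apply hginj
    rw [map_smul, map_sub, map_smul, hY, hY, mul_smul, ← hv, smul_smul,
      inv_mul_cancel₀ (hs i a), one_smul]
  refine ⟨n, hn2, hdn, Y, ?_, fun a => ?_, fun a => ?_, fun a => ?_⟩
  · have : LinearIndependent ℂ (g ∘ Y) := by
      have e : g ∘ Y = y := funext hY
      rw [e]; exact hy
    exact this.of_comp g
  · exact (h0 a).imp (hpull 0 1 0 a) (hpull 2 3 0 a)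
  · exact (h1 a).imp (hpull 0 2 1 a) (hpull 1 3 1 a)
  · exact (h2 a).imp (hpull 0 3 2 a) (hpull 1 2 2 a)

end Pool.Agent.H67.NetP3
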