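import Mathlib
import Pool.Agent.H67.NetForm

/-!
# The final step: products of linear forms, and exclusion of four blocks
-/

open MvPolynomial Matrix

namespace Pool.Agent.H67.NetP3

/-- all `2 n` vectors of the two pencils occur in a block -/
theorem exists_equiv_of_onP {n d : ℕ} (hn : 0 < n) (hd : d = 2 * n) (w : Fin d → (Fin 4 → ℂ))
    (P R S T : Fin 4 → ℂ) (hdist : ∀ a a', a ≠ a' → LinearIndependent ℂ ![w a, w a'])
    (h : ∀ a, OnP n P R (w a) ∨ OnP n S T (w a)) :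
    ∃ (f : Fin d ≃ Bool × {ζ : ℂ // ζ ∈ Polynomial.nthRootsFinset n (1:ℂ)}) (c : Fin d → ℂ),
      (∀ a, c a ≠ 0) ∧ ∀ a, w a = c a • (if (f a).1 then S - ((f a).2 : ℂ) • T
        else P - ((f a).2 : ℂ) • R) := by
  classical
  have h1 : ∀ a, ∃ (p : Bool × {ζ : ℂ // ζ ∈ Polynomial.nthRootsFinset n (1:ℂ)}) (c : ℂ),
      c ≠ 0 ∧ w a = c • (if p.1 then S - (p.2 : ℂ) • T else P - (p.2 : ℂ) • R) := by
    intro a
    rcases h a with ⟨c, ζ, hc, hζ, hw⟩ | ⟨c, ζ, hc, hζ, hw⟩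
    · refine ⟨(false, ⟨ζ, (Polynomial.mem_nthRootsFinset hn 1).mpr hζ⟩), c, hc, ?_⟩
      simpa using hw
    · refine ⟨(true, ⟨ζ, (Polynomial.mem_nthRootsFinset hn 1).mpr hζ⟩), c, hc, ?_⟩
      simpa using hw
  choose f c hc hf using h1
  have hinj : Function.Injective f := by
    intro a a' haa
    by_contra hne
    have h2 := hdist a a' hne
    rw [LinearIndependent.pair_iff] at h2
    have h3 := h2 (c a') (-(c a)) (by
      rw [hf a, hf a', haa, smul_smul, smul_smul, ← add_smul]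
      ring_nf
      simp)
    exact hc a' h3.1
  have hcard : Fintype.card (Bool × {ζ : ℂ // ζ ∈ Polynomial.nthRootsFinset n (1:ℂ)}) = d := by
    rw [Fintype.card_prod, Fintype.card_bool, Fintype.card_coe,
      (Complex.isPrimitiveRoot_exp n hn.ne').card_nthRootsFinset, hd]
  have hbij : Function.Bijective f := by
    rw [Fintype.bijective_iff_injective_and_card]
    exact ⟨hinj, by rw [hcard]; simp⟩
  exact ⟨Equiv.ofBijective f hbij, c, hc, fun a => hf a⟩

/-- the product of the forms of one block -/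
theorem block_product {n d : ℕ} (hn : 0 < n) (hd : d = 2 * n) (w : Fin d → (Fin 4 → ℂ))
    (P R S T : Fin 4 → ℂ) (hdist : ∀ a a', a ≠ a' → LinearIndependent ℂ ![w a, w a'])
    (h : ∀ a, OnP n P R (w a) ∨ OnP n S T (w a)) :
    ∃ c : ℂ, c ≠ 0 ∧ blockPoly w = C c * ((linForm P ^ n - linForm R ^ n)
      * (linForm S ^ n - linForm T ^ n)) := by
  classical
  obtain ⟨f, c, hc, hf⟩ := exists_equiv_of_onP hn hd w P R S T hdist h
  refine ⟨∏ a, c a, Finset.prod_ne_zero_iff.mpr fun a _ => hc a, ?_⟩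
  apply MvPolynomial.funext
  intro x
  rw [eval_blockPoly]
  simp only [map_mul, map_sub, map_pow, eval_C, eval_linForm]
  have hroot : ∀ u v : ℂ, u ^ n - v ^ n
      = ∏ ζ : {ζ : ℂ // ζ ∈ Polynomial.nthRootsFinset n (1:ℂ)}, (u - (ζ:ℂ) * v) := by
    intro u v
    rw [(Complex.isPrimitiveRoot_exp n hn.ne').pow_sub_pow_eq_prod_sub_mul u v hn]
    exact (Finset.prod_coe_sort _ (fun ζ : ℂ => u - ζ * v)).symm
  rw [hroot, hroot]
  let G : Bool × {ζ : ℂ // ζ ∈ Polynomial.nthRootsFinset n (1:ℂ)} → ℂ := fun p =>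
      (if p.1 then S ⬝ᵥ x - (p.2 : ℂ) * (T ⬝ᵥ x) else P ⬝ᵥ x - (p.2 : ℂ) * (R ⬝ᵥ x))
  have h1 : ∀ a, w a ⬝ᵥ x = c a * G (f a) := by
    intro a
    conv_lhs => rw [hf a]
    rw [smul_dotProduct, smul_eq_mul]
    congr 1
    by_cases hb : (f a).1 = true
    · simp [G, hb, sub_dotProduct, smul_dotProduct]
    · simp [G, hb, sub_dotProduct, smul_dotProduct]
  rw [Finset.prod_congr rfl (fun a _ => h1 a), Finset.prod_mul_distrib, Equiv.prod_comp f G,
    Fintype.prod_prod_type]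
  congr 1
  rw [Fintype.prod_bool, mul_comm]
  simp [G]

/-- every vector of the two pencils is proportional to a vector of the block -/
theorem exists_of_root {n d : ℕ} (hn : 0 < n) (hd : d = 2 * n) (w : Fin d → (Fin 4 → ℂ))
    (P R S T : Fin 4 → ℂ) (hdist : ∀ a a', a ≠ a' → LinearIndependent ℂ ![w a, w a'])
    (h : ∀ a, OnP n P R (w a) ∨ OnP n S T (w a)) {ζ : ℂ} (hζ : ζ ^ n = 1) :
    (∃ a, ∃ c : ℂ, c ≠ 0 ∧ w a = c • (P - ζ • R)) ∧ ∃ a, ∃ c : ℂ, c ≠ 0 ∧ w a = c • (S - ζ • T) := by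
  obtain ⟨f, c, hc, hf⟩ := exists_equiv_of_onP hn hd w P R S T hdist h
  have hζ' := (Polynomial.mem_nthRootsFinset hn 1).mpr hζ
  refine ⟨⟨f.symm (false, ⟨ζ, hζ'⟩), c (f.symm (false, ⟨ζ, hζ'⟩)), hc _, ?_⟩,
    ⟨f.symm (true, ⟨ζ, hζ'⟩), c (f.symm (true, ⟨ζ, hζ'⟩)), hc _, ?_⟩⟩
  · conv_lhs => rw [hf]
    simp
  · conv_lhs => rw [hf]
    simp

theorem coeffs_zero {Y : Fin 4 → (Fin 4 → ℂ)} (hY : LinearIndependent ℂ Y) {c0 c1 c2 c3 : ℂ}
    (h : c0 • Y 0 + c1 • Y 1 + c2 • Y 2 + c3 • Y 3 = 0) : c0 = 0 ∧ c1 = 0 ∧ c2 = 0 ∧ c3 = 0 := by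
  have h1 := Fintype.linearIndependent_iff.mp hY ![c0, c1, c2, c3] (by
    rw [Fin.sum_univ_four]
    simpa using h)
  exact ⟨h1 0, h1 1, h1 2, h1 3⟩

/-- a multiple of a nonzero multiple is not independent -/
theorem not_indep_of_smul {e v w : Fin 4 → ℂ} {s c : ℂ} (hc : c ≠ 0) (he : e = s • v)
    (hw : w = c • v) : ¬ LinearIndependent ℂ ![e, w] := by
  intro h
  rw [LinearIndependent.pair_iff] at h
  have := h c (-s) (by rw [he, hw]; module)
  exact hc this.1

/-- **There are exactly three blocks.** -/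
theorem IsNetP3.three_blocks {k d : ℕ} {ℓ : Fin k → Fin d → (Fin 4 → ℂ)}
    (h : IsNetP3 k d ℓ) (hcone : ¬ IsCone ℓ) : k = 3 := by
  classical
  by_contra hk3
  have hP := h.toIsPencilArr
  have hk := hP.three_le
  have hk4 : 4 ≤ k := by omega
  have hd : 0 < d := hP.d_pos
  obtain ⟨n, hn2, hdn, Y, hY, h0, h1, h2⟩ := h.normal_form hcone (Fin.castLE hk)
    (Fin.castLE_injective hk)
  have hn : 0 < n := by omega
  set b : Fin 3 → Fin k := Fin.castLE hk with hb
  set q : Fin k := ⟨3, by omega⟩ with hq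
  have hbq : ∀ i, b i ≠ q := by
    intro i hi
    have := congrArg Fin.val hi
    simp only [hb, hq, Fin.val_castLE] at this
    omega
  have hbinj : Function.Injective b := Fin.castLE_injective hk
  have n01 : (0 : Fin 3) ≠ 1 := by decide
  have hdist : ∀ i j : Fin k, ∀ a c : Fin d, i ≠ j → LinearIndependent ℂ ![ℓ i a, ℓ j c] := by
    intro i j a c hij
    exact hP.distinct (i, a) (j, c) (by
      intro h2
      simp only [Prod.mk.injEq] at h2
      exact hij h2.1)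
  have hdist' : ∀ i : Fin k, ∀ a c : Fin d, a ≠ c → LinearIndependent ℂ ![ℓ i a, ℓ i c] := by
    intro i a c hac
    exact hP.distinct (i, a) (i, c) (by
      intro h2
      simp only [Prod.mk.injEq, true_and] at h2
      exact hac h2)
  set e := ℓ q ⟨0, hd⟩ with he
  obtain ⟨⟨a, ca, hca, ha⟩, ⟨a', ca', hca', ha'⟩⟩ := exists_of_root hn hdn (ℓ (b 0)) (Y 0) (Y 1)
    (Y 2) (Y 3) (hdist' _) h0 (one_pow n : (1:ℂ) ^ n = 1)
  rw [one_smul] at ha ha'
  -- third blocks
  have key : ∀ a : Fin d, ∃ β : Fin d, ∃ s t : ℂ, s ≠ 0 ∧ t ≠ 0 ∧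
      e = s • ℓ (b 0) a + t • ℓ (b 1) β := by
    intro a
    obtain ⟨β, hβ⟩ := hP.exists_third (hbq 0) (b 1) a ⟨0, hd⟩
    have h3 := mem_span_exchange (hdist _ _ _ _ (fun h => n01 (hbinj h))) hβ
    rw [Submodule.mem_span_pair] at h3
    obtain ⟨s, t, hst⟩ := h3
    refine ⟨β, s, t, ?_, ?_, hst.symm⟩
    · rintro rfl
      have h4 := hdist q (b 1) ⟨0, hd⟩ β (hbq 1).symm
      refine not_indep_of_smul (one_ne_zero) (s := t) (v := ℓ (b 1) β) ?_ (one_smul _ _).symm h4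
      rw [← hst]; simp
    · rintro rfl
      have h4 := hdist q (b 0) ⟨0, hd⟩ a (hbq 0).symm
      refine not_indep_of_smul (one_ne_zero) (s := s) (v := ℓ (b 0) a) ?_ (one_smul _ _).symm h4
      rw [← hst]; simp
  obtain ⟨β, s, t, hs, ht, hE⟩ := key a
  obtain ⟨β', s', t', hs', ht', hE'⟩ := key a'
  rw [ha] at hE
  rw [ha'] at hE'
  rcases h1 β with ⟨c, ζ, hc, hζ, hv⟩ | ⟨c, ζ, hc, hζ, hv⟩ <;>
  rcases h1 β' with ⟨c', ζ', hc', hζ', hv'⟩ | ⟨c', ζ', hc', hζ', hv'⟩ <;>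
  rw [hv] at hE <;> rw [hv'] at hE'
  · have h5 := coeffs_zero hY (c0 := s * ca + t * c - t' * c') (c1 := - (s * ca))
      (c2 := - (t * c * ζ) - s' * ca' + t' * c' * ζ') (c3 := s' * ca') (by
        have : e - e = 0 := sub_self e
        nth_rewrite 1 [hE] at this
        rw [hE'] at this
        rw [← this]
        module)
    have := h5.2.1
    rw [neg_eq_zero] at this
    exact mul_ne_zero hs hca this
  · have h5 := coeffs_zero hY (c0 := s * ca + t * c) (c1 := - (s * ca) - t' * c')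
      (c2 := - (t * c * ζ) - s' * ca') (c3 := s' * ca' + t' * c' * ζ') (by
        have : e - e = 0 := sub_self e
        nth_rewrite 1 [hE] at this
        rw [hE'] at this
        rw [← this]
        module)
    obtain ⟨e0, e1, e2, e3⟩ := h5
    -- `e` is a multiple of `Y 1 - ζ Y 2`
    obtain ⟨-, ⟨x, cx, hcx, hx⟩⟩ := exists_of_root hn hdn (ℓ (b 2)) (Y 0) (Y 3) (Y 1) (Y 2)
      (hdist' _) h2 hζ
    refine not_indep_of_smul hcx (s := -(s * ca)) ?_ hx (hdist q (b 2) ⟨0, hd⟩ x (hbq 2).symm)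
    rw [← he, hE]
    have e4 : t * c = -(s * ca) := by linear_combination e0
    calc s • ca • (Y 0 - Y 1) + t • c • (Y 0 - ζ • Y 2)
        = (s * ca) • (Y 0 - Y 1) + (t * c) • (Y 0 - ζ • Y 2) := by module
      _ = (s * ca) • (Y 0 - Y 1) + (-(s * ca)) • (Y 0 - ζ • Y 2) := by rw [e4]
      _ = (-(s * ca)) • (Y 1 - ζ • Y 2) := by module
  · have h5 := coeffs_zero hY (c0 := s * ca - t' * c') (c1 := - (s * ca) + t * c)
      (c2 := - (s' * ca') + t' * c' * ζ') (c3 := - (t * c * ζ) + s' * ca') (by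
        have : e - e = 0 := sub_self e
        nth_rewrite 1 [hE] at this
        rw [hE'] at this
        rw [← this]
        module)
    obtain ⟨e0, e1, e2, e3⟩ := h5
    obtain ⟨⟨x, cx, hcx, hx⟩, -⟩ := exists_of_root hn hdn (ℓ (b 2)) (Y 0) (Y 3) (Y 1) (Y 2)
      (hdist' _) h2 hζ
    refine not_indep_of_smul hcx (s := s * ca) ?_ hx (hdist q (b 2) ⟨0, hd⟩ x (hbq 2).symm)
    rw [← he, hE]
    have e4 : t * c = s * ca := by linear_combination e1
    calc s • ca • (Y 0 - Y 1) + t • c • (Y 1 - ζ • Y 3)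
        = (s * ca) • (Y 0 - Y 1) + (t * c) • (Y 1 - ζ • Y 3) := by module
      _ = (s * ca) • (Y 0 - Y 1) + (s * ca) • (Y 1 - ζ • Y 3) := by rw [e4]
      _ = (s * ca) • (Y 0 - ζ • Y 3) := by module
  · have h5 := coeffs_zero hY (c0 := s * ca) (c1 := - (s * ca) + t * c - t' * c')
      (c2 := - (s' * ca')) (c3 := - (t * c * ζ) + s' * ca' + t' * c' * ζ') (by
        have : e - e = 0 := sub_self e
        nth_rewrite 1 [hE] at this
        rw [hE'] at this
        rw [← this]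
        module)
    exact mul_ne_zero hs hca h5.1

/-- **Main theorem.** Every net in `ℙ³` which is not a cone is projectively equivalent to one
of the arrangements `Q_n`. -/
theorem IsNetP3.main {k d : ℕ} {ℓ : Fin k → Fin d → (Fin 4 → ℂ)}
    (h : IsNetP3 k d ℓ) (hcone : ¬ IsCone ℓ) :
    ∃ n : ℕ, 2 ≤ n ∧ k = 3 ∧ d = 2 * n ∧ IsEquivQ ℓ n := by
  classical
  obtain rfl := h.three_blocks hcone
  have hP := h.toIsPencilArr
  obtain ⟨n, hn2, hdn, Y, hY, h0, h1, h2⟩ := h.normal_form hcone id Function.injective_id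
  have hn : 0 < n := by omega
  have hdist' : ∀ i : Fin 3, ∀ a c : Fin d, a ≠ c → LinearIndependent ℂ ![ℓ i a, ℓ i c] := by
    intro i a c hac
    exact hP.distinct (i, a) (i, c) (by
      intro h2
      simp only [Prod.mk.injEq, true_and] at h2
      exact hac h2)
  refine ⟨n, hn2, rfl, hdn, ?_⟩
  obtain ⟨c0, hc0, e0⟩ := block_product hn hdn (ℓ 0) _ _ _ _ (hdist' 0) h0
  obtain ⟨c1, hc1, e1⟩ := block_product hn hdn (ℓ 1) _ _ _ _ (hdist' 1) h1
  obtain ⟨c2, hc2, e2⟩ := block_product hn hdn (ℓ 2) _ _ _ _ (hdist' 2) h2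
  refine ⟨Equiv.refl _, Matrix.of Y, ![c0, c1, c2], ?_, ?_⟩
  · have : LinearIndependent ℂ (Matrix.of Y).row := hY
    exact Matrix.linearIndependent_rows_iff_isUnit.mp this
  · intro i
    fin_cases i
    · refine ⟨hc0, ?_⟩
      simp only [Fin.zero_eta, Equiv.refl_apply, Qblock, Matrix.cons_val_zero, map_mul, map_sub,
        map_pow, bind₁_X_right]
      exact e0
    · refine ⟨hc1, ?_⟩
      simp only [Fin.mk_one, Equiv.refl_apply, Qblock, Matrix.cons_val_one, Matrix.cons_val_zero,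
        map_mul, map_sub, map_pow, bind₁_X_right]
      exact e1
    · refine ⟨hc2, ?_⟩
      simp only [Fin.reduceFinMk, Equiv.refl_apply, Qblock, map_mul, map_sub, map_pow,
        Matrix.cons_val]
      simp only [bind₁_X_right]
      exact e2

end Pool.Agent.H67.NetP3
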